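import Mathlib

/-!
# Two-sided gamma expansions: the algebraic part
-/

set_option autoImplicit false

open Finset

namespace Pool.Agent.TSDG

/-- polynomials in two variables -/
abbrev P := MvPolynomial (Fin 2) ℤ

noncomputable section

/-- `(st)^i (s+t)^j (1+st)^(n-2i-j)` -/
def mono {R : Type} [CommRing R] (n i j : ℕ) (s t : R) : R :=
  (s * t) ^ i * (s + t) ^ j * (1 + s * t) ^ (n - 2 * i - j)

/-- the sum with coefficients `c` -/
def gsum {R : Type} [CommRing R] (n : ℕ) (c : ℕ → ℕ → ℤ) (s t : R) : R :=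
  ∑ i ∈ range (n + 1), ∑ j ∈ range (n + 1),
    if 2 * i + j ≤ n then (c i j : R) * mono n i j s t else 0

/-- `p` has an expansion with the first two rows `r0`, `r1` -/
def Comb {R : Type} [CommRing R] (n : ℕ) (s t : R) (r0 r1 : ℕ → ℤ) (p : R) : Prop :=
  ∃ c : ℕ → ℕ → ℤ, (∀ j, c 0 j = r0 j) ∧ (∀ j, c 1 j = r1 j) ∧ p = gsum n c s t

variable {R : Type} [CommRing R] {n : ℕ} {s t : R}

theorem comb_zero : Comb n s t (fun _ => 0) (fun _ => 0) 0 :=
  ⟨fun _ _ => 0, fun _ => rfl, fun _ => rfl, by simp [gsum]⟩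

theorem comb_add {r0 r1 q0 q1 : ℕ → ℤ} {p q : R} (hp : Comb n s t r0 r1 p)
    (hq : Comb n s t q0 q1 q) :
    Comb n s t (fun j => r0 j + q0 j) (fun j => r1 j + q1 j) (p + q) := by
  obtain ⟨c, h0, h1, rfl⟩ := hp
  obtain ⟨d, k0, k1, rfl⟩ := hq
  refine ⟨fun i j => c i j + d i j, fun j => by simp only [h0, k0],
    fun j => by simp only [h1, k1], ?_⟩
  unfold gsum
  rw [← sum_add_distrib]
  refine sum_congr rfl fun i _ => ?_
  rw [← sum_add_distrib]
  refine sum_congr rfl fun j _ => ?_
  split_ifs
  · push_cast; ring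
  · simp

theorem comb_smul {r0 r1 : ℕ → ℤ} {p : R} (z : ℤ) (hp : Comb n s t r0 r1 p) :
    Comb n s t (fun j => z * r0 j) (fun j => z * r1 j) ((z : R) * p) := by
  obtain ⟨c, h0, h1, rfl⟩ := hp
  refine ⟨fun i j => z * c i j, fun j => by simp only [h0], fun j => by simp only [h1], ?_⟩
  unfold gsum
  rw [mul_sum]
  refine sum_congr rfl fun i _ => ?_
  rw [mul_sum]
  refine sum_congr rfl fun j _ => ?_
  split_ifs
  · push_cast; ring
  · simp

theorem comb_sum {ι : Type} (A : Finset ι) {r0 r1 : ι → ℕ → ℤ} {p : ι → R}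
    (h : ∀ a ∈ A, Comb n s t (r0 a) (r1 a) (p a)) :
    Comb n s t (fun j => ∑ a ∈ A, r0 a j) (fun j => ∑ a ∈ A, r1 a j) (∑ a ∈ A, p a) := by
  classical
  induction A using Finset.induction_on with
  | empty => simpa using comb_zero
  | @insert a A ha ih =>
    have h1 := comb_add (h a (mem_insert_self _ _)) (ih fun b hb => h b (mem_insert_of_mem hb))
    simpa only [sum_insert ha] using h1

theorem comb_congr {r0 r1 q0 q1 : ℕ → ℤ} {p q : R} (hp : Comb n s t r0 r1 p)
    (h0 : ∀ j, r0 j = q0 j) (h1 : ∀ j, r1 j = q1 j) (h : p = q) : Comb n s t q0 q1 q := by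
  obtain ⟨c, k0, k1, rfl⟩ := hp
  exact ⟨c, fun j => (k0 j).trans (h0 j), fun j => (k1 j).trans (h1 j), h.symm⟩

theorem comb_mono {i j : ℕ} (h : 2 * i + j ≤ n) :
    Comb n s t (fun l => if i = 0 ∧ l = j then 1 else 0) (fun l => if i = 1 ∧ l = j then 1 else 0)
      (mono n i j s t) := by
  refine ⟨fun a b => if a = i ∧ b = j then 1 else 0, ?_, ?_, ?_⟩
  · intro l
    by_cases h1 : i = 0
    · subst h1; simp
    · simp [h1, Ne.symm h1]
  · intro l
    by_cases h1 : i = 1
    · subst h1; simp
    · simp [h1, Ne.symm h1]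
  · unfold gsum
    rw [sum_eq_single_of_mem i (mem_range.2 (by omega))]
    · rw [sum_eq_single_of_mem j (mem_range.2 (by omega))]
      · simp [h]
      · intro b _ hb
        simp [hb]
    · intro a _ ha
      apply sum_eq_zero
      intro b _
      simp [ha]

/-! ### Sums of powers -/

/-- `x^j + y^j`, and `1` for `j = 0` -/
def AA (j : ℕ) (x y : R) : R := if j = 0 then 1 else x ^ j + y ^ j

theorem dick (j : ℕ) : ∃ c : ℕ → ℤ, c 0 = 1 ∧ (2 ≤ j → c 1 = -j) ∧
    ∀ (R : Type) [CommRing R] (x y : R), AA j x y =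
      ∑ a ∈ range (j / 2 + 1), (c a : R) * ((x * y) ^ a * (x + y) ^ (j - 2 * a)) := by
  induction j using Nat.strong_induction_on with
  | _ j ih =>
    rcases Nat.lt_or_ge j 3 with hj | hj
    · interval_cases j
      · exact ⟨fun _ => 1, rfl, by omega, fun R _ x y => by simp [AA]⟩
      · exact ⟨fun _ => 1, rfl, by omega, fun R _ x y => by simp [AA]⟩
      · refine ⟨fun a => if a = 0 then 1 else -2, rfl, fun _ => by simp, fun R _ x y => ?_⟩
        simp [AA, sum_range_succ]
        ring
    · obtain ⟨c, c0, c1, hc⟩ := ih (j - 1) (by omega)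
      obtain ⟨d, d0, d1, hd⟩ := ih (j - 2) (by omega)
      refine ⟨fun a => (if a ≤ (j - 1) / 2 then c a else 0) - (if a = 0 then 0 else d (a - 1)),
        by simp [c0], ?_, ?_⟩
      · intro _
        have h1 : 1 ≤ (j - 1) / 2 := by omega
        simp only [h1, if_true, one_ne_zero, if_false, Nat.sub_self, d0]
        rw [c1 (by omega)]
        have : ((j - 1 : ℕ) : ℤ) = j - 1 := by omega
        rw [this]; ring
      · intro R _ x y
        have e1 : AA j x y = (x + y) * AA (j - 1) x y - x * y * AA (j - 2) x y := by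
          obtain ⟨m, rfl⟩ : ∃ m, j = m + 3 := ⟨j - 3, by omega⟩
          simp only [AA]
          rw [if_neg (by omega), if_neg (by omega), if_neg (by omega)]
          have h1 : m + 3 - 1 = m + 2 := rfl
          have h2 : m + 3 - 2 = m + 1 := rfl
          rw [h1, h2]; ring
        rw [e1, hc, hd]
        have e2 : (x + y) * ∑ a ∈ range ((j - 1) / 2 + 1),
            (c a : R) * ((x * y) ^ a * (x + y) ^ (j - 1 - 2 * a)) =
            ∑ a ∈ range (j / 2 + 1), ((if a ≤ (j - 1) / 2 then c a else 0 : ℤ) : R) *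
              ((x * y) ^ a * (x + y) ^ (j - 2 * a)) := by
          rw [mul_sum]
          have hsub : range ((j - 1) / 2 + 1) ⊆ range (j / 2 + 1) :=
            range_subset_range.2 (by omega)
          rw [← sum_subset hsub]
          · refine sum_congr rfl fun a ha => ?_
            have ha' : a ≤ (j - 1) / 2 := by have := mem_range.1 ha; omega
            rw [if_pos ha']
            have h3 : j - 2 * a = (j - 1 - 2 * a) + 1 := by omega
            rw [h3, pow_succ]; ring
          · intro a _ ha
            have ha' : ¬ a ≤ (j - 1) / 2 := by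
              intro h; exact ha (mem_range.2 (by omega))
            rw [if_neg ha']; simp
        have e3 : x * y * ∑ a ∈ range ((j - 2) / 2 + 1),
            (d a : R) * ((x * y) ^ a * (x + y) ^ (j - 2 - 2 * a)) =
            ∑ a ∈ range (j / 2 + 1), ((if a = 0 then 0 else d (a - 1) : ℤ) : R) *
              ((x * y) ^ a * (x + y) ^ (j - 2 * a)) := by
          have h4 : j / 2 + 1 = ((j - 2) / 2 + 1) + 1 := by omega
          rw [h4, sum_range_succ' _ ((j - 2) / 2 + 1)]
          simp only [if_true, Int.cast_zero, zero_mul, add_zero, Nat.succ_ne_zero, if_false,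
            Nat.add_sub_cancel]
          rw [mul_sum]
          refine sum_congr rfl fun a ha => ?_
          have h5 : j - 2 * (a + 1) = j - 2 - 2 * a := by omega
          rw [h5, pow_succ]; ring
        rw [e2, e3, ← sum_sub_distrib]
        refine sum_congr rfl fun a _ => ?_
        push_cast; ring

/-- the orbit sums -/
theorem comb_orbit {k l : ℕ} (hkl : k ≤ l) (h : k + l ≤ n) (hk : 1 ≤ k) :
    Comb n s t (fun _ => 0) (fun j => if k = 1 ∧ l = j + 1 then 1 else 0)
      ((s * t) ^ k * AA (l - k) s t * AA (n - k - l) 1 (s * t)) := by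
  obtain ⟨c, c0, -, hc⟩ := dick (l - k)
  obtain ⟨d, d0, -, hd⟩ := dick (n - k - l)
  have h1 : ∀ a ∈ range ((l - k) / 2 + 1) ×ˢ range ((n - k - l) / 2 + 1),
      Comb n s t (fun j => c a.1 * d a.2 * (if k + a.1 + a.2 = 0 ∧ j = l - k - 2 * a.1 then 1 else 0))
        (fun j => c a.1 * d a.2 * (if k + a.1 + a.2 = 1 ∧ j = l - k - 2 * a.1 then 1 else 0))
        (((c a.1 * d a.2 : ℤ) : R) * mono n (k + a.1 + a.2) (l - k - 2 * a.1) s t) := by
    intro a ha
    rw [mem_product, mem_range, mem_range] at ha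
    exact comb_smul _ (comb_mono (by omega))
  have h2 := comb_sum _ h1
  refine comb_congr h2 ?_ ?_ ?_
  · intro j
    apply sum_eq_zero
    intro a _
    rw [if_neg (by omega)]; simp
  · intro j
    by_cases hk1 : k = 1
    · subst hk1
      have h00 : ((0, 0) : ℕ × ℕ) ∈ range ((l - 1) / 2 + 1) ×ˢ range ((n - 1 - l) / 2 + 1) := by
        simp
      rw [sum_eq_single_of_mem (0, 0) h00]
      · simp only [c0, d0, add_zero, mul_zero, Nat.sub_zero, one_mul, true_and]
        by_cases hj : l = j + 1
        · rw [if_pos (by omega), if_pos hj]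
        · rw [if_neg (by omega), if_neg hj]
      · rintro ⟨a, b⟩ _ hab
        rw [if_neg]
        · simp
        · rintro ⟨h3, -⟩
          apply hab
          simp only at h3
          ext <;> simp <;> omega
    · rw [if_neg (by tauto)]
      apply sum_eq_zero
      intro a _
      rw [if_neg (by omega)]; simp
  · rw [hc, hd, sum_product, mul_assoc, sum_mul_sum, mul_sum]
    refine sum_congr rfl fun a ha => ?_
    rw [mul_sum]
    refine sum_congr rfl fun b hb => ?_
    rw [mem_range] at ha hb
    unfold mono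
    have h5 : n - 2 * (k + a + b) - (l - k - 2 * a) = n - k - l - 2 * b := by omega
    rw [h5]
    push_cast
    rw [pow_add, pow_add]
    ring

/-- the orbit sum of `(0,0)` -/
theorem comb_orbit0 (hn : 2 ≤ n) :
    Comb n s t (fun j => if j = 0 then 1 else 0) (fun j => if j = 0 then -(n : ℤ) else 0)
      (AA n 1 (s * t)) := by
  obtain ⟨d, d0, d1, hd⟩ := dick n
  have h1 : ∀ a ∈ range (n / 2 + 1),
      Comb n s t (fun j => d a * (if a = 0 ∧ j = 0 then 1 else 0))
        (fun j => d a * (if a = 1 ∧ j = 0 then 1 else 0))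
        (((d a : ℤ) : R) * mono n a 0 s t) := by
    intro a ha
    rw [mem_range] at ha
    exact comb_smul _ (comb_mono (by omega))
  have h2 := comb_sum _ h1
  refine comb_congr h2 ?_ ?_ ?_
  · intro j
    rw [sum_eq_single_of_mem 0 (by simp)]
    · simp [d0]
    · intro a _ ha
      simp [ha]
  · intro j
    rw [sum_eq_single_of_mem 1 (mem_range.2 (by omega))]
    · rw [d1 hn]
      by_cases hj : j = 0
      · simp [hj]
      · simp [hj]
    · intro a _ ha
      simp [ha]
  · rw [hd]
    refine sum_congr rfl fun a _ => ?_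
    unfold mono
    simp

end

end Pool.Agent.TSDG
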