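import Mathlib
import Pool.Agent.Lib.MP_a0e11f_co.Alg

/-!
# Signed permutations of type D: descents, inverse descents and two symmetries
-/

set_option autoImplicit false

open Finset

namespace Pool.Agent.TSDG

/-- signed permutations: `(σ, ε)` is the signed permutation with `π_i = ± σ(i)`, minus iff
`ε i = true` (positions and values of `σ` are counted from `0`) -/
abbrev SP (n : ℕ) := Equiv.Perm (Fin n) × (Fin n → Bool)

/-- the entry at the position `i` (positions from `0`, values from `1`) -/
def val {n : ℕ} (w : SP n) (i : Fin n) : ℤ :=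
  if w.2 i then -(((w.1 i : ℕ) : ℤ) + 1) else ((w.1 i : ℕ) : ℤ) + 1

/-- `π_i` for `1 ≤ i ≤ n` (positions from `1`) -/
def pos {n : ℕ} (w : SP n) (i : ℕ) : ℤ := if h : 1 ≤ i ∧ i ≤ n then val w ⟨i - 1, by omega⟩ else 0

/-- `π_i`, with `π_0 = -π_2` -/
def line {n : ℕ} (w : SP n) (i : ℕ) : ℤ := if i = 0 then -pos w 2 else pos w i

/-- the number of type D descents -/
def des {n : ℕ} (w : SP n) : ℕ := ((range n).filter fun i => line w (i + 1) < line w i).card

/-- the inverse signed permutation -/
def inv {n : ℕ} (w : SP n) : SP n := (w.1.symm, fun i => w.2 (w.1.symm i))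

/-- the number of type D descents of the inverse -/
def ides {n : ℕ} (w : SP n) : ℕ := des (inv w)

/-- the type D length -/
def lenD {n : ℕ} (w : SP n) : ℕ :=
  (univ.filter fun p : Fin n × Fin n => p.1 < p.2 ∧ val w p.2 < val w p.1).card +
    (univ.filter fun p : Fin n × Fin n => p.1 < p.2 ∧ val w p.1 + val w p.2 < 0).card

/-- the elements of type `D_n` whose length is `r` modulo `2` -/
def DD (n r : ℕ) : Finset (SP n) :=
  univ.filter fun w => Even (univ.filter fun i => w.2 i = true).card ∧ lenD w % 2 = r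

/-! ### Inversions and the parity of the length -/

/-- the number of inversions of the underlying permutation -/
def invc {n : ℕ} (σ : Equiv.Perm (Fin n)) : ℕ :=
  (univ.filter fun p : Fin n × Fin n => p.1 < p.2 ∧ σ p.2 < σ p.1).card

theorem lenD_mod {n : ℕ} (w : SP n) : lenD w % 2 = invc w.1 % 2 := by
  rw [← ZMod.natCast_eq_natCast_iff']
  unfold lenD invc
  push_cast
  rw [natCast_card_filter, natCast_card_filter, natCast_card_filter, ← sum_add_distrib]
  refine sum_congr rfl fun p _ => ?_
  by_cases h : p.1 < p.2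
  · simp only [h, true_and]
    have hne : w.1 p.1 ≠ w.1 p.2 := fun e => h.ne (w.1.injective e)
    have hne' : (w.1 p.1 : ℕ) ≠ (w.1 p.2 : ℕ) := fun e => hne (Fin.ext e)
    have h11 : (1 + 1 : ZMod 2) = 0 := by decide
    unfold val
    simp only [Fin.lt_def]
    cases h1 : w.2 p.1 <;> cases h2 : w.2 p.2 <;>
      rcases Nat.lt_or_gt_of_ne hne' with h3 | h3 <;>
      simp only [h1, h2, if_true, if_false, Bool.false_eq_true]
    · rw [if_neg (by omega), if_neg (by omega), if_neg (by omega)]; simp
    · rw [if_pos (by omega), if_neg (by omega), if_pos (by omega)]; simp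
    · rw [if_pos (by omega), if_pos (by omega), if_neg (by omega)]; simp [h11]
    · rw [if_pos (by omega), if_neg (by omega), if_pos (by omega)]; simp
    · rw [if_neg (by omega), if_neg (by omega), if_neg (by omega)]; simp
    · rw [if_neg (by omega), if_pos (by omega), if_pos (by omega)]; simp
    · rw [if_pos (by omega), if_pos (by omega), if_neg (by omega)]; simp [h11]
    · rw [if_neg (by omega), if_pos (by omega), if_pos (by omega)]; simp
  · simp [h]

theorem invc_symm {n : ℕ} (σ : Equiv.Perm (Fin n)) : invc σ.symm = invc σ := by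
  unfold invc
  refine card_nbij' (fun p => (σ.symm p.2, σ.symm p.1)) (fun p => (σ p.2, σ p.1)) ?_ ?_ ?_ ?_
  · intro p hp
    simp only [coe_filter, mem_univ, true_and, Set.mem_ofPred_eq] at hp ⊢
    simpa using ⟨hp.2, hp.1⟩
  · intro p hp
    simp only [coe_filter, mem_univ, true_and, Set.mem_ofPred_eq] at hp ⊢
    simpa using ⟨hp.2, hp.1⟩
  · intro p _; simp
  · intro p _; simp

theorem inv_inv {n : ℕ} (w : SP n) : inv (inv w) = w := by
  unfold inv
  ext i <;> simp

theorem mem_DD {n r : ℕ} {w : SP n} : w ∈ DD n r ↔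
    Even (univ.filter fun i => w.2 i = true).card ∧ lenD w % 2 = r := by
  simp [DD]

theorem inv_mem {n r : ℕ} {w : SP n} (h : w ∈ DD n r) : inv w ∈ DD n r := by
  rw [mem_DD] at h ⊢
  constructor
  · have : (univ.filter fun i => (inv w).2 i = true).card =
        (univ.filter fun i => w.2 i = true).card := by
      refine card_nbij' (fun i => w.1.symm i) (fun i => w.1 i) ?_ ?_ ?_ ?_
      · intro p hp
        simpa [inv] using hp
      · intro p hp
        simpa [inv] using hp
      · intro p _; simp
      · intro p _; simp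
    rw [this]; exact h.1
  · rw [lenD_mod]
    have : (inv w).1 = w.1.symm := rfl
    rw [this, invc_symm, ← lenD_mod]; exact h.2

/-! ### The line notation -/

theorem val_abs {n : ℕ} (w : SP n) (i : Fin n) : (val w i).natAbs = (w.1 i : ℕ) + 1 := by
  unfold val; split_ifs <;> omega

theorem line_succ {n : ℕ} (w : SP n) (i : ℕ) (h : i < n) : line w (i + 1) = val w ⟨i, h⟩ := by
  unfold line pos
  rw [if_neg (by omega), dif_pos (by omega)]
  rfl

theorem line_zero {n : ℕ} (w : SP n) (h : 1 < n) : line w 0 = -val w ⟨1, h⟩ := by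
  unfold line pos
  rw [if_pos rfl, dif_pos (by omega)]

/-- the other position of the comparison `i` -/
def oth (i : ℕ) : ℕ := if i = 0 then 1 else i - 1

theorem line_oth {n : ℕ} (w : SP n) (i : ℕ) (h : i < n) (hn : 2 ≤ n) :
    line w i = (if i = 0 then -1 else 1) * val w ⟨oth i, by unfold oth; split_ifs <;> omega⟩ := by
  rcases Nat.eq_zero_or_pos i with rfl | hi
  · rw [line_zero w (by omega)]; simp [oth]
  · obtain ⟨k, rfl⟩ : ∃ k, i = k + 1 := ⟨i - 1, by omega⟩
    rw [line_succ w k (by omega)]; simp [oth]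

theorem line_ne {n : ℕ} (w : SP n) (i : ℕ) (h : i < n) (hn : 2 ≤ n) :
    line w (i + 1) ≠ line w i := by
  intro e
  have ho : oth i < n := by unfold oth; split_ifs <;> omega
  have h1 : (line w (i + 1)).natAbs = (w.1 ⟨i, h⟩ : ℕ) + 1 := by
    rw [line_succ w i h, val_abs]
  have h2 : (line w i).natAbs = (w.1 ⟨oth i, ho⟩ : ℕ) + 1 := by
    rw [line_oth w i h hn, ← val_abs]
    split_ifs <;> simp
  have h3 : w.1 ⟨i, h⟩ = w.1 ⟨oth i, ho⟩ := by
    apply Fin.ext
    rw [e, h2] at h1
    omega
  have h4 := w.1.injective h3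
  rw [Fin.mk.injEq] at h4
  unfold oth at h4
  split_ifs at h4 <;> omega

theorem des_le {n : ℕ} (w : SP n) : des w ≤ n := by
  unfold des
  exact (card_filter_le _ _).trans (by simp)

theorem des_congr {n : ℕ} (hn : 2 ≤ n) (w v : SP n) (h1 : v.1 = w.1)
    (h2 : ∀ i, (w.1 i : ℕ) ≠ 0 → v.2 i = w.2 i) : des v = des w := by
  unfold des
  congr 1
  apply filter_congr
  intro i hi
  rw [mem_range] at hi
  have ho : oth i < n := by unfold oth; split_ifs <;> omega
  rw [line_succ w i hi, line_succ v i hi, line_oth w i hi hn, line_oth v i hi hn]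
  have hne : (w.1 ⟨i, hi⟩ : ℕ) ≠ (w.1 ⟨oth i, ho⟩ : ℕ) := by
    intro e
    have h4 := w.1.injective (Fin.ext e)
    rw [Fin.mk.injEq] at h4
    unfold oth at h4
    split_ifs at h4 <;> omega
  have ha := val_abs w ⟨i, hi⟩
  have hb := val_abs w ⟨oth i, ho⟩
  have ha' := val_abs v ⟨i, hi⟩
  have hb' := val_abs v ⟨oth i, ho⟩
  rw [h1] at ha' hb'
  have hc : (w.1 ⟨i, hi⟩ : ℕ) ≠ 0 → val v ⟨i, hi⟩ = val w ⟨i, hi⟩ := by
    intro h
    unfold val
    rw [h1, h2 _ h]
  have hd : (w.1 ⟨oth i, ho⟩ : ℕ) ≠ 0 → val v ⟨oth i, ho⟩ = val w ⟨oth i, ho⟩ := by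
    intro h
    unfold val
    rw [h1, h2 _ h]
  split_ifs <;> omega

/-- all signs reversed -/
def negAll {n : ℕ} (w : SP n) : SP n := (w.1, fun i => !w.2 i)

/-- the sign of the first entry reversed -/
def hpos {n : ℕ} (w : SP n) : SP n := (w.1, fun i => if (i : ℕ) = 0 then !w.2 i else w.2 i)

theorem val_negAll {n : ℕ} (w : SP n) (i : Fin n) : val (negAll w) i = -val w i := by
  unfold val negAll
  cases h : w.2 i <;> simp [h]

theorem line_negAll {n : ℕ} (w : SP n) (i : ℕ) : line (negAll w) i = -line w i := by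
  unfold line pos
  split_ifs <;> simp [val_negAll]

theorem des_negAll {n : ℕ} (hn : 2 ≤ n) (w : SP n) : des (negAll w) = n - des w := by
  have h1 : des (negAll w) =
      ((range n).filter fun i => ¬ line w (i + 1) < line w i).card := by
    unfold des
    congr 1
    apply filter_congr
    intro i hi
    rw [mem_range] at hi
    have := line_ne w i hi hn
    rw [line_negAll, line_negAll]
    omega
  have h2 := card_filter_add_card_filter_not (s := range n) (fun i => line w (i + 1) < line w i)
  rw [card_range] at h2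
  rw [h1]
  unfold des
  omega

theorem inv_negAll {n : ℕ} (w : SP n) : inv (negAll w) = negAll (inv w) := rfl

theorem des_eq {m : ℕ} (w : SP (m + 2)) : des w =
    (∑ i ∈ range m, if line w (i + 3) < line w (i + 2) then 1 else 0) +
      (if line w 2 < line w 1 then 1 else 0) + (if line w 1 < line w 0 then 1 else 0) := by
  unfold des
  rw [card_filter, sum_range_succ', sum_range_succ']

theorem val_hpos_zero {m : ℕ} (w : SP (m + 2)) (h : 0 < m + 2) :
    val (hpos w) ⟨0, h⟩ = -val w ⟨0, h⟩ := by
  have h0 : (⟨0, h⟩ : Fin (m + 2)) = 0 := rfl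
  rw [h0]
  unfold val hpos
  cases h : w.2 0 <;> simp [h]

theorem val_hpos_succ {m : ℕ} (w : SP (m + 2)) (i : ℕ) (h : i + 1 < m + 2) :
    val (hpos w) ⟨i + 1, h⟩ = val w ⟨i + 1, h⟩ := by
  unfold val hpos
  simp

theorem des_hpos {m : ℕ} (w : SP (m + 2)) : des (hpos w) = des w := by
  rw [des_eq, des_eq]
  have h0 : line (hpos w) 0 = line w 0 := by
    rw [line_zero _ (by omega), line_zero _ (by omega), val_hpos_succ]
  have h1 : line (hpos w) 1 = -line w 1 := by
    rw [line_succ _ 0 (by omega), line_succ _ 0 (by omega), val_hpos_zero]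
  have h2 : ∀ i < m + 1, line (hpos w) (i + 2) = line w (i + 2) := by
    intro i hi
    rw [line_succ _ (i + 1) (by omega), line_succ _ (i + 1) (by omega), val_hpos_succ]
  have h3 : line w 0 = -line w 2 := by
    rw [line_zero _ (by omega), line_succ _ 1 (by omega)]
  have h4 : (∑ i ∈ range m, if line (hpos w) (i + 3) < line (hpos w) (i + 2) then 1 else 0) =
      ∑ i ∈ range m, if line w (i + 3) < line w (i + 2) then 1 else 0 := by
    refine sum_congr rfl fun i hi => ?_
    rw [mem_range] at hi
    rw [h2 i (by omega), h2 (i + 1) (by omega)]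
  rw [h4, h0, h1, h2 0 (by omega), h3]
  have e1 : (line w (0 + 2) < -line w 1) ↔ (line w 1 < -line w 2) := by
    simp only [Nat.zero_add]; omega
  have e2 : (-line w 1 < -line w 2) ↔ (line w 2 < line w 1) := by omega
  simp only [e1, e2]
  omega

theorem ides_hpos {m : ℕ} (w : SP (m + 2)) : ides (hpos w) = ides w := by
  unfold ides
  apply des_congr (by omega)
  · rfl
  · intro i hi
    have : w.1.symm i ≠ 0 := by
      intro e
      apply hi
      have : (inv w).1 i = w.1.symm i := rfl
      rw [this, e]; rfl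
    simp [inv, hpos, this]

/-- the symmetry which complements both statistics -/
def phi {n : ℕ} (w : SP n) : SP n := if Even n then negAll w else hpos (negAll w)

theorem phi_phi {n : ℕ} (w : SP n) : phi (phi w) = w := by
  unfold phi
  split_ifs
  · unfold negAll
    ext i <;> simp
  · unfold negAll hpos
    ext i
    · simp
    · by_cases h : (i : ℕ) = 0 <;> simp [h]

theorem des_phi {m : ℕ} (w : SP (m + 2)) : des (phi w) = (m + 2) - des w := by
  unfold phi
  split_ifs
  · exact des_negAll (by omega) w
  · rw [des_hpos, des_negAll (by omega)]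

theorem ides_phi {m : ℕ} (w : SP (m + 2)) : ides (phi w) = (m + 2) - ides w := by
  unfold phi
  split_ifs
  · unfold ides
    rw [inv_negAll]
    exact des_negAll (by omega) _
  · rw [ides_hpos]
    unfold ides
    rw [inv_negAll]
    exact des_negAll (by omega) _

theorem phi_mem {m r : ℕ} {w : SP (m + 2)} (h : w ∈ DD (m + 2) r) : phi w ∈ DD (m + 2) r := by
  rw [mem_DD] at h ⊢
  refine ⟨?_, ?_⟩
  · have h1 := h.1
    rw [← ZMod.natCast_eq_zero_iff_even, natCast_card_filter] at h1 ⊢
    have key : ∀ b : Bool, ((if (!b) = true then 1 else 0 : ZMod 2)) =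
        1 + (if b = true then 1 else 0) := by decide
    have key2 : ∀ b : Bool, ((if (!!b) = true then 1 else 0 : ZMod 2)) =
        (if b = true then 1 else 0) := by decide
    unfold phi
    split_ifs with he
    · unfold negAll
      simp only [key]
      rw [sum_add_distrib, h1, add_zero]
      simp only [sum_const, card_univ, Fintype.card_fin, nsmul_eq_mul, mul_one]
      rw [ZMod.natCast_eq_zero_iff_even]; exact he
    · unfold negAll hpos
      simp only
      rw [Fin.sum_univ_succ] at h1 ⊢
      simp only [Fin.val_zero, if_true, Fin.val_succ, Nat.succ_ne_zero, if_false, key,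
        Bool.not_not]
      rw [sum_add_distrib]
      simp only [sum_const, card_univ, Fintype.card_fin, nsmul_eq_mul, mul_one]
      have h2 : (((m + 1 : ℕ) : ZMod 2)) = 0 := by
        rw [ZMod.natCast_eq_zero_iff_even]
        rw [Nat.not_even_iff_odd] at he
        obtain ⟨k, hk⟩ := he
        exact ⟨k, by omega⟩
      rw [h2, zero_add]
      exact h1
  · rw [lenD_mod]
    have : (phi w).1 = w.1 := by
      unfold phi; split_ifs <;> rfl
    rw [this, ← lenD_mod]; exact h.2

end Pool.Agent.TSDG
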