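import Mathlib
import Pool.Agent.Lib.MP_a0e11f_co.Grp

/-!
# The two foldings, the identity, and the three-cycles
-/

set_option autoImplicit false

open Finset

namespace Pool.Agent.TSDG

/-- the identity -/
def one (n : ℕ) : SP n := (1, fun _ => false)

theorem eq_one_of_des {m : ℕ} {w : SP (m + 2)}
    (he : Even (univ.filter fun i => w.2 i = true).card) (h : des w = 0) : w = one (m + 2) := by
  have h1 : ∀ i < m + 2, line w i < line w (i + 1) := by
    intro i hi
    have hne := line_ne w i hi (by omega)
    have : ¬ line w (i + 1) < line w i := by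
      intro hlt
      have hm : i ∈ (range (m + 2)).filter fun i => line w (i + 1) < line w i := by
        simp [hi, hlt]
      unfold des at h
      rw [card_eq_zero] at h
      rw [h] at hm
      exact absurd hm (notMem_empty _)
    omega
  have h0 := h1 0 (by omega)
  have h01 := h1 1 (by omega)
  rw [line_zero w (by omega), line_succ w 0 (by omega)] at h0
  rw [line_succ w 0 (by omega), line_succ w 1 (by omega)] at h01
  have h2 : ∀ k (hk : k + 1 < m + 2), 0 < val w ⟨k + 1, hk⟩ := by
    intro k
    induction k with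
    | zero => intro hk; simp only [Nat.zero_add]; omega
    | succ k ih =>
      intro hk
      have h3 := h1 (k + 2) (by omega)
      rw [line_succ w (k + 1) (by omega), line_succ w (k + 2) (by omega)] at h3
      have := ih (by omega)
      simp only [Nat.add_assoc, Nat.reduceAdd] at *
      omega
  have h3 : ∀ k (hk : k + 1 < m + 2), w.2 ⟨k + 1, hk⟩ = false := by
    intro k hk
    have h4 := h2 k hk
    unfold val at h4
    cases hb : w.2 ⟨k + 1, hk⟩
    · rfl
    · rw [hb, if_pos rfl] at h4; omega
  have h4 : w.2 0 = false := by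
    by_contra hb
    have hb' : w.2 0 = true := by simpa using hb
    have h5 : (univ.filter fun i => w.2 i = true) = {0} := by
      ext i
      simp only [mem_filter, mem_univ, true_and, mem_singleton]
      constructor
      · intro hi
        by_contra hne
        obtain ⟨i, hi'⟩ := i
        rcases i with _ | k
        · exact hne rfl
        · rw [h3 k hi'] at hi; exact absurd hi (by simp)
      · rintro rfl; exact hb'
    rw [h5, card_singleton] at he
    exact absurd he (by decide)
  have h5 : ∀ i, w.2 i = false := by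
    rintro ⟨i, hi⟩
    rcases i with _ | k
    · exact h4
    · exact h3 k hi
  have h6 : ∀ i, val w i = ((w.1 i : ℕ) : ℤ) + 1 := by
    intro i; unfold val; rw [if_neg (by simp [h5 i])]
  have h7 : StrictMono w.1 := by
    rw [Fin.strictMono_iff_lt_succ]
    intro i
    have h8 := h1 (i + 1) (by omega)
    rw [line_succ w i (by omega), line_succ w (i + 1) (by omega), h6, h6] at h8
    rw [Fin.lt_def]
    have e1 : (Fin.castSucc i : Fin (m + 2)) = ⟨i, by omega⟩ := rfl
    have e2 : (Fin.succ i : Fin (m + 2)) = ⟨i + 1, by omega⟩ := rfl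
    rw [e1, e2]; omega
  have h8 : w.1 = 1 := by
    have h9 := StrictMono.eq_id h7
    ext i; simp [h9]
  refine Prod.ext h8 (funext h5)

theorem val_one {n : ℕ} (i : Fin n) : val (one n) i = ((i : ℕ) : ℤ) + 1 := by
  simp [val, one]

theorem des_one {n : ℕ} (hn : 2 ≤ n) : des (one n) = 0 := by
  unfold des
  rw [card_eq_zero, filter_eq_empty_iff]
  intro i hi
  rw [mem_range] at hi
  rw [line_succ _ i hi, line_oth _ i hi hn, val_one, val_one]
  unfold oth
  simp only
  split_ifs <;> omega

theorem inv_one {n : ℕ} : inv (one n) = one n := rfl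

theorem ides_one {n : ℕ} (hn : 2 ≤ n) : ides (one n) = 0 := by
  unfold ides; rw [inv_one, des_one hn]

theorem lenD_one {n : ℕ} : lenD (one n) = 0 := by
  unfold lenD
  rw [Nat.add_eq_zero_iff, card_eq_zero, card_eq_zero, filter_eq_empty_iff, filter_eq_empty_iff]
  constructor
  · intro p _ h
    rw [val_one, val_one, Fin.lt_def] at h
    omega
  · intro p _ h
    rw [val_one, val_one, Fin.lt_def] at h
    omega

theorem one_mem {n r : ℕ} : one n ∈ DD n r ↔ r = 0 := by
  rw [mem_DD, lenD_one]
  simp [one, eq_comm]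

theorem eq_one_of_ides {m r : ℕ} {w : SP (m + 2)} (hw : w ∈ DD (m + 2) r) (h : ides w = 0) :
    w = one (m + 2) := by
  have h1 := inv_mem hw
  rw [mem_DD] at h1
  have h2 := eq_one_of_des h1.1 h
  have h3 := inv_inv w
  rw [h2, inv_one] at h3
  exact h3.symm

/-! ### Folding the sum -/

section

variable {R : Type} [CommRing R]

theorem fold1 {α : Type} [DecidableEq α] (D : Finset α) (ι : α → α) (p q : α → ℕ)
    (hι : ∀ w ∈ D, ι w ∈ D) (hιι : ∀ w, ι (ι w) = w)
    (hp : ∀ w, p (ι w) = q w) (hq : ∀ w, q (ι w) = p w) (s t : R) :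
    ∑ w ∈ D, t ^ q w * s ^ p w =
      ∑ w ∈ D.filter (fun w => p w ≤ q w), (s * t) ^ p w * AA (q w - p w) s t := by
  rw [← sum_filter_add_sum_filter_not D (fun w => p w ≤ q w)]
  have h1 : ∑ w ∈ D.filter (fun w => ¬ p w ≤ q w), t ^ q w * s ^ p w =
      ∑ w ∈ (D.filter (fun w => p w ≤ q w)).filter (fun w => p w < q w), t ^ p w * s ^ q w := by
    refine sum_nbij' ι ι ?_ ?_ ?_ ?_ ?_
    · intro w hw
      simp only [mem_filter] at hw ⊢
      rw [hp, hq]
      exact ⟨⟨hι w hw.1, by omega⟩, by omega⟩
    · intro w hw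
      simp only [mem_filter] at hw ⊢
      rw [hp, hq]
      exact ⟨hι w hw.1.1, by omega⟩
    · intro w _; exact hιι w
    · intro w _; exact hιι w
    · intro w _; rw [hp, hq]
  rw [h1, sum_filter (fun w => p w < q w), ← sum_add_distrib]
  refine sum_congr rfl fun w hw => ?_
  rw [mem_filter] at hw
  obtain ⟨d, hd⟩ : ∃ d, q w = p w + d := ⟨q w - p w, by omega⟩
  rw [hd, Nat.add_sub_cancel_left]
  unfold AA
  rcases Nat.eq_zero_or_pos d with rfl | hd0
  · simp only [add_zero, lt_irrefl, if_false, if_true, mul_one]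
    rw [mul_pow]; ring
  · rw [if_pos (by omega), if_neg (by omega), mul_pow, pow_add, pow_add]; ring

theorem fold2 {α : Type} [DecidableEq α] (D : Finset α) (ι φ : α → α) (p q : α → ℕ) (n : ℕ)
    (hι : ∀ w ∈ D, ι w ∈ D) (hφ : ∀ w ∈ D, φ w ∈ D)
    (hιι : ∀ w, ι (ι w) = w) (hφφ : ∀ w, φ (φ w) = w)
    (hp : ∀ w, p (ι w) = q w) (hq : ∀ w, q (ι w) = p w)
    (hp' : ∀ w, p (φ w) = n - p w) (hq' : ∀ w, q (φ w) = n - q w)
    (hpn : ∀ w, p w ≤ n) (hqn : ∀ w, q w ≤ n) (s t : R) :
    ∑ w ∈ D, t ^ q w * s ^ p w =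
      ∑ w ∈ D.filter (fun w => p w ≤ q w ∧ p w + q w ≤ n),
        (s * t) ^ p w * AA (q w - p w) s t * AA (n - p w - q w) 1 (s * t) := by
  rw [fold1 D ι p q hι hιι hp hq, ← filter_filter]
  set D' := D.filter (fun w => p w ≤ q w) with hD'
  rw [← sum_filter_add_sum_filter_not D' (fun w => p w + q w ≤ n)]
  have h1 : ∑ w ∈ D'.filter (fun w => ¬ p w + q w ≤ n), (s * t) ^ p w * AA (q w - p w) s t =
      ∑ w ∈ (D'.filter (fun w => p w + q w ≤ n)).filter (fun w => p w + q w < n),
        (s * t) ^ (n - q w) * AA (q w - p w) s t := by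
    refine sum_nbij' (fun w => φ (ι w)) (fun w => ι (φ w)) ?_ ?_ ?_ ?_ ?_
    · intro w hw
      simp only [hD', mem_filter] at hw ⊢
      rw [hp', hq', hp, hq]
      have := hpn w
      have := hqn w
      exact ⟨⟨⟨hφ _ (hι w hw.1.1), by omega⟩, by omega⟩, by omega⟩
    · intro w hw
      simp only [hD', mem_filter] at hw ⊢
      rw [hp, hq, hp', hq']
      have := hpn w
      have := hqn w
      exact ⟨⟨hι _ (hφ w hw.1.1.1), by omega⟩, by omega⟩
    · intro w _; simp only [hφφ, hιι]
    · intro w _; simp only [hφφ, hιι]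
    · intro w hw
      simp only [hD', mem_filter] at hw
      have := hpn w
      have := hqn w
      rw [hp', hq', hp, hq]
      have e1 : n - (n - p w) = p w := by omega
      have e2 : n - p w - (n - q w) = q w - p w := by omega
      rw [e1, e2]
  rw [h1, sum_filter (fun w => p w + q w < n), ← sum_add_distrib]
  refine sum_congr rfl fun w hw => ?_
  simp only [hD', mem_filter] at hw
  obtain ⟨d, hd⟩ : ∃ d, n = p w + q w + d := ⟨n - (p w + q w), by omega⟩
  have e1 : n - p w - q w = d := by omega
  have e2 : n - q w = p w + d := by omega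
  rw [e1, e2]
  have e3 : (p w + q w < n) ↔ 0 < d := by omega
  simp only [e3]
  rcases Nat.eq_zero_or_pos d with rfl | hd0
  · simp [AA]
  · rw [if_pos hd0]
    have e4 : AA d 1 (s * t) = 1 + (s * t) ^ d := by
      unfold AA; rw [if_neg (by omega), one_pow]
    rw [e4, pow_add]; ring

/-- the generating polynomial of the elements with length parity `r` -/
def TSD (n r : ℕ) (s t : R) : R := ∑ w ∈ DD n r, t ^ des w * s ^ ides w

theorem comb_TSD {n : ℕ} (hn : 2 ≤ n) (r : ℕ) (s t : R) :
    Comb n s t (fun j => if r = 0 ∧ j = 0 then 1 else 0)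
      (fun j => (((DD n r).filter fun w => (ides w ≤ des w ∧ ides w + des w ≤ n) ∧
        (ides w = 1 ∧ des w = j + 1)).card : ℤ) -
        (if r = 0 ∧ j = 0 then (n : ℤ) else 0)) (TSD n r s t) := by
  obtain ⟨m, rfl⟩ : ∃ m, n = m + 2 := ⟨n - 2, by omega⟩
  have h0 := fold2 (DD (m + 2) r) inv phi ides des (m + 2) (fun w hw => inv_mem hw)
    (fun w hw => phi_mem hw) inv_inv phi_phi (fun w => by unfold ides; rw [inv_inv])
    (fun w => rfl) ides_phi des_phi (fun w => des_le _) des_le s t
  have h1 : ∀ w ∈ (DD (m + 2) r).filter (fun w => ides w ≤ des w ∧ ides w + des w ≤ m + 2),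
      Comb (m + 2) s t (fun j => if w = one (m + 2) ∧ j = 0 then 1 else 0)
        (fun j => (if ides w = 1 ∧ des w = j + 1 then 1 else 0) -
          (if w = one (m + 2) ∧ j = 0 then (((m + 2 : ℕ) : ℤ)) else 0))
        ((s * t) ^ ides w * AA (des w - ides w) s t * AA (m + 2 - ides w - des w) 1 (s * t)) := by
    intro w hw
    rw [mem_filter] at hw
    by_cases hw1 : w = one (m + 2)
    · subst hw1
      rw [des_one (by omega), ides_one (by omega)]
      refine comb_congr (comb_orbit0 (n := m + 2) (s := s) (t := t) (by omega)) ?_ ?_ ?_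
      · intro j; simp
      · intro j
        by_cases hj : j = 0 <;> simp [hj]
      · simp [AA]
    · have hi : 1 ≤ ides w := by
        by_contra hc
        exact hw1 (eq_one_of_ides hw.1 (by omega))
      refine comb_congr (comb_orbit hw.2.1 hw.2.2 hi) ?_ ?_ rfl
      · intro j; simp [hw1]
      · intro j; simp [hw1]
  have h2 := comb_sum _ h1
  have hone : one (m + 2) ∈ (DD (m + 2) r).filter
      (fun w => ides w ≤ des w ∧ ides w + des w ≤ m + 2) ↔ r = 0 := by
    rw [mem_filter, one_mem, des_one (by omega), ides_one (by omega)]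
    simp
  refine comb_congr h2 ?_ ?_ h0.symm
  · intro j
    by_cases hj : j = 0
    · simp only [hj, and_true]
      rw [sum_ite_eq']
      simp only [hone]
    · simp [hj]
  · intro j
    rw [sum_sub_distrib]
    congr 1
    · rw [← sum_filter, filter_filter]
      simp
    · by_cases hj : j = 0
      · simp only [hj, and_true]
        rw [sum_ite_eq']
        simp only [hone]
      · simp [hj]

end

end Pool.Agent.TSDG
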