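import Mathlib
import Pool.Agent.Lib.MP_a0e11f_co.Main

/-!
# At least `n` even elements have one descent and one inverse descent
-/

set_option autoImplicit false

open Finset

namespace Pool.Agent.TSDG

/-- the three-cycle with the one-line notation `… a+1, a+2, a …` -/
def cyc (n a : ℕ) (h : a + 2 < n) : Equiv.Perm (Fin n) where
  toFun i := ⟨if (i : ℕ) = a then a + 1 else if (i : ℕ) = a + 1 then a + 2 else
    if (i : ℕ) = a + 2 then a else i, by have := i.2; split_ifs <;> omega⟩
  invFun i := ⟨if (i : ℕ) = a then a + 2 else if (i : ℕ) = a + 1 then a else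
    if (i : ℕ) = a + 2 then a + 1 else i, by have := i.2; split_ifs <;> omega⟩
  left_inv i := by
    apply Fin.ext
    simp only
    split_ifs <;> omega
  right_inv i := by
    apply Fin.ext
    simp only
    split_ifs <;> omega

theorem cyc_val (n a : ℕ) (h : a + 2 < n) (i : Fin n) : ((cyc n a h i : Fin n) : ℕ) =
    if (i : ℕ) = a then a + 1 else if (i : ℕ) = a + 1 then a + 2 else
    if (i : ℕ) = a + 2 then a else i := rfl

theorem cyc_symm_val (n a : ℕ) (h : a + 2 < n) (i : Fin n) : (((cyc n a h).symm i : Fin n) : ℕ) =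
    if (i : ℕ) = a then a + 2 else if (i : ℕ) = a + 1 then a else
    if (i : ℕ) = a + 2 then a + 1 else i := rfl

/-- the element without signs -/
def el {n : ℕ} (σ : Equiv.Perm (Fin n)) : SP n := (σ, fun _ => false)

theorem inv_el {n : ℕ} (σ : Equiv.Perm (Fin n)) : inv (el σ) = el σ.symm := rfl

theorem val_el {n : ℕ} (σ : Equiv.Perm (Fin n)) (i : Fin n) : val (el σ) i = ((σ i : ℕ) : ℤ) + 1 := by
  simp [val, el]

theorem des_cyc (n a : ℕ) (h : a + 2 < n) : des (el (cyc n a h)) = 1 := by
  unfold des
  rw [card_eq_one]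
  refine ⟨a + 2, ?_⟩
  ext i
  simp only [mem_filter, mem_range, mem_singleton]
  constructor
  · rintro ⟨hi, hlt⟩
    rw [line_succ _ i hi, line_oth _ i hi (by omega), val_el, val_el, cyc_val, cyc_val] at hlt
    unfold oth at hlt
    simp only at hlt
    split_ifs at hlt <;> omega
  · rintro rfl
    refine ⟨h, ?_⟩
    rw [line_succ _ _ h, line_oth _ _ h (by omega), val_el, val_el, cyc_val, cyc_val]
    unfold oth
    simp only
    split_ifs <;> first | omega | contradiction

theorem des_cyc_symm (n a : ℕ) (h : a + 2 < n) : des (el (cyc n a h).symm) = 1 := by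
  unfold des
  rw [card_eq_one]
  refine ⟨a + 1, ?_⟩
  ext i
  simp only [mem_filter, mem_range, mem_singleton]
  constructor
  · rintro ⟨hi, hlt⟩
    rw [line_succ _ i hi, line_oth _ i hi (by omega), val_el, val_el, cyc_symm_val,
      cyc_symm_val] at hlt
    unfold oth at hlt
    simp only at hlt
    split_ifs at hlt <;> omega
  · rintro rfl
    refine ⟨by omega, ?_⟩
    rw [line_succ _ _ (by omega), line_oth _ _ (by omega) (by omega), val_el, val_el,
      cyc_symm_val, cyc_symm_val]
    unfold oth
    simp only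
    split_ifs <;> first | omega | contradiction

theorem invc_cyc (n a : ℕ) (h : a + 2 < n) : invc (cyc n a h) = 2 := by
  unfold invc
  rw [card_eq_two]
  refine ⟨(⟨a, by omega⟩, ⟨a + 2, by omega⟩), (⟨a + 1, by omega⟩, ⟨a + 2, by omega⟩), ?_, ?_⟩
  · intro e
    rw [Prod.mk.injEq, Fin.mk.injEq] at e
    omega
  · ext ⟨i, j⟩
    simp only [mem_filter, mem_univ, true_and, mem_insert, mem_singleton, Prod.mk.injEq,
      Fin.ext_iff, Fin.lt_def, cyc_val]
    split_ifs <;> omega

theorem cyc_mem (n a : ℕ) (h : a + 2 < n) : el (cyc n a h) ∈ DD n 0 := by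
  rw [mem_DD, lenD_mod]
  constructor
  · simp [el]
  · show invc (cyc n a h) % 2 = 0
    rw [invc_cyc]

theorem cyc_symm_mem (n a : ℕ) (h : a + 2 < n) : el (cyc n a h).symm ∈ DD n 0 := by
  rw [← inv_el]; exact inv_mem (cyc_mem n a h)

theorem count_four (n : ℕ) (hn : 4 ≤ n) :
    n ≤ ((DD n 0).filter fun w => ides w = 1 ∧ des w = 1).card := by
  have h1 : ((univ : Finset (Fin (n - 2) × Bool))).card = 2 * (n - 2) := by
    simp [card_univ, Fintype.card_prod, mul_comm]
  have h2 : (univ : Finset (Fin (n - 2) × Bool)).card ≤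
      ((DD n 0).filter fun w => ides w = 1 ∧ des w = 1).card := by
    refine card_le_card_of_injOn (fun x => if x.2 then el (cyc n x.1 (by omega)) else
      el (cyc n x.1 (by omega)).symm) ?_ ?_
    · rintro ⟨a, b⟩ _
      simp only [coe_filter, Set.mem_ofPred_eq]
      cases b
      · simp only [Bool.false_eq_true, if_false]
        refine ⟨cyc_symm_mem _ _ (by omega), ?_, des_cyc_symm _ _ (by omega)⟩
        unfold ides; rw [inv_el]; exact des_cyc _ _ (by omega)
      · simp only [if_true]
        refine ⟨cyc_mem _ _ (by omega), ?_, des_cyc _ _ (by omega)⟩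
        unfold ides; rw [inv_el]; exact des_cyc_symm _ _ (by omega)
    · rintro ⟨a, b⟩ _ ⟨c, d⟩ _ hcd
      simp only at hcd
      have ha := a.2
      have hc := c.2
      have key : (a : ℕ) = c ∧ b = d := by
        have hA := congrArg (fun w : SP n => ((w.1 ⟨a, by omega⟩ : Fin n) : ℕ)) hcd
        have hC := congrArg (fun w : SP n => ((w.1 ⟨c, by omega⟩ : Fin n) : ℕ)) hcd
        cases b <;> cases d <;>
          simp only [Bool.false_eq_true, if_false, if_true, el, cyc_val, cyc_symm_val] at hA hC <;>
          refine ⟨?_, ?_⟩ <;> first | rfl | (split_ifs at hA hC <;> omega)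
      obtain ⟨h3, h4⟩ := key
      exact Prod.ext (Fin.ext h3) h4
  omega

theorem count_three : 3 ≤ ((DD 3 0).filter fun w => ides w = 1 ∧ des w = 1).card := by
  decide +kernel

theorem count (n : ℕ) (hn : 3 ≤ n) :
    n ≤ ((DD n 0).filter fun w => ides w = 1 ∧ des w = 1).card := by
  rcases Nat.lt_or_ge n 4 with h | h
  · obtain rfl : n = 3 := by omega
    exact count_three
  · exact count_four n h

end Pool.Agent.TSDG
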