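import Mathlib
import Pool.Agent.Lib.MP_a0e11f_co.Cyc

/-!
# Uniqueness of the two-sided gamma expansion
-/

set_option autoImplicit false

open Finset

namespace Pool.Agent.TSDG

/-- the expansion of degree `n` with the coefficients `c`:
`∑_{2i+j ≤ n} c_{ij} (st)^i (s+t)^j (1+st)^(n-2i-j)` -/
noncomputable def gexp {R : Type} [CommRing R] (n : ℕ) (c : ℕ → ℕ → R) (s t : R) : R :=
  ∑ i ∈ range (n + 1), ∑ j ∈ range (n + 1),
    if 2 * i + j ≤ n then c i j * ((s * t) ^ i * (s + t) ^ j * (1 + s * t) ^ (n - 2 * i - j)) else 0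

theorem gexp_hom {R S : Type} [CommRing R] [CommRing S] (f : R →+* S) (n : ℕ)
    (c : ℕ → ℕ → R) (s t : R) :
    f (gexp n c s t) = gexp n (fun i j => f (c i j)) (f s) (f t) := by
  unfold gexp
  rw [map_sum]
  refine sum_congr rfl fun i _ => ?_
  rw [map_sum]
  refine sum_congr rfl fun j _ => ?_
  split_ifs
  · simp
  · simp

theorem gexp_sub {R : Type} [CommRing R] (n : ℕ) (c d : ℕ → ℕ → R) (s t : R) :
    gexp n (fun i j => c i j - d i j) s t = gexp n c s t - gexp n d s t := by
  unfold gexp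
  rw [← sum_sub_distrib]
  refine sum_congr rfl fun i _ => ?_
  rw [← sum_sub_distrib]
  refine sum_congr rfl fun j _ => ?_
  split_ifs
  · ring
  · simp

open Polynomial in
/-- the coefficient polynomial -/
noncomputable def Q (n : ℕ) (c : ℕ → ℕ → ℂ) (j : ℕ) : ℂ[X] :=
  ∑ i ∈ range (n + 1), if 2 * i + j ≤ n then
    Polynomial.C (c i j) * (X ^ i * (1 + X) ^ (n - 2 * i - j)) else 0

open Polynomial in
theorem Q_coeff {n : ℕ} {c : ℕ → ℕ → ℂ} {j : ℕ} (h : Q n c j = 0) :
    ∀ i, 2 * i + j ≤ n → c i j = 0 := by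
  intro i
  induction i using Nat.strong_induction_on with
  | _ i ih =>
    intro hij
    have h1 := congrArg (fun p => Polynomial.coeff p i) h
    simp only [Q, finsetSum_coeff, coeff_zero] at h1
    rw [sum_eq_single_of_mem i (mem_range.2 (by omega))] at h1
    · rw [if_pos hij, coeff_C_mul, coeff_X_pow_mul', if_pos le_rfl, Nat.sub_self,
        coeff_zero_eq_eval_zero] at h1
      simpa using h1
    · intro b _ hb
      by_cases hbn : 2 * b + j ≤ n
      · rw [if_pos hbn, coeff_C_mul, coeff_X_pow_mul']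
        rcases Nat.lt_or_gt_of_ne hb with h2 | h2
        · rw [ih b h2 hbn]; simp
        · rw [if_neg (by omega)]; simp
      · rw [if_neg hbn]; simp

theorem uniq {n : ℕ} {c : ℕ → ℕ → ℂ} (h : ∀ s t : ℂ, gexp n c s t = 0) :
    ∀ i j, 2 * i + j ≤ n → c i j = 0 := by
  have h1 : ∀ P E : ℂ, ∑ j ∈ range (n + 1), (Q n c j).eval P * E ^ j = 0 := by
    intro P E
    obtain ⟨d, hd⟩ := IsAlgClosed.exists_pow_nat_eq (E ^ 2 - 4 * P) (n := 2) (by norm_num)
    have e1 : (E + d) / 2 * ((E - d) / 2) = P := by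
      have : (E + d) / 2 * ((E - d) / 2) = (E ^ 2 - d ^ 2) / 4 := by ring
      rw [this, hd]; ring
    have e2 : (E + d) / 2 + (E - d) / 2 = E := by ring
    have h2 := h ((E + d) / 2) ((E - d) / 2)
    unfold gexp at h2
    rw [e1, e2, sum_comm] at h2
    rw [← h2]
    refine sum_congr rfl fun j _ => ?_
    unfold Q
    rw [Polynomial.eval_finsetSum, sum_mul]
    refine sum_congr rfl fun i _ => ?_
    split_ifs
    · simp; ring
    · simp
  have h2 : ∀ P : ℂ, ∀ j ≤ n, (Q n c j).eval P = 0 := by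
    intro P j hj
    have h3 : (∑ j ∈ range (n + 1), Polynomial.C ((Q n c j).eval P) * Polynomial.X ^ j :
        Polynomial ℂ) = 0 := by
      apply Polynomial.funext
      intro E
      rw [Polynomial.eval_finsetSum]
      simpa using h1 P E
    have h4 := congrArg (fun p => Polynomial.coeff p j) h3
    simp only [Polynomial.finsetSum_coeff, Polynomial.coeff_C_mul_X_pow,
      Polynomial.coeff_zero] at h4
    rw [sum_ite_eq] at h4
    rwa [if_pos (mem_range.2 (by omega))] at h4
  intro i j hij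
  apply Q_coeff _ i hij
  apply Polynomial.funext
  intro P
  rw [h2 P j (by omega)]; simp

end Pool.Agent.TSDG
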