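import Mathlib
import Pool.Agent.Lib.MP_a0e11f_co.Uniq

/-!
# Counting by the two statistics
-/

set_option autoImplicit false

open Finset

namespace Pool.Agent.TSDG

/-- number of elements with `k` inverse descents and `l` descents -/
def NN (n r k l : ℕ) : ℕ := ((DD n r).filter fun w => ides w = k ∧ des w = l).card

end Pool.Agent.TSDG
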