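import Mathlib

set_option autoImplicit false

open Finset

namespace Pool.Agent.TSDG

theorem ev2_bern {A D B m : ℕ} (h : A + D = B) (hB : 0 < B) (h2 : 2 * (m * D) ≤ B) :
    B ^ m ≤ 2 * A ^ m := by
  have hBr : (0 : ℝ) < B := by exact_mod_cast hB
  have hD : (D : ℝ) ≤ B := by exact_mod_cast (by omega : D ≤ B)
  have h1 := one_add_mul_le_pow (a := -((D : ℝ) / B)) (by
    have : (D : ℝ) / B ≤ 1 := (div_le_one hBr).2 hD
    linarith) m
  have h3 : (1 : ℝ) / 2 ≤ 1 + m * -((D : ℝ) / B) := by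
    have : (m : ℝ) * ((D : ℝ) / B) ≤ 1 / 2 := by
      rw [← mul_div_assoc, div_le_iff₀ hBr]
      have : (2 : ℝ) * (m * D) ≤ B := by exact_mod_cast h2
      linarith
    linarith
  have h4 : (1 : ℝ) + -((D : ℝ) / B) = A / B := by
    have : (A : ℝ) + D = B := by exact_mod_cast h
    field_simp
    linarith
  rw [h4, div_pow] at h1
  have h5 : (1 : ℝ) / 2 ≤ (A : ℝ) ^ m / (B : ℝ) ^ m := h3.trans h1
  rw [le_div_iff₀ (by positivity)] at h5
  have h6 : ((B ^ m : ℕ) : ℝ) ≤ ((2 * A ^ m : ℕ) : ℝ) := by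
    push_cast
    linarith
  exact_mod_cast h6

theorem ev2_fact (q g : ℕ) : (q + g).factorial ≤ q.factorial * (q + g) ^ g := by
  induction g with
  | zero => simp
  | succ g ih =>
    rw [← add_assoc, Nat.factorial_succ, pow_succ]
    calc (q + g + 1) * (q + g).factorial ≤ (q + g + 1) * (q.factorial * (q + g) ^ g) :=
          Nat.mul_le_mul_left _ ih
      _ ≤ (q + g + 1) * (q.factorial * (q + g + 1) ^ g) :=
          Nat.mul_le_mul_left _ (Nat.mul_le_mul_left _ (Nat.pow_le_pow_left (by omega) _))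
      _ = _ := by ring

/-- comparison of two binomial coefficients -/
theorem ev2_choose {n q g : ℕ} (hn : q + g + 5 ≤ n)
    (h : 2 * (q * (2 * q + g + 4)) ≤ n) :
    (n + q).choose q * (n - 4 - (q + g)) ^ g ≤ 2 * (q + g) ^ g * (n - 5).choose (q + g) := by
  set A := n - 4 - (q + g) with hA
  have h1 : A ^ (q + g) ≤ (q + g).factorial * (n - 5).choose (q + g) := by
    rw [← Nat.descFactorial_eq_factorial_mul_choose]
    have := Nat.pow_sub_le_descFactorial (n - 5) (q + g)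
    have e : n - 5 + 1 - (q + g) = A := by omega
    rwa [e] at this
  have h2 : q.factorial * (n + q).choose q ≤ (n + q) ^ q := by
    rw [← Nat.descFactorial_eq_factorial_mul_choose]
    exact Nat.descFactorial_le_pow _ _
  have h3 := ev2_fact q g
  have h4 : (n + q) ^ q ≤ 2 * A ^ q :=
    ev2_bern (D := 2 * q + g + 4) (by omega) (by omega) (by omega)
  have hq : 0 < q.factorial := Nat.factorial_pos q
  apply Nat.le_of_mul_le_mul_left _ hq
  calc q.factorial * ((n + q).choose q * A ^ g) = (q.factorial * (n + q).choose q) * A ^ g := by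
        ring
    _ ≤ (2 * A ^ q) * A ^ g := Nat.mul_le_mul_right _ (h2.trans h4)
    _ = 2 * A ^ (q + g) := by rw [pow_add]; ring
    _ ≤ 2 * ((q + g).factorial * (n - 5).choose (q + g)) := Nat.mul_le_mul_left _ h1
    _ ≤ 2 * ((q.factorial * (q + g) ^ g) * (n - 5).choose (q + g)) :=
        Nat.mul_le_mul_left _ (Nat.mul_le_mul_right _ h3)
    _ = _ := by ring

/-- the numerical inequality -/
theorem ev2_num {s a b g n A c1 c2 c3 p : ℕ} (hs : 1 ≤ s) (hab : 1 ≤ a + b)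
    (hg : 2 * a + 4 * b ≤ g + 1) (hn : (4 * s) ^ 8 ≤ n) (hp : p ≤ 2 * s ^ 2) (hA : A + 4 + p = n)
    (h1 : c1 ≤ 2 * s) (h2 : c2 ≤ s) (h3 : c3 ≤ 2 * s) :
    s ^ 2 * (4 * c1 ^ a * (n + 1) ^ b * (c2 * c3)) * (2 * p ^ g) < A ^ g := by
  have hs2 : s ^ 2 ≤ s ^ 8 := Nat.pow_le_pow_right hs (by norm_num)
  have hs1 : 1 ≤ s ^ 8 := Nat.one_le_pow _ _ hs
  have e8 : (4 * s) ^ 8 = 65536 * s ^ 8 := by rw [mul_pow]; norm_num
  rw [e8] at hn
  have hA1 : n + 1 ≤ 2 * A := by omega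
  have hA2 : 2 ^ 15 * s ^ 8 ≤ A := by
    norm_num
    omega
  have hbg : b ≤ g := by omega
  obtain ⟨f, rfl⟩ := Nat.exists_eq_add_of_le hbg
  calc s ^ 2 * (4 * c1 ^ a * (n + 1) ^ b * (c2 * c3)) * (2 * p ^ (b + f))
      ≤ s ^ 2 * (4 * (2 * s) ^ a * (2 * A) ^ b * (s * (2 * s))) * (2 * (2 * s ^ 2) ^ (b + f)) := by
        gcongr
    _ = (2 ^ (4 + a + b + (b + f)) * s ^ (4 + a + 2 * (b + f))) * A ^ b := by
        simp only [mul_pow, pow_add, pow_mul]
        ring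
    _ < (2 ^ (15 * f) * s ^ (8 * f)) * A ^ b := by
        have hApos : 0 < A ^ b := Nat.pow_pos (by omega)
        apply Nat.mul_lt_mul_of_pos_right _ hApos
        apply Nat.mul_lt_mul_of_lt_of_le
        · exact Nat.pow_lt_pow_right (by norm_num) (by omega)
        · exact Nat.pow_le_pow_right hs (by omega)
        · exact Nat.pow_pos (by omega)
    _ = (2 ^ 15 * s ^ 8) ^ f * A ^ b := by rw [mul_pow, ← pow_mul, ← pow_mul]
    _ ≤ A ^ f * A ^ b := Nat.mul_le_mul_right _ (Nat.pow_le_pow_left hA2 f)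
    _ = A ^ (b + f) := by rw [pow_add]; ring

theorem ev2_gap (k a b j : ℕ) (hab : 1 ≤ a + b) :
    ∃ g, 2 * (k + a + b) * (k + a + b + j) + (k + a + b) + (k + a + b + j) - 1 =
      (2 * k * (k + 2 * a + j) + k + (k + 2 * a + j)) + g ∧ 2 * a + 4 * b ≤ g + 1 := by
  refine ⟨4 * k * b + 2 * (a + b) ^ 2 + 2 * (a + b) * j + 2 * b - 1, ?_, ?_⟩
  · have h1 : 1 ≤ (a + b) ^ 2 := Nat.one_le_pow _ _ hab
    have : 2 * (k + a + b) * (k + a + b + j) + (k + a + b) + (k + a + b + j) =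
      (2 * k * (k + 2 * a + j) + k + (k + 2 * a + j)) +
        (4 * k * b + 2 * (a + b) ^ 2 + 2 * (a + b) * j + 2 * b) := by ring
    omega
  · have h1 : (a + b) * 1 ≤ (a + b) * (a + b) := Nat.mul_le_mul_left _ hab
    have h2 : 2 * (a + b) ^ 2 = 2 * ((a + b) * (a + b)) := by ring
    have h3 : 0 ≤ 4 * k * b + 2 * (a + b) * j := Nat.zero_le _
    omega

/-- one term of the sum -/
theorem ev2_term {NN : ℕ → ℕ → ℕ → ℕ → ℕ}
    (hU : ∀ n r k l : ℕ, 2 ≤ n → NN n r k l ≤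
      (k + 2) * (l + 2) * (n + (2 * k * l + k + l)).choose (2 * k * l + k + l))
    (n i j r a b : ℕ) (hn : (4 * (i + j + 1)) ^ 8 ≤ n) (h1 : 1 ≤ a + b) (h2 : a + b ≤ i) :
    (i + j + 1) ^ 2 *
      (4 * (j + 2 * a + 1) ^ a * (n + 1) ^ b * NN n r (i - a - b) (i + j + a - b)) <
      (n - 5).choose (2 * i * (i + j) + i + (i + j) - 1) := by
  obtain ⟨k, rfl⟩ : ∃ k, i = k + a + b := ⟨i - a - b, by omega⟩
  have e1 : k + a + b - a - b = k := by omega
  have e2 : k + a + b + j + a - b = k + 2 * a + j := by omega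
  rw [e1, e2]
  obtain ⟨g, hg, hg2⟩ := ev2_gap k a b j h1
  set s := k + a + b + j + 1 with hs
  set q := 2 * k * (k + 2 * a + j) + k + (k + 2 * a + j) with hq
  have hs1 : 1 ≤ s := by omega
  have hp : q + g ≤ 2 * s ^ 2 := by
    rw [← hg]
    have : 2 * (k + a + b) * (k + a + b + j) + (k + a + b) + (k + a + b + j) ≤ 2 * s ^ 2 := by
      rw [hs]; nlinarith [Nat.zero_le (k + a + b), Nat.zero_le j]
    omega
  have hss : s ^ 2 ≤ s ^ 8 := Nat.pow_le_pow_right hs1 (by norm_num)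
  have hss4 : s ^ 4 ≤ s ^ 8 := Nat.pow_le_pow_right hs1 (by norm_num)
  have hs81 : 1 ≤ s ^ 8 := Nat.one_le_pow _ _ hs1
  have e8 : (4 * s) ^ 8 = 65536 * s ^ 8 := by rw [mul_pow]; norm_num
  have hn' := hn
  rw [e8] at hn'
  have hb : 2 * (q * (2 * q + g + 4)) ≤ n := by
    have hs21 : 1 ≤ s ^ 2 := Nat.one_le_pow _ _ hs1
    calc 2 * (q * (2 * q + g + 4)) ≤ 2 * ((2 * s ^ 2) * (8 * s ^ 2)) := by
          apply Nat.mul_le_mul_left
          apply Nat.mul_le_mul <;> omega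
      _ = 32 * s ^ 4 := by ring
      _ ≤ n := by omega
  have hc := ev2_choose (n := n) (q := q) (g := g) (by omega) hb
  have hA : (n - 4 - (q + g)) + 4 + (q + g) = n := by omega
  have hnum := ev2_num (s := s) (a := a) (b := b) (g := g) (n := n) (A := n - 4 - (q + g))
    (c1 := j + 2 * a + 1) (c2 := k + 2) (c3 := k + 2 * a + j + 2) (p := q + g)
    hs1 h1 hg2 hn hp hA (by omega) (by omega) (by omega)
  rw [hg]
  have hCpos : 0 < (n - 5).choose (q + g) := Nat.choose_pos (by omega)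
  set A := n - 4 - (q + g) with hAdef
  have hU' := hU n r k (k + 2 * a + j) (by omega)
  rw [← hq] at hU'
  have hApos : 0 < A ^ g := lt_of_le_of_lt (Nat.zero_le _) hnum
  apply Nat.lt_of_mul_lt_mul_right (a := A ^ g)
  calc s ^ 2 * (4 * (j + 2 * a + 1) ^ a * (n + 1) ^ b * NN n r k (k + 2 * a + j)) * A ^ g
      ≤ s ^ 2 * (4 * (j + 2 * a + 1) ^ a * (n + 1) ^ b *
          ((k + 2) * (k + 2 * a + j + 2) * (n + q).choose q)) * A ^ g := by gcongr
    _ = s ^ 2 * (4 * (j + 2 * a + 1) ^ a * (n + 1) ^ b * ((k + 2) * (k + 2 * a + j + 2))) *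
          ((n + q).choose q * A ^ g) := by ring
    _ ≤ s ^ 2 * (4 * (j + 2 * a + 1) ^ a * (n + 1) ^ b * ((k + 2) * (k + 2 * a + j + 2))) *
          (2 * (q + g) ^ g * (n - 5).choose (q + g)) := Nat.mul_le_mul_left _ hc
    _ = s ^ 2 * (4 * (j + 2 * a + 1) ^ a * (n + 1) ^ b * ((k + 2) * (k + 2 * a + j + 2))) *
          (2 * (q + g) ^ g) * (n - 5).choose (q + g) := by ring
    _ < A ^ g * (n - 5).choose (q + g) := Nat.mul_lt_mul_of_pos_right hnum hCpos
    _ = _ := by ring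

/-- final step of the positivity, polynomial range -/
theorem ev2_final_of {NN : ℕ → ℕ → ℕ → ℕ → ℕ}
    (hU : ∀ n r k l : ℕ, 2 ≤ n → NN n r k l ≤
      (k + 2) * (l + 2) * (n + (2 * k * l + k + l)).choose (2 * k * l + k + l))
    (hL : ∀ i l r n : ℕ, 1 ≤ i → 1 ≤ l → r < 2 → 2 * i * l + i + l + 6 ≤ n →
      (n - 5).choose (2 * i * l + i + l - 1) ≤ NN n r i l)
    (i j r n : ℕ) (hi : 1 ≤ i) (hr : r < 2) (hn : (4 * (i + j + 1)) ^ 8 ≤ n) (γ : ℕ → ℕ → ℤ)
    (hγ : ∀ i j, 2 * i + j ≤ n → (NN n r i (i + j) : ℤ) ≤ γ i j +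
      ∑ a ∈ range (i + 1), ∑ b ∈ range (i + 1), if 1 ≤ a + b ∧ a + b ≤ i then
        (4 * (j + 2 * a + 1) ^ a * (n + 1) ^ b * NN n r (i - a - b) (i + j + a - b) : ℤ) else 0) :
    0 < γ i j := by
  set s := i + j + 1 with hs
  have hs1 : 1 ≤ s := by omega
  have hss : s ^ 2 ≤ s ^ 8 := Nat.pow_le_pow_right hs1 (by norm_num)
  have hs81 : 1 ≤ s ^ 2 := Nat.one_le_pow _ _ hs1
  have hss1 : s ≤ s ^ 2 := by nlinarith
  have e8 : (4 * s) ^ 8 = 65536 * s ^ 8 := by rw [mul_pow]; norm_num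
  have hn' := hn
  rw [e8] at hn'
  have hE : 2 * i * (i + j) + i + (i + j) ≤ 2 * s ^ 2 := by
    rw [hs]; nlinarith [Nat.zero_le i, Nat.zero_le j]
  have h1 := hγ i j (by omega)
  have h2 := hL i (i + j) r n hi (by omega) hr (by omega)
  set C := (n - 5).choose (2 * i * (i + j) + i + (i + j) - 1) with hC
  have hCpos : 0 < C := Nat.choose_pos (by omega)
  set T : ℕ → ℕ → ℕ := fun a b => if 1 ≤ a + b ∧ a + b ≤ i then
    4 * (j + 2 * a + 1) ^ a * (n + 1) ^ b * NN n r (i - a - b) (i + j + a - b) else 0 with hT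
  have hT1 : ∀ a b, s ^ 2 * T a b ≤ C - 1 := by
    intro a b
    simp only [hT]
    split_ifs with h
    · have := ev2_term hU n i j r a b hn h.1 h.2
      rw [← hs, ← hC] at this
      omega
    · simp
  have hsum : s ^ 2 * ∑ a ∈ range (i + 1), ∑ b ∈ range (i + 1), T a b ≤ s ^ 2 * (C - 1) := by
    rw [Finset.mul_sum]
    simp_rw [Finset.mul_sum]
    calc ∑ a ∈ range (i + 1), ∑ b ∈ range (i + 1), s ^ 2 * T a b
        ≤ ∑ a ∈ range (i + 1), ∑ b ∈ range (i + 1), (C - 1) :=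
          Finset.sum_le_sum fun a _ => Finset.sum_le_sum fun b _ => hT1 a b
      _ = (i + 1) * ((i + 1) * (C - 1)) := by simp
      _ = (i + 1) ^ 2 * (C - 1) := by ring
      _ ≤ _ := Nat.mul_le_mul_right _ (Nat.pow_le_pow_left (by omega) 2)
  have hsum' := Nat.le_of_mul_le_mul_left hsum (by omega)
  have hcast : (∑ a ∈ range (i + 1), ∑ b ∈ range (i + 1), if 1 ≤ a + b ∧ a + b ≤ i then
        (4 * (j + 2 * a + 1) ^ a * (n + 1) ^ b * NN n r (i - a - b) (i + j + a - b) : ℤ) else 0) =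
      ((∑ a ∈ range (i + 1), ∑ b ∈ range (i + 1), T a b : ℕ) : ℤ) := by
    rw [Nat.cast_sum]
    refine Finset.sum_congr rfl fun a _ => ?_
    rw [Nat.cast_sum]
    refine Finset.sum_congr rfl fun b _ => ?_
    simp only [hT]
    split_ifs
    · push_cast; ring
    · simp
  rw [hcast] at h1
  have h3 : ((∑ a ∈ range (i + 1), ∑ b ∈ range (i + 1), T a b : ℕ) : ℤ) ≤ ((C - 1 : ℕ) : ℤ) := by
    exact_mod_cast hsum'
  have h4 : (C : ℤ) ≤ (NN n r i (i + j) : ℤ) := by exact_mod_cast h2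
  have h5 : ((C - 1 : ℕ) : ℤ) = (C : ℤ) - 1 := by omega
  linarith

end Pool.Agent.TSDG
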