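import Mathlib
import Pool.Agent.Lib.MP_a0e11f_co.EvDefs

/-!
# Elements built from a matrix of block sizes: descents
-/

set_option autoImplicit false

open Finset

namespace Pool.Agent.TSDG

/-- number of descents up to the position `p` -/
def td {n : ℕ} (w : SP n) (p : ℕ) : ℕ :=
  ((range (p + 1)).filter fun i => line w (i + 1) < line w i).card

theorem td_succ {n : ℕ} (w : SP n) (p : ℕ) :
    td w (p + 1) = td w p + if line w (p + 2) < line w (p + 1) then 1 else 0 := by
  unfold td
  rw [range_add_one (n := p + 1), filter_insert]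
  split_ifs with h
  · rw [card_insert_of_notMem (by simp)]
  · rfl

theorem val_pos_of {n : ℕ} (w : SP n) (i : Fin n) (h : w.2 i = false) :
    val w i = ((w.1 i : ℕ) : ℤ) + 1 := by
  unfold val; rw [h]; simp

theorem val_neg_of {n : ℕ} (w : SP n) (i : Fin n) (h : w.2 i = true) :
    val w i = -(((w.1 i : ℕ) : ℤ) + 1) := by
  unfold val; rw [h]; simp

theorem td_of {n : ℕ} (hn : 2 ≤ n) (w : SP n) (X : ℕ → ℕ) (h0 : X 0 = 0) (h1 : X 1 = 0)
    (hstep : ∀ p, p + 1 < n → X p ≤ X (p + 1) ∧ X (p + 1) ≤ X p + 1)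
    (hs : ∀ p (hp : p < n), w.2 ⟨p, hp⟩ = decide (X p % 2 = 1))
    (he : ∀ p (hp : p + 1 < n), X p = X (p + 1) → X p % 2 = 0 →
      w.1 ⟨p, by omega⟩ < w.1 ⟨p + 1, hp⟩)
    (ho : ∀ p (hp : p + 1 < n), X p = X (p + 1) → X p % 2 = 1 →
      w.1 ⟨p + 1, hp⟩ < w.1 ⟨p, by omega⟩) :
    ∀ p, p < n → td w p = (X p + 1) / 2 := by
  intro p
  induction p with
  | zero =>
    intro _
    have e0 : w.2 ⟨0, by omega⟩ = false := by rw [hs 0 (by omega), h0]; rfl
    have e1 : w.2 ⟨1, by omega⟩ = false := by rw [hs 1 (by omega), h1]; rfl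
    unfold td
    rw [h0]
    have : ¬ line w (0 + 1) < line w 0 := by
      rw [line_succ w 0 (by omega), line_zero w (by omega), val_pos_of _ _ e0, val_pos_of _ _ e1]
      omega
    rw [card_eq_zero, filter_eq_empty_iff]
    intro i hi
    have : i = 0 := by simpa using hi
    subst this
    assumption
  | succ p ih =>
    intro hp
    rw [td_succ, ih (by omega), line_succ w p (by omega), line_succ w (p + 1) hp]
    obtain ⟨s1, s2⟩ := hstep p hp
    have a1 := hs p (by omega)
    have a2 := hs (p + 1) hp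
    rcases Nat.eq_or_lt_of_le s1 with h | h
    · rcases Nat.mod_two_eq_zero_or_one (X p) with h2 | h2
      · have h3 := he p hp h h2
        rw [h2] at a1
        rw [← h, h2] at a2
        rw [val_pos_of _ _ a1, val_pos_of _ _ a2, if_neg (by rw [Fin.lt_def] at h3; omega), ← h]
        omega
      · have h3 := ho p hp h h2
        rw [h2] at a1
        rw [← h, h2] at a2
        rw [val_neg_of _ _ a1, val_neg_of _ _ a2, if_neg (by rw [Fin.lt_def] at h3; omega), ← h]
        omega
    · have h4 : X (p + 1) = X p + 1 := by omega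
      rcases Nat.mod_two_eq_zero_or_one (X p) with h2 | h2
      · have h3 : X (p + 1) % 2 = 1 := by omega
        rw [h2] at a1
        rw [h3] at a2
        rw [val_pos_of _ _ a1, val_neg_of _ _ a2, if_pos (by omega), h4]
        omega
      · have h3 : X (p + 1) % 2 = 0 := by omega
        rw [h2] at a1
        rw [h3] at a2
        rw [val_neg_of _ _ a1, val_pos_of _ _ a2, if_neg (by omega), h4]
        omega

theorem des_td {n : ℕ} (hn : 1 ≤ n) (w : SP n) : des w = td w (n - 1) := by
  unfold des td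
  rw [Nat.sub_add_cancel hn]

/-- descents of an element which is described by pieces of positions -/
theorem pieces {P : Type} {n L : ℕ} (w : SP n) (e : P ≃ Fin n) (x : P → ℕ)
    (hmono : ∀ a b, e a < e b → x a ≤ x b) (hle : ∀ a, x a ≤ 2 * L)
    (hsurj : ∀ t, t ≤ 2 * L → ∃ a, x a = t) (h00 : ∃ a b, a ≠ b ∧ x a = 0 ∧ x b = 0)
    (hs : ∀ a, w.2 (e a) = decide (x a % 2 = 1))
    (he : ∀ a b, x a = x b → e a < e b → x a % 2 = 0 → w.1 (e a) < w.1 (e b))
    (ho : ∀ a b, x a = x b → e a < e b → x a % 2 = 1 → w.1 (e b) < w.1 (e a)) :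
    (∀ a, td w (e a) = (x a + 1) / 2) ∧ des w = L := by
  obtain ⟨a0, b0, hab, ha0, hb0⟩ := h00
  have hne : e a0 ≠ e b0 := fun h => hab (e.injective h)
  have hn : 2 ≤ n := by
    have h1 := (e a0).2
    have h2 := (e b0).2
    have h3 : ((e a0 : Fin n) : ℕ) ≠ (e b0 : Fin n) := fun h => hne (Fin.ext h)
    omega
  have hmono' : ∀ a b, e a ≤ e b → x a ≤ x b := by
    intro a b h
    rcases lt_or_eq_of_le h with h | h
    · exact hmono a b h
    · rw [e.injective h]
  set X : ℕ → ℕ := fun p => if h : p < n then x (e.symm ⟨p, h⟩) else 0 with hX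
  have hXe : ∀ p (h : p < n), X p = x (e.symm ⟨p, h⟩) := by
    intro p h; simp only [hX]; rw [dif_pos h]
  have hXm : ∀ p q, p ≤ q → q < n → X p ≤ X q := by
    intro p q hpq hq
    rw [hXe p (by omega), hXe q hq]
    apply hmono'
    simp only [Equiv.apply_symm_apply]
    exact hpq
  have hXa : ∀ a, X (e a) = x a := by
    intro a
    rw [hXe _ (e a).2]
    simp
  have h1 : X 1 = 0 := by
    have h3 : ((e a0 : Fin n) : ℕ) ≠ (e b0 : Fin n) := fun h => hne (Fin.ext h)
    rcases Nat.lt_or_gt_of_ne h3 with h | h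
    · have := hXm 1 (e b0) (by omega) (e b0).2
      rw [hXa, hb0] at this
      omega
    · have := hXm 1 (e a0) (by omega) (e a0).2
      rw [hXa, ha0] at this
      omega
  have h0 : X 0 = 0 := by
    have := hXm 0 1 (by omega) (by omega)
    omega
  have key := td_of hn w X h0 h1 ?_ ?_ ?_ ?_
  · have k2 : ∀ a, td w (e a) = (x a + 1) / 2 := by
      intro a
      rw [key _ (e a).2, hXa]
    refine ⟨k2, ?_⟩
    rw [des_td (by omega), key (n - 1) (by omega)]
    obtain ⟨a, ha⟩ := hsurj (2 * L) le_rfl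
    have h4 := hXm (e a) (n - 1) (by have := (e a).2; omega) (by omega)
    rw [hXa, ha] at h4
    have h5 := hXe (n - 1) (by omega)
    have h6 := hle (e.symm ⟨n - 1, by omega⟩)
    omega
  · intro p hp
    refine ⟨hXm p (p + 1) (by omega) hp, ?_⟩
    by_contra hc
    have h7 := hXe (p + 1) hp
    have h8 := hle (e.symm ⟨p + 1, hp⟩)
    obtain ⟨a, ha⟩ := hsurj (X p + 1) (by omega)
    have h9 := hXa a
    rcases Nat.lt_or_ge (e a) (p + 1) with h | h
    · have := hXm (e a) p (by omega) (by omega)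
      omega
    · have := hXm (p + 1) (e a) h (e a).2
      omega
  · intro p hp
    have := hs (e.symm ⟨p, hp⟩)
    rw [Equiv.apply_symm_apply] at this
    rw [this, hXe p hp]
  · intro p hp h2 h3
    have := he (e.symm ⟨p, by omega⟩) (e.symm ⟨p + 1, hp⟩)
    simp only [Equiv.apply_symm_apply] at this
    apply this
    · rw [← hXe, ← hXe]; exact h2
    · rw [Fin.lt_def]; simp
    · rw [← hXe]; exact h3
  · intro p hp h2 h3
    have := ho (e.symm ⟨p, by omega⟩) (e.symm ⟨p + 1, hp⟩)
    simp only [Equiv.apply_symm_apply] at this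
    apply this
    · rw [← hXe, ← hXe]; exact h2
    · rw [Fin.lt_def]; simp
    · rw [← hXe]; exact h3

end Pool.Agent.TSDG
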