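import Mathlib
import Pool.Agent.Lib.MP_a0e11f_co.EvLowA

/-!
# Elements built from a matrix of block sizes
-/

set_option autoImplicit false

open Finset

namespace Pool.Agent.TSDG

/-- positive cells and negative cells -/
abbrev Cell (l i : ℕ) := (Fin (l + 1) × Fin (i + 1)) ⊕ (Fin l × Fin i)

/-- the piece of positions -/
def xx {l i : ℕ} : Cell l i → ℕ
  | Sum.inl c => 2 * (c.1 : ℕ)
  | Sum.inr c => 2 * (c.1 : ℕ) + 1

/-- the piece of values -/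
def yy {l i : ℕ} : Cell l i → ℕ
  | Sum.inl c => 2 * (c.2 : ℕ)
  | Sum.inr c => 2 * (c.2 : ℕ) + 1

theorem cell_ext {l i : ℕ} {c d : Cell l i} (hx : xx c = xx d) (hy : yy c = yy d) : c = d := by
  rcases c with ⟨a, b⟩ | ⟨a, b⟩ <;> rcases d with ⟨a', b'⟩ | ⟨a', b'⟩ <;>
    simp only [xx, yy] at hx hy
  · have h1 : a = a' := Fin.ext (by omega)
    have h2 : b = b' := Fin.ext (by omega)
    rw [h1, h2]
  · omega
  · omega
  · have h1 : a = a' := Fin.ext (by omega)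
    have h2 : b = b' := Fin.ext (by omega)
    rw [h1, h2]

theorem xx_yy {l i : ℕ} (c : Cell l i) : xx c % 2 = yy c % 2 := by
  rcases c with ⟨a, b⟩ | ⟨a, b⟩ <;> simp only [xx, yy] <;> omega

theorem xx_le {l i : ℕ} (c : Cell l i) : xx c ≤ 2 * l := by
  rcases c with ⟨a, b⟩ | ⟨a, b⟩ <;> simp only [xx] <;> omega

theorem yy_le {l i : ℕ} (c : Cell l i) : yy c ≤ 2 * i := by
  rcases c with ⟨a, b⟩ | ⟨a, b⟩ <;> simp only [yy] <;> omega

theorem xx_surj {l i : ℕ} (hi : 1 ≤ i) (t : ℕ) (ht : t ≤ 2 * l) : ∃ c : Cell l i, xx c = t := by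
  rcases Nat.mod_two_eq_zero_or_one t with h | h
  · exact ⟨Sum.inl (⟨t / 2, by omega⟩, 0), by simp only [xx]; omega⟩
  · exact ⟨Sum.inr (⟨t / 2, by omega⟩, ⟨0, by omega⟩), by simp only [xx]; omega⟩

theorem yy_surj {l i : ℕ} (hl : 1 ≤ l) (t : ℕ) (ht : t ≤ 2 * i) : ∃ c : Cell l i, yy c = t := by
  rcases Nat.mod_two_eq_zero_or_one t with h | h
  · exact ⟨Sum.inl (0, ⟨t / 2, by omega⟩), by simp only [yy]; omega⟩
  · exact ⟨Sum.inr (⟨0, by omega⟩, ⟨t / 2, by omega⟩), by simp only [yy]; omega⟩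

/-- the sign of a cell -/
def sg {l i : ℕ} (c : Cell l i) : ℤ := if xx c % 2 = 1 then -1 else 1

/-- order of the positions -/
def k1 {l i : ℕ} {m : Cell l i → ℕ} (a : Σ c : Cell l i, Fin (m c)) : ℤ ×ₗ ℤ ×ₗ ℤ :=
  toLex ((xx a.1 : ℤ), toLex (sg a.1 * (yy a.1 : ℤ), ((a.2 : ℕ) : ℤ)))

/-- order of the values -/
def k2 {l i : ℕ} {m : Cell l i → ℕ} (a : Σ c : Cell l i, Fin (m c)) : ℤ ×ₗ ℤ ×ₗ ℤ :=
  toLex ((yy a.1 : ℤ), toLex (sg a.1 * (xx a.1 : ℤ), sg a.1 * ((a.2 : ℕ) : ℤ)))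

theorem k1_lt {l i : ℕ} {m : Cell l i → ℕ} (a b : Σ c : Cell l i, Fin (m c)) :
    k1 a < k1 b ↔ (xx a.1 : ℤ) < xx b.1 ∨ (xx a.1 : ℤ) = xx b.1 ∧
      (sg a.1 * (yy a.1 : ℤ) < sg b.1 * (yy b.1 : ℤ) ∨ sg a.1 * (yy a.1 : ℤ) = sg b.1 * (yy b.1 : ℤ)
        ∧ ((a.2 : ℕ) : ℤ) < (b.2 : ℕ)) := by
  unfold k1
  rw [Prod.Lex.toLex_lt_toLex, Prod.Lex.toLex_lt_toLex]

theorem k2_lt {l i : ℕ} {m : Cell l i → ℕ} (a b : Σ c : Cell l i, Fin (m c)) :
    k2 a < k2 b ↔ (yy a.1 : ℤ) < yy b.1 ∨ (yy a.1 : ℤ) = yy b.1 ∧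
      (sg a.1 * (xx a.1 : ℤ) < sg b.1 * (xx b.1 : ℤ) ∨ sg a.1 * (xx a.1 : ℤ) = sg b.1 * (xx b.1 : ℤ)
        ∧ sg a.1 * ((a.2 : ℕ) : ℤ) < sg b.1 * ((b.2 : ℕ) : ℤ)) := by
  unfold k2
  rw [Prod.Lex.toLex_lt_toLex, Prod.Lex.toLex_lt_toLex]

theorem sg_cases {l i : ℕ} (c : Cell l i) : xx c % 2 = 1 ∧ sg c = -1 ∨ xx c % 2 = 0 ∧ sg c = 1 := by
  unfold sg
  rcases Nat.mod_two_eq_zero_or_one (xx c) with h | h
  · right; rw [if_neg (by omega)]; exact ⟨h, rfl⟩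
  · left; rw [if_pos h]; exact ⟨h, rfl⟩

theorem k1_inj {l i : ℕ} {m : Cell l i → ℕ} :
    Function.Injective (k1 : (Σ c : Cell l i, Fin (m c)) → ℤ ×ₗ ℤ ×ₗ ℤ) := by
  intro a b h
  have h1 : ¬ k1 a < k1 b := by rw [h]; exact lt_irrefl _
  have h2 : ¬ k1 b < k1 a := by rw [h]; exact lt_irrefl _
  rw [k1_lt] at h1 h2
  obtain ⟨c, x⟩ := a
  obtain ⟨d, y⟩ := b
  simp only at h1 h2
  have hx : xx c = xx d := by omega
  have hs : sg c = sg d := by unfold sg; rw [hx]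
  have hy : yy c = yy d := by
    rcases sg_cases d with ⟨_, h⟩ | ⟨_, h⟩ <;> rw [hs, h] at h1 h2 <;> omega
  obtain rfl := cell_ext hx hy
  have : x = y := Fin.ext (by omega)
  rw [this]

theorem k2_inj {l i : ℕ} {m : Cell l i → ℕ} :
    Function.Injective (k2 : (Σ c : Cell l i, Fin (m c)) → ℤ ×ₗ ℤ ×ₗ ℤ) := by
  intro a b h
  have h1 : ¬ k2 a < k2 b := by rw [h]; exact lt_irrefl _
  have h2 : ¬ k2 b < k2 a := by rw [h]; exact lt_irrefl _
  rw [k2_lt] at h1 h2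
  obtain ⟨c, x⟩ := a
  obtain ⟨d, y⟩ := b
  simp only at h1 h2
  have hy : yy c = yy d := by omega
  have p1 := xx_yy c
  have p2 := xx_yy d
  have hs : sg c = sg d := by
    unfold sg
    rw [p1, p2, hy]
  have hx : xx c = xx d := by
    rcases sg_cases d with ⟨_, h⟩ | ⟨_, h⟩ <;> rw [hs, h] at h1 h2 <;> omega
  obtain rfl := cell_ext hx hy
  have : x = y := by
    apply Fin.ext
    rcases sg_cases c with ⟨_, h⟩ | ⟨_, h⟩ <;> rw [h] at h1 h2 <;> omega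
  rw [this]

theorem exists_rank {α β : Type} [Fintype α] [LinearOrder β] (f : α → β)
    (hf : Function.Injective f) {n : ℕ} (h : Fintype.card α = n) :
    ∃ e : α ≃ Fin n, ∀ a b, e a < e b ↔ f a < f b := by
  let _ : LinearOrder α := LinearOrder.lift' f hf
  refine ⟨(monoEquivOfFin α h).symm.toEquiv, fun a b => ?_⟩
  exact (monoEquivOfFin α h).symm.lt_iff_lt

/-- `w` is built from the matrix `m` with the placement `e` of its points -/
structure Blt {l i n : ℕ} (m : Cell l i → ℕ) (w : SP n) (e : (Σ c : Cell l i, Fin (m c)) ≃ Fin n) :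
    Prop where
  h1 : ∀ a b, e a < e b ↔ k1 a < k1 b
  h2 : ∀ a b, w.1 (e a) < w.1 (e b) ↔ k2 a < k2 b
  h3 : ∀ a, w.2 (e a) = decide (xx a.1 % 2 = 1)

theorem exists_w {l i n : ℕ} (m : Cell l i → ℕ) (hm : ∑ c, m c = n) :
    ∃ (w : SP n) (e : (Σ c : Cell l i, Fin (m c)) ≃ Fin n), Blt m w e := by
  have hc : Fintype.card (Σ c : Cell l i, Fin (m c)) = n := by
    rw [Fintype.card_sigma]; simpa using hm
  obtain ⟨e1, he1⟩ := exists_rank k1 (k1_inj (m := m)) hc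
  obtain ⟨e2, he2⟩ := exists_rank k2 (k2_inj (m := m)) hc
  refine ⟨(e1.symm.trans e2, fun p => decide (xx (e1.symm p).1 % 2 = 1)), e1, he1, ?_, ?_⟩
  · intro a b
    simpa using he2 a b
  · intro a
    simp

theorem Blt.des {l i n : ℕ} {m : Cell l i → ℕ} {w : SP n}
    {e : (Σ c : Cell l i, Fin (m c)) ≃ Fin n} (h : Blt m w e) (hm : ∀ c, 1 ≤ m c) (hi : 1 ≤ i) :
    (∀ a, td w (e a) = (xx a.1 + 1) / 2) ∧ des w = l := by
  apply pieces w e (fun a => xx a.1)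
  · intro a b hab
    rw [h.h1, k1_lt] at hab
    omega
  · intro a; exact xx_le _
  · intro t ht
    obtain ⟨c, hc⟩ := xx_surj hi t ht
    exact ⟨⟨c, ⟨0, hm c⟩⟩, hc⟩
  · refine ⟨⟨Sum.inl (0, 0), ⟨0, hm _⟩⟩, ⟨Sum.inl (0, ⟨1, by omega⟩), ⟨0, hm _⟩⟩, ?_, rfl, rfl⟩
    intro heq
    have := congrArg (fun a => yy a.1) heq
    simp [yy] at this
  · exact h.h3
  · intro a b hab hlt hpar
    rw [h.h1, k1_lt] at hlt
    rw [h.h2, k2_lt]
    have hsab : sg a.1 = sg b.1 := by unfold sg; rw [hab]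
    rcases sg_cases a.1 with ⟨q, hq⟩ | ⟨q, hq⟩
    · omega
    · rw [← hsab, hq] at hlt ⊢
      rw [hab] at hlt ⊢
      omega
  · intro a b hab hlt hpar
    rw [h.h1, k1_lt] at hlt
    rw [h.h2, k2_lt]
    have hsab : sg a.1 = sg b.1 := by unfold sg; rw [hab]
    rcases sg_cases a.1 with ⟨q, hq⟩ | ⟨q, hq⟩
    · rw [← hsab, hq] at hlt ⊢
      rw [hab] at hlt ⊢
      omega
    · omega

theorem Blt.ides {l i n : ℕ} {m : Cell l i → ℕ} {w : SP n}
    {e : (Σ c : Cell l i, Fin (m c)) ≃ Fin n} (h : Blt m w e) (hm : ∀ c, 1 ≤ m c) (hl : 1 ≤ l) :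
    (∀ a, td (inv w) (w.1 (e a)) = (yy a.1 + 1) / 2) ∧ ides w = i := by
  have key := pieces (L := i) (inv w) (e.trans w.1) (fun a => yy a.1) ?_ ?_ ?_ ?_ ?_ ?_ ?_
  · exact key
  · intro a b hab
    simp only [Equiv.trans_apply] at hab
    rw [h.h2, k2_lt] at hab
    omega
  · intro a; exact yy_le _
  · intro t ht
    obtain ⟨c, hc⟩ := yy_surj hl t ht
    exact ⟨⟨c, ⟨0, hm c⟩⟩, hc⟩
  · refine ⟨⟨Sum.inl (0, 0), ⟨0, hm _⟩⟩, ⟨Sum.inl (⟨1, by omega⟩, 0), ⟨0, hm _⟩⟩, ?_, rfl, rfl⟩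
    intro heq
    have := congrArg (fun a => xx a.1) heq
    simp [xx] at this
  · intro a
    have h3 := h.h3 a
    rw [xx_yy] at h3
    simp only [inv, Equiv.trans_apply, Equiv.symm_apply_apply]
    exact h3
  · intro a b hab hlt hpar
    simp only [Equiv.trans_apply] at hlt
    rw [h.h2, k2_lt] at hlt
    have p1 := xx_yy a.1
    have p2 := xx_yy b.1
    have hsab : sg a.1 = sg b.1 := by unfold sg; rw [p1, p2, hab]
    simp only [inv, Equiv.trans_apply, Equiv.symm_apply_apply]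
    rw [h.h1, k1_lt]
    rcases sg_cases a.1 with ⟨q, hq⟩ | ⟨q, hq⟩
    · omega
    · rw [← hsab, hq] at hlt ⊢
      rw [hab] at hlt ⊢
      omega
  · intro a b hab hlt hpar
    simp only [Equiv.trans_apply] at hlt
    rw [h.h2, k2_lt] at hlt
    have p1 := xx_yy a.1
    have p2 := xx_yy b.1
    have hsab : sg a.1 = sg b.1 := by unfold sg; rw [p1, p2, hab]
    simp only [inv, Equiv.trans_apply, Equiv.symm_apply_apply]
    rw [h.h1, k1_lt]
    rcases sg_cases a.1 with ⟨q, hq⟩ | ⟨q, hq⟩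
    · rw [← hsab, hq] at hlt ⊢
      rw [hab] at hlt ⊢
      omega
    · omega

/-- the block matrix of an element -/
def Mw {l i n : ℕ} (w : SP n) (c : Cell l i) : ℕ :=
  (univ.filter fun p : Fin n => 2 * td w p - (if w.2 p then 1 else 0) = xx c ∧
    2 * td (inv w) (w.1 p) - (if w.2 p then 1 else 0) = yy c).card

theorem Blt.recover {l i n : ℕ} {m : Cell l i → ℕ} {w : SP n}
    {e : (Σ c : Cell l i, Fin (m c)) ≃ Fin n} (h : Blt m w e) (hm : ∀ c, 1 ≤ m c) (hl : 1 ≤ l)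
    (hi : 1 ≤ i) (c : Cell l i) : m c = Mw w c := by
  have d1 := (h.des hm hi).1
  have d2 := (h.ides hm hl).1
  unfold Mw
  have h4 : m c = (univ : Finset (Fin (m c))).card := by simp
  rw [h4]
  refine card_bij (fun k _ => e ⟨c, k⟩) ?_ ?_ ?_
  · intro k _
    rw [mem_filter]
    refine ⟨mem_univ _, ?_⟩
    rw [d1, d2, h.h3]
    have p1 := xx_yy c
    simp only [decide_eq_true_eq]
    split_ifs <;> constructor <;> omega
  · intro k _ k' _ hk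
    have := e.injective hk
    simpa using this
  · intro p hp
    rw [mem_filter] at hp
    obtain ⟨a, rfl⟩ : ∃ a, e a = p := ⟨e.symm p, by simp⟩
    have hp2 := hp.2
    rw [d1, d2, h.h3] at hp2
    have p1 := xx_yy a.1
    simp only [decide_eq_true_eq] at hp2
    have : a.1 = c := by
      apply cell_ext
      · split_ifs at hp2 <;> omega
      · split_ifs at hp2 <;> omega
    subst this
    exact ⟨a.2, mem_univ _, rfl⟩

end Pool.Agent.TSDG
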