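import Mathlib
import Pool.Agent.Lib.MP_a0e11f_co.EvLowB

/-!
# Lower bound for the number of elements with given statistics
-/

set_option autoImplicit false

open Finset

namespace Pool.Agent.TSDG

theorem Blt.negs {l i n : ℕ} {m : Cell l i → ℕ} {w : SP n}
    {e : (Σ c : Cell l i, Fin (m c)) ≃ Fin n} (h : Blt m w e) :
    (univ.filter fun p => w.2 p = true).card = ∑ c, if xx c % 2 = 1 then m c else 0 := by
  rw [card_filter, ← Equiv.sum_comp e, Fintype.sum_sigma]
  refine sum_congr rfl fun c _ => ?_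
  simp only [h.h3, decide_eq_true_eq]
  split_ifs <;> simp

/-- the cells `c`, `d` are in inverted order -/
def JJ {l i : ℕ} (c d : Cell l i) : Prop :=
  ((xx c : ℤ) < xx d ∨ (xx c : ℤ) = xx d ∧ sg c * (yy c : ℤ) < sg d * (yy d : ℤ)) ∧
    ((yy d : ℤ) < yy c ∨ (yy d : ℤ) = yy c ∧ sg d * (xx d : ℤ) < sg c * (xx c : ℤ))

instance {l i : ℕ} (c d : Cell l i) : Decidable (JJ c d) := by unfold JJ; infer_instance

theorem sum_lt (m : ℕ) : (∑ k : Fin m, ∑ k' : Fin m, if k < k' then 1 else 0) = m.choose 2 := by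
  rw [sum_comm]
  have h1 : ∀ k' : Fin m, (∑ k : Fin m, if k < k' then 1 else 0) = (k' : ℕ) := by
    intro k'
    rw [← card_filter]
    have : (univ.filter fun k : Fin m => k < k') = Iio k' := by ext; simp
    rw [this, Fin.card_Iio]
  simp only [h1]
  rw [Fin.sum_univ_eq_sum_range (fun k => k) m, sum_range_id, Nat.choose_two_right]

/-- the contribution of a pair of cells to the inversions -/
def GG {l i : ℕ} (m : Cell l i → ℕ) (c d : Cell l i) : ℕ :=
  if c = d then (if xx c % 2 = 1 then (m c).choose 2 else 0) else if JJ c d then m c * m d else 0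

theorem Blt.invc {l i n : ℕ} {m : Cell l i → ℕ} {w : SP n}
    {e : (Σ c : Cell l i, Fin (m c)) ≃ Fin n} (h : Blt m w e) :
    invc w.1 = ∑ c, ∑ d, GG m c d := by
  unfold TSDG.invc
  rw [card_filter, Fintype.sum_prod_type, ← Equiv.sum_comp e, Fintype.sum_sigma]
  refine sum_congr rfl fun c _ => ?_
  have h1 : ∀ k : Fin (m c), (∑ q : Fin n, if (e ⟨c, k⟩ < q ∧ w.1 q < w.1 (e ⟨c, k⟩)) then 1 else 0) =
      ∑ d, ∑ k' : Fin (m d), if (k1 (m := m) ⟨c, k⟩ < k1 (m := m) ⟨d, k'⟩ ∧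
        k2 (m := m) ⟨d, k'⟩ < k2 (m := m) ⟨c, k⟩) then 1 else 0 := by
    intro k
    rw [← Equiv.sum_comp e, Fintype.sum_sigma]
    refine sum_congr rfl fun d _ => sum_congr rfl fun k' _ => ?_
    simp only [h.h1, h.h2]
  simp only [h1]
  rw [sum_comm]
  refine sum_congr rfl fun d _ => ?_
  unfold GG
  by_cases hcd : c = d
  · subst hcd
    rw [if_pos rfl]
    rcases sg_cases c with ⟨q, hq⟩ | ⟨q, hq⟩
    · rw [if_pos q, ← sum_lt]
      refine sum_congr rfl fun k _ => sum_congr rfl fun k' _ => ?_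
      have : (k1 (m := m) ⟨c, k⟩ < k1 (m := m) ⟨c, k'⟩ ∧ k2 (m := m) ⟨c, k'⟩ < k2 (m := m) ⟨c, k⟩)
          ↔ k < k' := by
        rw [k1_lt, k2_lt, Fin.lt_def]
        simp only [hq, lt_irrefl, true_and, false_or]
        omega
      simp only [this]
    · rw [if_neg (by omega)]
      apply sum_eq_zero
      intro k _
      apply sum_eq_zero
      intro k' _
      rw [if_neg]
      rw [k1_lt, k2_lt]
      simp only [hq]
      omega
  · rw [if_neg hcd]
    have key : ∀ (k : Fin (m c)) (k' : Fin (m d)),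
        (k1 (m := m) ⟨c, k⟩ < k1 (m := m) ⟨d, k'⟩ ∧ k2 (m := m) ⟨d, k'⟩ < k2 (m := m) ⟨c, k⟩)
          ↔ JJ c d := by
      intro k k'
      rw [k1_lt, k2_lt]
      unfold JJ
      simp only
      have p1 := xx_yy c
      have p2 := xx_yy d
      have hne : ¬ (xx c = xx d ∧ yy c = yy d) := fun hh => hcd (cell_ext hh.1 hh.2)
      rcases sg_cases c with ⟨q, hq⟩ | ⟨q, hq⟩ <;> rcases sg_cases d with ⟨q', hq'⟩ | ⟨q', hq'⟩ <;>
        rw [hq, hq'] <;> omega
    simp only [key]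
    by_cases hJ : JJ c d
    · simp [hJ]
    · simp [hJ]

theorem choose_add_two (m : ℕ) : (((m + 2).choose 2 : ℕ) : ZMod 2) = ((m.choose 2 : ℕ) : ZMod 2) + 1 := by
  have h : (m + 2).choose 2 = m.choose 2 + (2 * m + 1) := by
    have e1 : (m + 2).choose 2 = (m + 1).choose 1 + (m + 1).choose 2 := Nat.choose_succ_succ _ _
    have e2 : (m + 1).choose 2 = m.choose 1 + m.choose 2 := Nat.choose_succ_succ _ _
    rw [Nat.choose_one_right] at e1 e2
    omega
  rw [h]
  push_cast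
  have : (2 : ZMod 2) = 0 := by decide
  rw [this]; ring

theorem flip {l i n : ℕ} {m m' : Cell l i → ℕ} {w w' : SP n}
    {e : (Σ c : Cell l i, Fin (m c)) ≃ Fin n} {e' : (Σ c : Cell l i, Fin (m' c)) ≃ Fin n}
    (h : Blt m w e) (h' : Blt m' w' e') (cs : Cell l i) (hcs : xx cs % 2 = 1)
    (hs : m' cs = m cs + 2) (hpar : ∀ c, ((m' c : ℕ) : ZMod 2) = (m c : ℕ))
    (hne : ∀ c, c ≠ cs → xx c % 2 = 1 → m' c = m c) :
    ((TSDG.invc w'.1 : ℕ) : ZMod 2) = (TSDG.invc w.1 : ℕ) + 1 := by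
  rw [h.invc, h'.invc]
  push_cast
  have key : ∀ c d : Cell l i, ((GG m' c d : ℕ) : ZMod 2) =
      (GG m c d : ℕ) + (if c = cs then (if d = cs then 1 else 0) else 0) := by
    intro c d
    unfold GG
    by_cases hcd : c = d
    · subst hcd
      rw [if_pos rfl, if_pos rfl]
      by_cases hc : c = cs
      · subst hc
        rw [if_pos hcs, if_pos hcs, if_pos rfl, if_pos rfl, hs, choose_add_two]
      · rw [if_neg hc, add_zero]
        by_cases hx : xx c % 2 = 1
        · rw [if_pos hx, if_pos hx, hne c hc hx]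
        · rw [if_neg hx, if_neg hx]
    · rw [if_neg hcd, if_neg hcd]
      have h0 : (if c = cs then (if d = cs then (1 : ZMod 2) else 0) else 0) = 0 := by
        split_ifs with h1 h2
        · exact absurd (h1.trans h2.symm) hcd
        · rfl
        · rfl
      rw [h0, add_zero]
      split_ifs
      · push_cast
        rw [hpar, hpar]
      · rfl
  simp only [key]
  simp only [sum_add_distrib]
  congr 1
  simp

/-- the first cell -/
def c00 (l i : ℕ) : Cell l i := Sum.inl (0, 0)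

/-- block sizes given by the parameters `u`, and the shift `d ∈ {0, 1}` -/
def vv {l i K : ℕ} (cs : Cell l i) (ρ d : ℕ) (u : {c : Cell l i // c ≠ c00 l i} → Fin K)
    (c : {c : Cell l i // c ≠ c00 l i}) : ℕ := 4 * (u c : ℕ) + (if c.1 = cs then ρ + 2 * d else 1)

/-- the block matrix -/
def mm {l i K : ℕ} (n : ℕ) (cs : Cell l i) (ρ d : ℕ)
    (u : {c : Cell l i // c ≠ c00 l i} → Fin K) (c : Cell l i) : ℕ :=
  if h : c = c00 l i then n - ∑ c, vv cs ρ d u c else vv cs ρ d u ⟨c, h⟩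

theorem sum_mm {l i K n : ℕ} (cs : Cell l i) (ρ d : ℕ)
    (u : {c : Cell l i // c ≠ c00 l i} → Fin K) (hle : ∑ c, vv cs ρ d u c ≤ n) :
    ∑ c, mm n cs ρ d u c = n := by
  rw [← Finset.add_sum_erase univ _ (mem_univ (c00 l i))]
  have h1 : mm n cs ρ d u (c00 l i) = n - ∑ c, vv cs ρ d u c := by
    unfold mm; rw [dif_pos rfl]
  have h2 : ∑ c ∈ univ.erase (c00 l i), mm n cs ρ d u c = ∑ c, vv cs ρ d u c := by
    rw [← Finset.sum_subtype_of_mem (p := fun c => c ≠ c00 l i) (s := univ.erase (c00 l i))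
      (mm n cs ρ d u) (fun c hc => (mem_erase.1 hc).1)]
    refine Finset.sum_bij (fun c _ => c) (fun c _ => mem_univ _) (fun _ _ _ _ h => h) ?_ ?_
    · intro c _
      exact ⟨c, by simp [c.2], rfl⟩
    · intro c _
      unfold mm
      rw [dif_neg c.2]
  rw [h1, h2]
  omega

theorem vv_bounds {l i K : ℕ} (cs : Cell l i) (ρ d : ℕ) (h1 : 1 ≤ ρ) (h2 : ρ ≤ 2) (hd : d ≤ 1)
    (u : {c : Cell l i // c ≠ c00 l i} → Fin K) (c : {c : Cell l i // c ≠ c00 l i}) :
    1 ≤ vv cs ρ d u c ∧ vv cs ρ d u c ≤ 4 * K ∧ (vv cs ρ d u c - 1) / 4 = u c := by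
  unfold vv
  have := (u c).2
  split_ifs <;> refine ⟨?_, ?_, ?_⟩ <;> omega

theorem card_sub {l i : ℕ} :
    Fintype.card {c : Cell l i // c ≠ c00 l i} = 2 * i * l + i + l := by
  have h1 : Fintype.card {c : Cell l i // c ≠ c00 l i} = Fintype.card (Cell l i) - 1 := by
    rw [Fintype.card_subtype_compl]
    simp
  rw [h1]
  simp only [Fintype.card_sum, Fintype.card_prod, Fintype.card_fin]
  have : (l + 1) * (i + 1) + l * i = 2 * i * l + i + l + 1 := by ring
  rw [this]; simp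

theorem sum_vv_le {l i K : ℕ} (cs : Cell l i) (ρ d : ℕ) (h1 : 1 ≤ ρ) (h2 : ρ ≤ 2) (hd : d ≤ 1)
    (u : {c : Cell l i // c ≠ c00 l i} → Fin K) :
    ∑ c, vv cs ρ d u c ≤ (2 * i * l + i + l) * (4 * K) := by
  have h3 : ∑ c, vv cs ρ d u c ≤ ∑ _c : {c : Cell l i // c ≠ c00 l i}, 4 * K :=
    sum_le_sum fun c _ => (vv_bounds cs ρ d h1 h2 hd u c).2.1
  refine h3.trans ?_
  rw [sum_const, card_univ, card_sub, smul_eq_mul]

theorem neg_sum {l i K n : ℕ} (hl : 1 ≤ l) (hi : 1 ≤ i) (ρ d : ℕ)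
    (u : {c : Cell l i // c ≠ c00 l i} → Fin K) :
    (((∑ c, if xx c % 2 = 1 then mm n (Sum.inr (⟨0, hl⟩, ⟨0, hi⟩) : Cell l i) ρ d u c else 0 : ℕ)) :
      ZMod 2) = (l * i : ℕ) + ρ - 1 := by
  rw [Fintype.sum_sum_type]
  have h1 : (∑ c : Fin (l + 1) × Fin (i + 1), if xx (Sum.inl c : Cell l i) % 2 = 1 then
      mm n (Sum.inr (⟨0, hl⟩, ⟨0, hi⟩) : Cell l i) ρ d u (Sum.inl c) else 0) = 0 := by
    apply sum_eq_zero
    intro c _
    rw [if_neg]
    simp only [xx]; omega
  rw [h1, zero_add]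
  push_cast
  have h4 : (4 : ZMod 2) = 0 := by decide
  have h22 : (2 : ZMod 2) = 0 := by decide
  have h2 : ∀ c : Fin l × Fin i, ((if xx (Sum.inr c : Cell l i) % 2 = 1 then
      ((mm n (Sum.inr (⟨0, hl⟩, ⟨0, hi⟩) : Cell l i) ρ d u (Sum.inr c) : ℕ) : ZMod 2) else 0)) =
      1 + (if c = (⟨0, hl⟩, ⟨0, hi⟩) then ((ρ : ZMod 2) - 1) else 0) := by
    intro c
    rw [if_pos (by simp only [xx]; omega)]
    unfold mm
    rw [dif_neg (by unfold c00; simp)]
    unfold vv
    push_cast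
    rw [h4, zero_mul, zero_add]
    by_cases hc : c = (⟨0, hl⟩, ⟨0, hi⟩)
    · rw [if_pos hc, if_pos (by rw [hc])]
      push_cast
      rw [h22]; ring
    · rw [if_neg hc, if_neg (fun h => hc (Sum.inr_injective h))]
      simp
  simp only [h2]
  rw [sum_add_distrib]
  simp only [sum_const, card_univ, Fintype.card_prod, Fintype.card_fin, nsmul_eq_mul, mul_one,
    sum_ite_eq', mem_univ, if_true]
  push_cast
  ring

theorem lower_card {l i n K r : ℕ} (hl : 1 ≤ l) (hi : 1 ≤ i) (hr : r < 2)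
    (hK : (2 * i * l + i + l) * (4 * K) + 1 ≤ n) : K ^ (2 * i * l + i + l) ≤ NN n r i l := by
  classical
  set cs : Cell l i := Sum.inr (⟨0, hl⟩, ⟨0, hi⟩) with hcs
  set ρ : ℕ := 1 + (l * i) % 2 with hρ
  have hρ1 : 1 ≤ ρ := by omega
  have hρ2 : ρ ≤ 2 := by omega
  have hle : ∀ (d : ℕ), d ≤ 1 → ∀ u : {c : Cell l i // c ≠ c00 l i} → Fin K,
      ∑ c, vv cs ρ d u c + 1 ≤ n := by
    intro d hd u
    have := sum_vv_le cs ρ d hρ1 hρ2 hd u
    omega
  have hpos : ∀ (d : ℕ), d ≤ 1 → ∀ u : {c : Cell l i // c ≠ c00 l i} → Fin K, ∀ c,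
      1 ≤ mm n cs ρ d u c := by
    intro d hd u c
    unfold mm
    split_ifs with h
    · have := hle d hd u
      omega
    · exact (vv_bounds cs ρ d hρ1 hρ2 hd u _).1
  -- the element with the right parity
  have hex : ∀ u : {c : Cell l i // c ≠ c00 l i} → Fin K, ∃ (w : SP n) (d : ℕ)
      (e : (Σ c : Cell l i, Fin (mm n cs ρ d u c)) ≃ Fin n), d ≤ 1 ∧
      Blt (mm n cs ρ d u) w e ∧ TSDG.invc w.1 % 2 = r := by
    intro u
    obtain ⟨w0, e0, hw0⟩ := exists_w (mm n cs ρ 0 u)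
      (sum_mm (n := n) cs ρ 0 u (by have := hle 0 (by omega) u; omega))
    obtain ⟨w1, e1, hw1⟩ := exists_w (mm n cs ρ 1 u)
      (sum_mm (n := n) cs ρ 1 u (by have := hle 1 (by omega) u; omega))
    have hcs0 : cs ≠ c00 l i := by rw [hcs]; unfold c00; simp
    have hv : ∀ c : {c : Cell l i // c ≠ c00 l i}, c.1 ≠ cs → vv cs ρ 1 u c = vv cs ρ 0 u c := by
      intro c hc
      unfold vv
      rw [if_neg hc, if_neg hc]
    have hv2 : ∀ c : {c : Cell l i // c ≠ c00 l i}, c.1 = cs →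
        vv cs ρ 1 u c = vv cs ρ 0 u c + 2 := by
      intro c hc
      unfold vv
      rw [if_pos hc, if_pos hc]
      omega
    have hfl := flip hw0 hw1 cs (by rw [hcs]; simp [xx]) ?_ ?_ ?_
    · have h5 : TSDG.invc w1.1 % 2 ≠ TSDG.invc w0.1 % 2 := by
        intro h5
        rw [← ZMod.natCast_eq_natCast_iff'] at h5
        rw [h5] at hfl
        have h6 : (1 : ZMod 2) = 0 := by
          have := hfl
          rw [left_eq_add] at this
          exact this
        exact absurd h6 (by decide)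
      by_cases h7 : TSDG.invc w0.1 % 2 = r
      · exact ⟨w0, 0, e0, by omega, hw0, h7⟩
      · exact ⟨w1, 1, e1, le_rfl, hw1, by omega⟩
    · unfold mm
      rw [dif_neg hcs0, dif_neg hcs0, hv2 _ rfl]
    · intro c
      have h22 : (2 : ZMod 2) = 0 := by decide
      by_cases hc : c = c00 l i
      · -- the first cell: the sum grows by 2
        have hsum : ∑ c, vv cs ρ 1 u c = ∑ c, vv cs ρ 0 u c + 2 := by
          rw [← Finset.add_sum_erase univ _ (mem_univ (⟨cs, hcs0⟩ : {c : Cell l i // c ≠ c00 l i})),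
            ← Finset.add_sum_erase univ (vv cs ρ 0 u)
              (mem_univ (⟨cs, hcs0⟩ : {c : Cell l i // c ≠ c00 l i})), hv2 _ rfl]
          have : ∑ c ∈ univ.erase (⟨cs, hcs0⟩ : {c : Cell l i // c ≠ c00 l i}), vv cs ρ 1 u c =
              ∑ c ∈ univ.erase (⟨cs, hcs0⟩ : {c : Cell l i // c ≠ c00 l i}), vv cs ρ 0 u c := by
            refine sum_congr rfl fun c hc => hv c ?_
            intro h
            exact (mem_erase.1 hc).1 (Subtype.ext h)
          rw [this]; omega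
        have ha : mm n cs ρ 0 u c = mm n cs ρ 1 u c + 2 := by
          unfold mm
          rw [dif_pos hc, dif_pos hc, hsum]
          have := hle 1 le_rfl u
          omega
        rw [ha]
        push_cast
        rw [h22, add_zero]
      · unfold mm
        rw [dif_neg hc, dif_neg hc]
        by_cases h8 : c = cs
        · rw [hv2 _ h8]
          push_cast
          rw [h22, add_zero]
        · rw [hv _ h8]
    · intro c hc hx
      have hc0 : c ≠ c00 l i := by
        rintro rfl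
        simp [c00, xx] at hx
      unfold mm
      rw [dif_neg hc0, dif_neg hc0, hv _ hc]
  choose W D E hD hB hI using hex
  have h1 : (univ : Finset ({c : Cell l i // c ≠ c00 l i} → Fin K)).card =
      K ^ (2 * i * l + i + l) := by
    rw [card_univ, Fintype.card_fun, Fintype.card_fin, card_sub]
  rw [← h1]
  unfold NN
  refine card_le_card_of_injOn W ?_ ?_
  · intro u _
    simp only [coe_filter, Set.mem_ofPred_eq]
    have d1 := ((hB u).des (hpos _ (hD u) u) hi).2
    have d2 := ((hB u).ides (hpos _ (hD u) u) hl).2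
    refine ⟨?_, d2, d1⟩
    rw [mem_DD, lenD_mod, (hB u).negs]
    refine ⟨?_, hI u⟩
    rw [← ZMod.natCast_eq_zero_iff_even, hcs, neg_sum hl hi, hρ]
    push_cast
    have h9 : (((l * i) % 2 : ℕ) : ZMod 2) = ((l * i : ℕ) : ZMod 2) := by
      rw [ZMod.natCast_eq_natCast_iff', Nat.mod_mod]
    push_cast at h9
    rw [h9]
    have h22 : (2 : ZMod 2) = 0 := by decide
    have : (l : ZMod 2) * i + (1 + (l : ZMod 2) * i) - 1 = 2 * (l * i) := by ring
    rw [this, h22, zero_mul]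
  · intro u _ u' _ huu
    have r1 := (hB u).recover (hpos _ (hD u) u) hl hi
    have r2 := (hB u').recover (hpos _ (hD u') u') hl hi
    rw [huu] at r1
    funext c
    have h10 : mm n cs ρ (D u) u c.1 = mm n cs ρ (D u') u' c.1 := by rw [r1, r2]
    unfold mm at h10
    rw [dif_neg c.2, dif_neg c.2] at h10
    have b1 := (vv_bounds cs ρ (D u) hρ1 hρ2 (hD u) u c).2.2
    have b2 := (vv_bounds cs ρ (D u') hρ1 hρ2 (hD u') u' c).2.2
    apply Fin.ext
    rw [← b1, ← b2]
    rw [show vv cs ρ (D u) u c = vv cs ρ (D u') u' c from h10]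

theorem lowerX (i l r : ℕ) (hi : 1 ≤ i) (hl : 1 ≤ l) (hr : r < 2) (n : ℕ)
    (hn : 16 * (2 * i * l + i + l) ≤ n) :
    n ^ (2 * i * l + i + l) ≤ (8 * (2 * i * l + i + l)) ^ (2 * i * l + i + l) * NN n r i l := by
  set N := 2 * i * l + i + l with hN
  have hN1 : 1 ≤ N := by omega
  set K := (n - 1) / (4 * N) with hK
  have h1 : N * (4 * K) + 1 ≤ n := by
    have := Nat.mul_div_le (n - 1) (4 * N)
    have e : N * (4 * K) = 4 * N * ((n - 1) / (4 * N)) := by rw [hK]; ring
    omega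
  have h2 := lower_card (K := K) hl hi hr (by exact h1)
  rw [← hN] at h2
  have h3 : n ≤ 8 * N * K := by
    have h4 := Nat.div_add_mod (n - 1) (4 * N)
    have h5 := Nat.mod_lt (n - 1) (show 0 < 4 * N by omega)
    have e : 8 * N * K = 2 * (4 * N * ((n - 1) / (4 * N))) := by rw [hK]; ring
    omega
  calc n ^ N ≤ (8 * N * K) ^ N := Nat.pow_le_pow_left h3 N
    _ = (8 * N) ^ N * K ^ N := by rw [mul_pow]
    _ ≤ (8 * N) ^ N * NN n r i l := Nat.mul_le_mul_left _ h2

end Pool.Agent.TSDG
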