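import Mathlib
import Pool.Agent.Lib.MP_a0e11f_co.EvLower

/-!
# A binomial lower bound for the number of elements with given statistics
-/

set_option autoImplicit false

open Finset

namespace Pool.Agent.TSDG

/-- block sizes: free parameters `v` off the cell `cs`, the value `t ∈ {1,2,3,4}` at `cs` -/
def mq {l i : ℕ} (cs : Cell l i) (t : ℕ) (v : Cell l i →₀ ℕ) (c : Cell l i) : ℕ :=
  if c = cs then t else if c = c00 l i then v c + 1 + (4 - t) else v c + 1

theorem sum_mq {l i : ℕ} (cs : Cell l i) (hcs : cs ≠ c00 l i) (t : ℕ) (ht : t ≤ 4)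
    (v : Cell l i →₀ ℕ) :
    ∑ c, mq cs t v c = ∑ c ∈ univ.erase cs, v c + (2 * i * l + i + l) + 4 := by
  rw [← Finset.add_sum_erase univ _ (mem_univ cs)]
  have h1 : mq cs t v cs = t := by unfold mq; rw [if_pos rfl]
  have h2 : ∀ c ∈ univ.erase cs, mq cs t v c = v c + (1 + if c = c00 l i then 4 - t else 0) := by
    intro c hc
    have hc' := (mem_erase.1 hc).1
    unfold mq
    rw [if_neg hc']
    split_ifs
    · ring
    · ring
  rw [h1, sum_congr rfl h2, sum_add_distrib, sum_add_distrib, sum_const, smul_eq_mul, mul_one,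
    card_erase_of_mem (mem_univ _), card_univ]
  have h3 : Fintype.card (Cell l i) = 2 * i * l + i + l + 1 := by
    simp only [Fintype.card_sum, Fintype.card_prod, Fintype.card_fin]
    ring
  rw [h3, Nat.add_sub_cancel, sum_ite_eq', if_pos (mem_erase.2 ⟨hcs.symm, mem_univ _⟩)]
  omega

theorem lower2 (i l r n : ℕ) (hi : 1 ≤ i) (hl : 1 ≤ l) (hr : r < 2)
    (hn : 2 * i * l + i + l + 6 ≤ n) :
    (n - 5).choose (2 * i * l + i + l - 1) ≤ NN n r i l := by
  classical
  set cs : Cell l i := Sum.inr (⟨0, hl⟩, ⟨0, hi⟩) with hcs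
  have hcs0 : cs ≠ c00 l i := by rw [hcs]; unfold c00; simp
  have hxcs : xx cs % 2 = 1 := by rw [hcs]; simp [xx]
  set M : ℕ := n - (2 * i * l + i + l) - 4 with hM
  set S : Finset (Cell l i →₀ ℕ) := finsuppAntidiag (univ.erase cs) M with hS
  have hcard : S.card = (n - 5).choose (2 * i * l + i + l - 1) := by
    rw [hS, card_finsuppAntidiag_nat_eq_choose, card_erase_of_mem (mem_univ _), card_univ]
    have h3 : Fintype.card (Cell l i) = 2 * i * l + i + l + 1 := by
      simp only [Fintype.card_sum, Fintype.card_prod, Fintype.card_fin]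
      ring
    rw [h3, Nat.add_sub_cancel]
    have e1 : 2 * i * l + i + l + M - 1 = n - 5 := by omega
    have e2 : n - 5 = M + (2 * i * l + i + l - 1) := by omega
    rw [e1, e2, Nat.choose_symm_add]
  -- the other negative entries
  set R : (Cell l i →₀ ℕ) → ℕ := fun v => ∑ c ∈ univ.erase cs, if xx c % 2 = 1 then v c + 1 else 0
    with hR
  have hx0 : xx (c00 l i) % 2 ≠ 1 := by simp [c00, xx]
  have hneg : ∀ (t : ℕ) (v : Cell l i →₀ ℕ),
      (∑ c, if xx c % 2 = 1 then mq cs t v c else 0) = t + R v := by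
    intro t v
    rw [← Finset.add_sum_erase univ _ (mem_univ cs), if_pos hxcs]
    have h1 : mq cs t v cs = t := by unfold mq; rw [if_pos rfl]
    rw [h1, hR]
    congr 1
    refine sum_congr rfl fun c hc => ?_
    have hc' := (mem_erase.1 hc).1
    by_cases hx : xx c % 2 = 1
    · rw [if_pos hx, if_pos hx]
      unfold mq
      rw [if_neg hc', if_neg (fun h : c = c00 l i => hx0 (by rw [← h]; exact hx))]
    · rw [if_neg hx, if_neg hx]
  have hpos : ∀ (t : ℕ) (v : Cell l i →₀ ℕ), 1 ≤ t → ∀ c, 1 ≤ mq cs t v c := by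
    intro t v ht c
    unfold mq
    split_ifs <;> omega
  have hsum : ∀ (t : ℕ), t ≤ 4 → ∀ v ∈ S, ∑ c, mq cs t v c = n := by
    intro t ht v hv
    rw [hS, mem_finsuppAntidiag] at hv
    rw [sum_mq cs hcs0 t ht v, hv.1]
    omega
  have hex : ∀ v : {v // v ∈ S}, ∃ (w : SP n) (t : ℕ)
      (e : (Σ c : Cell l i, Fin (mq cs t v.1 c)) ≃ Fin n), 1 ≤ t ∧
      Blt (mq cs t v.1) w e ∧ w ∈ DD n r := by
    rintro ⟨v, hv⟩
    obtain ⟨ρ, hρ1, hρ2, hρ⟩ : ∃ ρ, 1 ≤ ρ ∧ ρ ≤ 2 ∧ Even (ρ + R v) := by
      rcases Nat.even_or_odd (R v) with h | h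
      · exact ⟨2, by omega, le_rfl, by
          obtain ⟨k, hk⟩ := h
          exact ⟨k + 1, by omega⟩⟩
      · exact ⟨1, le_rfl, by omega, by
          obtain ⟨k, hk⟩ := h
          exact ⟨k + 1, by omega⟩⟩
    obtain ⟨w0, e0, hw0⟩ := exists_w (mq cs ρ v) (hsum ρ (by omega) v hv)
    obtain ⟨w1, e1, hw1⟩ := exists_w (mq cs (ρ + 2) v) (hsum (ρ + 2) (by omega) v hv)
    have hfl := flip hw0 hw1 cs hxcs ?_ ?_ ?_
    · have h5 : TSDG.invc w1.1 % 2 ≠ TSDG.invc w0.1 % 2 := by
        intro h5
        rw [← ZMod.natCast_eq_natCast_iff'] at h5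
        rw [h5] at hfl
        have h6 : (1 : ZMod 2) = 0 := by
          have := hfl
          rw [left_eq_add] at this
          exact this
        exact absurd h6 (by decide)
      by_cases h7 : TSDG.invc w0.1 % 2 = r
      · refine ⟨w0, ρ, e0, hρ1, hw0, ?_⟩
        rw [mem_DD, lenD_mod, hw0.negs, hneg]
        exact ⟨hρ, h7⟩
      · refine ⟨w1, ρ + 2, e1, by omega, hw1, ?_⟩
        rw [mem_DD, lenD_mod, hw1.negs, hneg]
        refine ⟨?_, by omega⟩
        obtain ⟨k, hk⟩ := hρ
        exact ⟨k + 1, by omega⟩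
    · unfold mq
      rw [if_pos rfl, if_pos rfl]
    · intro c
      have h22 : (2 : ZMod 2) = 0 := by decide
      unfold mq
      by_cases hc : c = cs
      · rw [if_pos hc, if_pos hc]
        push_cast
        rw [h22, add_zero]
      · rw [if_neg hc, if_neg hc]
        by_cases hc0 : c = c00 l i
        · rw [if_pos hc0, if_pos hc0]
          have : 4 - ρ = 4 - (ρ + 2) + 2 := by omega
          rw [this]
          push_cast
          rw [h22, add_zero]
        · rw [if_neg hc0, if_neg hc0]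
    · intro c hc hx
      unfold mq
      have hc0 : ¬ c = c00 l i := fun h => hx0 (by rw [← h]; exact hx)
      rw [if_neg hc, if_neg hc, if_neg hc0, if_neg hc0]
  choose W T E hT hB hD using hex
  rw [← hcard]
  have h1 : S.card = (univ : Finset {v // v ∈ S}).card := by simp
  rw [h1]
  unfold NN
  refine card_le_card_of_injOn W ?_ ?_
  · intro v _
    simp only [coe_filter, Set.mem_ofPred_eq]
    have d1 := ((hB v).des (hpos _ v.1 (hT v)) hi).2
    have d2 := ((hB v).ides (hpos _ v.1 (hT v)) hl).2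
    exact ⟨hD v, d2, d1⟩
  · intro v _ v' _ hvv
    have r1 := (hB v).recover (hpos _ v.1 (hT v)) hl hi
    have r2 := (hB v').recover (hpos _ v'.1 (hT v')) hl hi
    rw [hvv] at r1
    have h10 : ∀ c, mq cs (T v) v.1 c = mq cs (T v') v'.1 c := fun c => by rw [r1, r2]
    have ht : T v = T v' := by
      have := h10 cs
      unfold mq at this
      rwa [if_pos rfl, if_pos rfl] at this
    apply Subtype.ext
    ext c
    by_cases hc : c = cs
    · have z : ∀ u ∈ S, (u : Cell l i →₀ ℕ) cs = 0 := by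
        intro u hu
        rw [hS, mem_finsuppAntidiag] at hu
        by_contra hne
        have := hu.2 (Finsupp.mem_support_iff.2 hne)
        exact (mem_erase.1 this).1 rfl
      rw [hc, z _ v.2, z _ v'.2]
    · have := h10 c
      unfold mq at this
      rw [if_neg hc, if_neg hc, ht] at this
      split_ifs at this <;> omega

end Pool.Agent.TSDG
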