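import Mathlib
import Pool.Agent.Lib.MP_a0e11f_co.Uniq

/-!
# The upper bound for the number of elements with given descent numbers

The label matrix determines a signed permutation; the count.
-/

set_option autoImplicit false

open Finset

namespace Pool.Agent.TSDG

/-- the number of descents up to the position `p` -/
def tt {n : ℕ} (w : SP n) (p : ℕ) : ℕ :=
  ((range (p + 1)).filter fun i => line w (i + 1) < line w i).card

/-- the label of the position `p` -/
def aa {n : ℕ} (w : SP n) (p : Fin n) : ℕ := 2 * tt w p + (if w.2 p then 0 else 1)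

/-- the label matrix -/
def MM {n : ℕ} (w : SP n) (x y : ℕ) : ℕ :=
  (univ.filter fun p : Fin n => aa w p = x ∧ aa (inv w) (w.1 p) = y).card

theorem cnt_lt {α : Type} (S : Finset α) (f : α → ℕ) (y : ℕ) :
    (S.filter fun q => f q < y).card = ∑ z ∈ range y, (S.filter fun q => f q = z).card := by
  induction y with
  | zero => simp
  | succ y ih =>
    rw [sum_range_succ, ← ih, card_filter, card_filter, card_filter, ← sum_add_distrib]
    refine sum_congr rfl fun q _ => ?_
    split_ifs <;> omega

/-- two functions which are monotone for the same order and have equal fibre sizes agree -/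
theorem F1 {α : Type} (S : Finset α) (lt : α → α → Prop) (asym : ∀ p q, lt p q → ¬ lt q p)
    (f g : α → ℕ) (hf : ∀ p ∈ S, ∀ q ∈ S, f p < f q → lt p q)
    (hg : ∀ p ∈ S, ∀ q ∈ S, g p < g q → lt p q)
    (_tot : ∀ p ∈ S, ∀ q ∈ S, p ≠ q → lt p q ∨ lt q p)
    (hfib : ∀ y, (S.filter fun q => f q = y).card = (S.filter fun q => g q = y).card) :
    ∀ p ∈ S, f p = g p := by
  classical
  have hcnt : ∀ y, (S.filter fun q => f q < y).card = (S.filter fun q => g q < y).card := by
    intro y
    rw [cnt_lt, cnt_lt]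
    exact sum_congr rfl fun z _ => hfib z
  have key : ∀ (f : α → ℕ), (∀ p ∈ S, ∀ q ∈ S, f p < f q → lt p q) → ∀ p ∈ S, ∀ y,
      (f p < y ↔ (S.filter fun q => lt q p).card < (S.filter fun q => f q < y).card) := by
    intro f hf p hp y
    constructor
    · intro h
      refine card_lt_card ⟨?_, ?_⟩
      · intro q hq
        rw [mem_filter] at hq ⊢
        refine ⟨hq.1, ?_⟩
        by_contra hcon
        exact asym _ _ hq.2 (hf p hp q hq.1 (by omega))
      · intro hsub
        have h1 : p ∈ S.filter fun q => lt q p := hsub (mem_filter.2 ⟨hp, h⟩)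
        exact asym _ _ (mem_filter.1 h1).2 (mem_filter.1 h1).2
    · intro h
      by_contra hcon
      have hle : (S.filter fun q => f q < y).card ≤ (S.filter fun q => lt q p).card := by
        refine card_le_card ?_
        intro q hq
        rw [mem_filter] at hq ⊢
        exact ⟨hq.1, hf q hq.1 p hp (by omega)⟩
      omega
  intro p hp
  have h1 := key f hf p hp
  have h2 := key g hg p hp
  have h3 : ∀ y, f p < y ↔ g p < y := fun y => by rw [h1 y, h2 y, hcnt y]
  have h4 := (h3 (g p + 1)).2 (Nat.lt_succ_self _)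
  have h5 := (h3 (f p + 1)).1 (Nat.lt_succ_self _)
  omega

theorem tt_mono {n : ℕ} (w : SP n) {p q : ℕ} (h : p ≤ q) : tt w p ≤ tt w q := by
  unfold tt
  exact card_le_card (filter_subset_filter _ (range_mono (by omega)))

/-- without descents in between the entries increase -/
theorem val_lt {n : ℕ} (hn : 2 ≤ n) (w : SP n) {p q : Fin n} (hpq : p < q) (h : tt w p = tt w q) :
    val w p < val w q := by
  have hno : ∀ i, (p : ℕ) < i → i ≤ (q : ℕ) → line w i < line w (i + 1) := by
    intro i hi hiq
    by_contra hcon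
    have h1 := line_ne w i (by omega) hn
    have h2 : line w (i + 1) < line w i := by omega
    have h3 : tt w p < tt w q := by
      unfold tt
      refine card_lt_card ⟨filter_subset_filter _ (range_mono (by
        have : (p : ℕ) < q := hpq
        omega)), ?_⟩
      intro hsub
      have h4 : i ∈ (range ((p : ℕ) + 1)).filter fun i => line w (i + 1) < line w i :=
        hsub (mem_filter.2 ⟨mem_range.2 (by omega), h2⟩)
      have h5 := mem_range.1 (mem_filter.1 h4).1
      omega
    omega
  have hlt : (p : ℕ) < q := hpq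
  have hall : ∀ k, (p : ℕ) + 1 ≤ k → k ≤ (q : ℕ) → line w ((p : ℕ) + 1) < line w (k + 1) := by
    intro k hk
    induction k, hk using Nat.le_induction with
    | base => intro hq; exact hno _ (by omega) hq
    | succ k hk ih =>
      intro hq
      exact (ih (by omega)).trans (hno (k + 1) (by omega) hq)
  have h6 := hall q (by omega) le_rfl
  rw [line_succ w p p.2, line_succ w q q.2] at h6
  simpa only [Fin.eta] using h6

theorem aa_mono {n : ℕ} (hn : 2 ≤ n) (w : SP n) {p q : Fin n} (hpq : p ≤ q) : aa w p ≤ aa w q := by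
  rcases hpq.eq_or_lt with rfl | hlt
  · exact le_rfl
  · have h1 := tt_mono w (show (p : ℕ) ≤ q from hpq)
    rcases h1.eq_or_lt with h2 | h2
    · have h3 := val_lt hn w hlt h2
      unfold aa
      rw [h2]
      unfold val at h3
      split_ifs at h3 ⊢ <;> omega
    · unfold aa
      split_ifs <;> omega

/-- the order in which the values run through a label class -/
def ord {n : ℕ} (x : ℕ) (p q : Fin n) : Prop := if x % 2 = 1 then p < q else q < p

theorem ord_asym {n : ℕ} (x : ℕ) (p q : Fin n) (h : ord x p q) : ¬ ord x q p := by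
  unfold ord at *
  split_ifs at * with h1
  · exact not_lt.2 h.le
  · exact not_lt.2 h.le

theorem ord_tot {n : ℕ} (x : ℕ) (p q : Fin n) (h : p ≠ q) : ord x p q ∨ ord x q p := by
  unfold ord
  split_ifs with h1
  · exact lt_or_gt_of_ne h
  · exact (lt_or_gt_of_ne h).symm

theorem cell_mono {n : ℕ} (hn : 2 ≤ n) (w : SP n) {x : ℕ} {p q : Fin n} (hp : aa w p = x)
    (hq : aa w q = x) (h : w.1 p < w.1 q) : ord x p q := by
  have hne : p ≠ q := fun e => by subst e; exact lt_irrefl _ h
  have h1 : ∀ p q : Fin n, aa w p = x → aa w q = x → p < q →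
      (x % 2 = 1 → (w.1 p : ℕ) < w.1 q) ∧ (x % 2 = 0 → (w.1 q : ℕ) < w.1 p) := by
    intro p q hp hq hpq
    have ht : tt w p = tt w q := by
      unfold aa at hp hq
      have := tt_mono w (show (p : ℕ) ≤ q from hpq.le)
      split_ifs at hp hq <;> omega
    have hv := val_lt hn w hpq ht
    unfold aa at hp hq
    unfold val at hv
    split_ifs at hp hq hv <;> constructor <;> intro <;> omega
  have h' : (w.1 p : ℕ) < w.1 q := h
  unfold ord
  split_ifs with hx
  · rcases lt_or_gt_of_ne hne with h2 | h2
    · exact h2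
    · have := (h1 q p hq hp h2).1 hx
      omega
  · rcases lt_or_gt_of_ne hne with h2 | h2
    · have := (h1 p q hp hq h2).2 (by omega)
      omega
    · exact h2

theorem aa_bd {n : ℕ} (w : SP n) (p : Fin n) : aa w p < 2 * n + 2 := by
  have h : tt w p ≤ n := by
    unfold tt
    refine (card_filter_le _ _).trans ?_
    rw [card_range]
    omega
  unfold aa
  split_ifs <;> omega

theorem fib_MM {n : ℕ} (w : SP n) (x : ℕ) :
    (univ.filter fun p : Fin n => aa w p = x).card = ∑ y ∈ range (2 * n + 2), MM w x y := by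
  rw [card_eq_sum_card_fiberwise (f := fun p => aa (inv w) (w.1 p)) (t := range (2 * n + 2))]
  · refine sum_congr rfl fun y _ => ?_
    unfold MM
    rw [filter_filter]
  · intro p _
    exact mem_coe.2 (mem_range.2 (aa_bd _ _))

theorem step1 {n : ℕ} (hn : 2 ≤ n) {w v : SP n} (h : ∀ x y, MM w x y = MM v x y) :
    ∀ p, aa w p = aa v p := by
  intro p
  refine F1 univ (fun p q : Fin n => p < q) (fun p q h => not_lt.2 h.le) (aa w) (aa v)
    ?_ ?_ (fun p _ q _ hpq => lt_or_gt_of_ne hpq) ?_ p (mem_univ p)
  · intro p _ q _ hlt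
    by_contra hcon
    have := aa_mono hn w (not_lt.1 hcon)
    omega
  · intro p _ q _ hlt
    by_contra hcon
    have := aa_mono hn v (not_lt.1 hcon)
    omega
  · intro x
    rw [fib_MM, fib_MM]
    exact sum_congr rfl fun y _ => h x y

theorem MM_inv {n : ℕ} (w : SP n) (x y : ℕ) : MM (inv w) y x = MM w x y := by
  unfold MM
  rw [inv_inv]
  refine card_nbij' (fun q => w.1.symm q) (fun p => w.1 p) ?_ ?_ ?_ ?_
  · intro q hq
    simp only [coe_filter, mem_univ, true_and, Set.mem_ofPred_eq] at hq ⊢
    refine ⟨hq.2, ?_⟩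
    rw [Equiv.apply_symm_apply]
    exact hq.1
  · intro p hp
    simp only [coe_filter, mem_univ, true_and, Set.mem_ofPred_eq] at hp ⊢
    refine ⟨hp.2, ?_⟩
    have : (inv w).1 (w.1 p) = p := by simp [inv]
    rw [this]
    exact hp.1
  · intro q _; simp
  · intro p _; simp

theorem step2 {n : ℕ} (hn : 2 ≤ n) {w v : SP n} (h : ∀ x y, MM w x y = MM v x y) :
    ∀ p, aa (inv w) (w.1 p) = aa (inv v) (v.1 p) := by
  have h1 := step1 hn h
  have h1' : ∀ p, aa (inv w) p = aa (inv v) p :=
    step1 hn (fun x y => by rw [MM_inv, MM_inv, h y x])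
  intro p
  refine F1 (univ.filter fun q : Fin n => aa w q = aa w p) (ord (aa w p)) (ord_asym _)
    (fun q => aa (inv w) (w.1 q)) (fun q => aa (inv v) (v.1 q)) ?_ ?_
    (fun p _ q _ hpq => ord_tot _ p q hpq) ?_ p (mem_filter.2 ⟨mem_univ _, rfl⟩)
  · intro a ha b hb hlt
    refine cell_mono hn w (mem_filter.1 ha).2 (mem_filter.1 hb).2 ?_
    by_contra hcon
    have := aa_mono hn (inv w) (not_lt.1 hcon)
    omega
  · intro a ha b hb hlt
    refine cell_mono hn v ((h1 a).symm.trans (mem_filter.1 ha).2)
      ((h1 b).symm.trans (mem_filter.1 hb).2) ?_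
    by_contra hcon
    have := aa_mono hn (inv v) (not_lt.1 hcon)
    omega
  · intro y
    have e1 := h (aa w p) y
    unfold MM at e1
    rw [filter_filter, filter_filter]
    have e2 : (univ.filter fun q : Fin n => aa w q = aa w p ∧ aa (inv v) (v.1 q) = y) =
        univ.filter fun q : Fin n => aa v q = aa w p ∧ aa (inv v) (v.1 q) = y :=
      filter_congr fun q _ => by rw [h1 q]
    rw [e2]
    exact e1

theorem MM_inj {n : ℕ} (hn : 2 ≤ n) {w v : SP n} (h : ∀ x y, MM w x y = MM v x y) : w = v := by
  have h1 := step1 hn h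
  have h2 : ∀ q, aa w (w.1.symm q) = aa v (v.1.symm q) := by
    intro q
    have := step2 hn (w := inv w) (v := inv v) (fun x y => by rw [MM_inv, MM_inv, h y x]) q
    rw [inv_inv, inv_inv] at this
    exact this
  have h3 : w.1 = v.1 := by
    ext p
    refine F1 (univ.filter fun q : Fin n => aa w q = aa w p) (ord (aa w p)) (ord_asym _)
      (fun q => (w.1 q : ℕ)) (fun q => (v.1 q : ℕ)) ?_ ?_
      (fun p _ q _ hpq => ord_tot _ p q hpq) ?_ p (mem_filter.2 ⟨mem_univ _, rfl⟩)
    · intro a ha b hb hlt
      exact cell_mono hn w (mem_filter.1 ha).2 (mem_filter.1 hb).2 hlt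
    · intro a ha b hb hlt
      exact cell_mono hn v ((h1 a).symm.trans (mem_filter.1 ha).2)
        ((h1 b).symm.trans (mem_filter.1 hb).2) hlt
    · intro z
      have aux : ∀ u : SP n, (∀ q, aa w (w.1.symm q) = aa u (u.1.symm q)) → (∀ q, aa w q = aa u q) →
          ((univ.filter fun q : Fin n => aa w q = aa w p).filter fun q => (u.1 q : ℕ) = z).card =
            if hz : z < n then (if aa w (w.1.symm ⟨z, hz⟩) = aa w p then 1 else 0) else 0 := by
        intro u hu hu'
        by_cases hz : z < n
        · rw [dif_pos hz]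
          by_cases hc : aa w (w.1.symm ⟨z, hz⟩) = aa w p
          · rw [if_pos hc, card_eq_one]
            refine ⟨u.1.symm ⟨z, hz⟩, ?_⟩
            ext q
            rw [mem_filter, mem_filter, mem_singleton]
            constructor
            · rintro ⟨-, hq⟩
              rw [Equiv.eq_symm_apply]
              exact Fin.ext hq
            · intro hq
              subst hq
              refine ⟨⟨mem_univ _, ?_⟩, by rw [Equiv.apply_symm_apply]⟩
              rw [hu' _, ← hu, hc]
          · rw [if_neg hc, card_eq_zero, filter_eq_empty_iff]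
            intro q hq hqz
            have e : q = u.1.symm ⟨z, hz⟩ := by
              rw [Equiv.eq_symm_apply]
              exact Fin.ext hqz
            have := (mem_filter.1 hq).2
            rw [e, hu' _, ← hu] at this
            exact hc this
        · rw [dif_neg hz, card_eq_zero, filter_eq_empty_iff]
          intro q _ hqz
          exact hz (by rw [← hqz]; exact (u.1 q).2)
      rw [aux w (fun _ => rfl) (fun _ => rfl), aux v h2 h1]
  have h4 : w.2 = v.2 := by
    funext p
    have := h1 p
    unfold aa at this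
    cases hw : w.2 p <;> cases hv : v.2 p <;> rw [hw, hv] at this <;> simp at this ⊢ <;> omega
  exact Prod.ext h3 h4

theorem tt_le {n : ℕ} (w : SP n) (p : Fin n) : tt w p ≤ des w := by
  unfold tt des
  refine card_le_card (filter_subset_filter _ ?_)
  intro i hi
  rw [mem_range] at hi ⊢
  have := p.2
  omega

theorem aa_par {n : ℕ} (w : SP n) (p : Fin n) : aa w p % 2 = aa (inv w) (w.1 p) % 2 := by
  have h : (inv w).2 (w.1 p) = w.2 p := by simp [inv]
  unfold aa
  rw [h]
  split_ifs <;> omega

theorem aa_le {n : ℕ} (w : SP n) (p : Fin n) : aa w p ≤ 2 * des w + aa w p % 2 := by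
  have := tt_le w p
  unfold aa
  split_ifs <;> omega

theorem aa_zero {n : ℕ} (hn : 2 ≤ n) (w : SP n) (p : Fin n) (h : aa w p = 0) : (p : ℕ) = 0 := by
  unfold aa at h
  have ht : tt w p = 0 := by omega
  have hs : w.2 p = true := by
    by_contra hcon
    rw [if_neg hcon] at h
    omega
  by_contra hp
  have hmono : ∀ i ≤ (p : ℕ), line w i < line w (i + 1) := by
    intro i hi
    unfold tt at ht
    rw [card_eq_zero, filter_eq_empty_iff] at ht
    have h1 := ht (mem_range.2 (by omega : i < (p : ℕ) + 1))
    have h2 := line_ne w i (by omega) hn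
    omega
  have h0 := hmono 0 (by omega)
  have h1 := hmono 1 (by omega)
  have e0 : line w 0 = -line w 2 := by simp [line]
  have hpos : ∀ q, 1 ≤ q → q ≤ (p : ℕ) → 0 < line w (q + 1) := by
    intro q hq
    induction q, hq using Nat.le_induction with
    | base =>
      intro _
      simp only [zero_add] at h0
      have e1 : (1 : ℕ) + 1 = 2 := rfl
      rw [e1] at h1 ⊢
      omega
    | succ q hq ih =>
      intro hqp
      have h2 := ih (by omega)
      have h3 := hmono (q + 1) hqp
      omega
  have h4 := hpos p (by omega) le_rfl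
  rw [line_succ w p p.2] at h4
  unfold val at h4
  simp only [Fin.eta] at h4
  rw [if_pos hs] at h4
  omega

theorem MM_par {n : ℕ} (w : SP n) {x y : ℕ} (h : x % 2 ≠ y % 2) : MM w x y = 0 := by
  unfold MM
  rw [card_eq_zero, filter_eq_empty_iff]
  rintro p - ⟨h1, h2⟩
  have := aa_par w p
  rw [h1, h2] at this
  exact h this

theorem MM_x {n : ℕ} (w : SP n) {x y : ℕ} (h : 2 * des w + x % 2 < x) : MM w x y = 0 := by
  unfold MM
  rw [card_eq_zero, filter_eq_empty_iff]
  rintro p - ⟨h1, h2⟩
  have := aa_le w p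
  rw [h1] at this
  omega

theorem MM_y {n : ℕ} (w : SP n) {x y : ℕ} (h : 2 * ides w + y % 2 < y) : MM w x y = 0 := by
  unfold MM
  rw [card_eq_zero, filter_eq_empty_iff]
  rintro p - ⟨h1, h2⟩
  have := aa_le (inv w) (w.1 p)
  rw [h2] at this
  unfold ides at h
  omega

theorem MM_le {n : ℕ} (w : SP n) (x y : ℕ) : MM w x y ≤ n := by
  unfold MM
  exact (card_filter_le _ _).trans (by simp)

theorem MM_x0 {n : ℕ} (hn : 2 ≤ n) (w : SP n) (y : ℕ) : MM w 0 y ≤ 1 := by
  unfold MM
  rw [card_le_one]
  intro p hp q hq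
  rw [mem_filter] at hp hq
  apply Fin.ext
  rw [aa_zero hn w p hp.2.1, aa_zero hn w q hq.2.1]

theorem MM_y0 {n : ℕ} (hn : 2 ≤ n) (w : SP n) (x : ℕ) : MM w x 0 ≤ 1 := by
  unfold MM
  rw [card_le_one]
  intro p hp q hq
  rw [mem_filter] at hp hq
  apply w.1.injective
  apply Fin.ext
  rw [aa_zero hn (inv w) (w.1 p) hp.2.2, aa_zero hn (inv w) (w.1 q) hq.2.2]

theorem upper (n k l : ℕ) (hn : 2 ≤ n) :
    (univ.filter fun w : SP n => ides w = k ∧ des w = l).card ≤
      2 ^ (k + l + 2) * (n + 1) ^ ((l + 1) * (k + 1) + l * k) := by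
  classical
  let F : SP n → (Fin (l + 1) × Fin (k + 1) → Fin (n + 1)) × (Fin l × Fin k → Fin (n + 1)) ×
      (Fin (k + 1) → Fin 2) × (Fin (l + 1) → Fin 2) := fun w =>
    (fun q => ⟨MM w (2 * q.1 + 1) (2 * q.2 + 1), Nat.lt_succ_of_le (MM_le w _ _)⟩,
     fun q => ⟨MM w (2 * q.1 + 2) (2 * q.2 + 2), Nat.lt_succ_of_le (MM_le w _ _)⟩,
     fun q => ⟨MM w 0 (2 * q), Nat.lt_succ_of_le (MM_x0 hn w _)⟩,
     fun q => ⟨MM w (2 * q) 0, Nat.lt_succ_of_le (MM_y0 hn w _)⟩)
  have hF : Set.InjOn F (univ.filter fun w : SP n => ides w = k ∧ des w = l : Finset (SP n)) := by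
    intro w hw v hv hwv
    rw [mem_coe, mem_filter] at hw hv
    obtain ⟨-, hwk, hwl⟩ := hw
    obtain ⟨-, hvk, hvl⟩ := hv
    simp only [F, Prod.mk.injEq] at hwv
    obtain ⟨h1, h2, h3, h4⟩ := hwv
    refine MM_inj hn fun x y => ?_
    by_cases hpar : x % 2 = y % 2
    swap
    · rw [MM_par w hpar, MM_par v hpar]
    by_cases hx : 2 * l + x % 2 < x
    · rw [MM_x w (by rw [hwl]; exact hx), MM_x v (by rw [hvl]; exact hx)]
    by_cases hy : 2 * k + y % 2 < y
    · rw [MM_y w (by rw [hwk]; exact hy), MM_y v (by rw [hvk]; exact hy)]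
    rcases Nat.mod_two_eq_zero_or_one x with hx2 | hx2
    · rcases Nat.eq_zero_or_pos x with hx0 | hx0
      · subst hx0
        have := congrFun h3 ⟨y / 2, by omega⟩
        simp only [Fin.mk.injEq] at this
        have e : 2 * (y / 2) = y := by omega
        rwa [e] at this
      · rcases Nat.eq_zero_or_pos y with hy0 | hy0
        · subst hy0
          have := congrFun h4 ⟨x / 2, by omega⟩
          simp only [Fin.mk.injEq] at this
          have e : 2 * (x / 2) = x := by omega
          rwa [e] at this
        · have := congrFun h2 (⟨x / 2 - 1, by omega⟩, ⟨y / 2 - 1, by omega⟩)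
          simp only [Fin.mk.injEq] at this
          have e : 2 * (x / 2 - 1) + 2 = x := by omega
          have e' : 2 * (y / 2 - 1) + 2 = y := by omega
          rwa [e, e'] at this
    · have := congrFun h1 (⟨x / 2, by omega⟩, ⟨y / 2, by omega⟩)
      simp only [Fin.mk.injEq] at this
      have e : 2 * (x / 2) + 1 = x := by omega
      have e' : 2 * (y / 2) + 1 = y := by omega
      rwa [e, e'] at this
  refine (card_le_card_of_injOn F (fun w _ => mem_coe.2 (mem_univ _)) hF).trans (le_of_eq ?_)
  rw [card_univ]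
  simp only [Fintype.card_prod, Fintype.card_fun, Fintype.card_fin]
  rw [show k + l + 2 = (k + 1) + (l + 1) by ring, pow_add 2, pow_add (n + 1)]
  ring

end Pool.Agent.TSDG
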