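import Mathlib
import Pool.Agent.Lib.MP_a0e11f_co.EvUpper

/-!
# The number of elements with given descents, sharper bound (helper97)
-/

set_option autoImplicit false

open Finset

namespace Pool.Agent.TSDG.Up2

section

variable {n : ℕ}

/-- row `0` has at most one entry, at the position `0` -/
theorem MM_row0 (hn : 2 ≤ n) (w : SP n) (y : ℕ) : MM w 0 y =
    if aa w ⟨0, by omega⟩ = 0 ∧ aa (inv w) (w.1 ⟨0, by omega⟩) = y then 1 else 0 := by
  unfold MM
  split_ifs with h
  · rw [card_eq_one]
    refine ⟨⟨0, by omega⟩, ?_⟩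
    ext p
    rw [mem_filter, mem_singleton]
    constructor
    · rintro ⟨-, h1, -⟩
      exact Fin.ext (aa_zero hn w p h1)
    · rintro rfl
      exact ⟨mem_univ _, h⟩
  · rw [card_eq_zero, filter_eq_empty_iff]
    rintro p - ⟨h1, h2⟩
    have h3 : p = (⟨0, by omega⟩ : Fin n) := Fin.ext (aa_zero hn w p h1)
    rw [h3] at h1 h2
    exact h ⟨h1, h2⟩

theorem MM_col0 (hn : 2 ≤ n) (w : SP n) (x : ℕ) : MM w x 0 =
    if aa (inv w) ⟨0, by omega⟩ = 0 ∧ aa w (w.1.symm ⟨0, by omega⟩) = x then 1 else 0 := by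
  have h := MM_row0 hn (inv w) x
  rw [← MM_inv w x 0, h]
  have e : (inv w).1 ⟨0, by omega⟩ = w.1.symm ⟨0, by omega⟩ := rfl
  rw [inv_inv, e]

/-- the data of row `0` -/
def r0 (hn : 2 ≤ n) (k : ℕ) (w : SP n) : Option (Fin (k + 1)) :=
  if h : aa w ⟨0, by omega⟩ = 0 ∧ aa (inv w) (w.1 ⟨0, by omega⟩) / 2 < k + 1 then
    some ⟨aa (inv w) (w.1 ⟨0, by omega⟩) / 2, h.2⟩ else none

theorem half_lt (hn : 2 ≤ n) {k : ℕ} {w : SP n} (hk : ides w = k)
    (h : aa w ⟨0, by omega⟩ = 0) : aa (inv w) (w.1 ⟨0, by omega⟩) / 2 < k + 1 ∧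
      2 * (aa (inv w) (w.1 ⟨0, by omega⟩) / 2) = aa (inv w) (w.1 ⟨0, by omega⟩) := by
  have h1 := aa_par w ⟨0, by omega⟩
  have h2 := aa_le (inv w) (w.1 ⟨0, by omega⟩)
  rw [h] at h1
  have h3 : des (inv w) = k := hk
  rw [h3] at h2
  omega

theorem row_eq (hn : 2 ≤ n) {k : ℕ} {w v : SP n} (hw : ides w = k) (hv : ides v = k)
    (h : r0 hn k w = r0 hn k v) (y : ℕ) : MM w 0 y = MM v 0 y := by
  rw [MM_row0 hn, MM_row0 hn]
  unfold r0 at h
  by_cases h1 : aa w ⟨0, by omega⟩ = 0
  · obtain ⟨a1, a2⟩ := half_lt hn hw h1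
    rw [dif_pos ⟨h1, a1⟩] at h
    by_cases h2 : aa v ⟨0, by omega⟩ = 0
    · obtain ⟨b1, b2⟩ := half_lt hn hv h2
      rw [dif_pos ⟨h2, b1⟩] at h
      simp only [Option.some.injEq, Fin.mk.injEq] at h
      have h3 : aa (inv w) (w.1 ⟨0, by omega⟩) = aa (inv v) (v.1 ⟨0, by omega⟩) := by omega
      rw [h3]
      simp only [h1, h2, true_and]
    · rw [dif_neg (fun hc => h2 hc.1)] at h
      exact absurd h (by simp)
  · rw [dif_neg (fun hc => h1 hc.1)] at h
    by_cases h2 : aa v ⟨0, by omega⟩ = 0
    · obtain ⟨b1, b2⟩ := half_lt hn hv h2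
      rw [dif_pos ⟨h2, b1⟩] at h
      exact absurd h (by simp)
    · rw [if_neg (fun hc => h1 hc.1), if_neg (fun hc => h2 hc.1)]

theorem col_eq (hn : 2 ≤ n) {l : ℕ} {w v : SP n} (hw : des w = l) (hv : des v = l)
    (h : r0 hn l (inv w) = r0 hn l (inv v)) (x : ℕ) : MM w x 0 = MM v x 0 := by
  rw [← MM_inv w x 0, ← MM_inv v x 0]
  refine row_eq hn (k := l) ?_ ?_ h x
  · unfold ides; rw [inv_inv]; exact hw
  · unfold ides; rw [inv_inv]; exact hv

/-- the main cells -/
abbrev Cell (k l : ℕ) : Type := (Fin (l + 1) × Fin (k + 1)) ⊕ (Fin l × Fin k)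

/-- the index of a main cell -/
def emb {k l : ℕ} : Cell k l → ℕ × ℕ
  | Sum.inl c => (2 * (c.1 : ℕ) + 1, 2 * (c.2 : ℕ) + 1)
  | Sum.inr c => (2 * (c.1 : ℕ) + 2, 2 * (c.2 : ℕ) + 2)

theorem emb_inj {k l : ℕ} : Function.Injective (emb : Cell k l → ℕ × ℕ) := by
  rintro (⟨a, b⟩ | ⟨a, b⟩) (⟨a', b'⟩ | ⟨a', b'⟩) h <;> simp only [emb, Prod.mk.injEq] at h
  · have h1 : a = a' := Fin.ext (by omega)
    have h2 : b = b' := Fin.ext (by omega)
    rw [h1, h2]
  · omega
  · omega
  · have h1 : a = a' := Fin.ext (by omega)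
    have h2 : b = b' := Fin.ext (by omega)
    rw [h1, h2]

/-- the cells which are not main, not in row `0` and not in column `0` are empty -/
theorem MM_rest {k l : ℕ} {w : SP n} (hwk : ides w = k) (hwl : des w = l) {x y : ℕ}
    (hx0 : x ≠ 0) (hy0 : y ≠ 0) (h : ∀ c : Cell k l, emb c ≠ (x, y)) : MM w x y = 0 := by
  by_cases hpar : x % 2 = y % 2
  swap
  · exact MM_par w hpar
  by_cases hx : 2 * l + x % 2 < x
  · exact MM_x w (by rw [hwl]; exact hx)
  by_cases hy : 2 * k + y % 2 < y
  · exact MM_y w (by rw [hwk]; exact hy)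
  exfalso
  rcases Nat.mod_two_eq_zero_or_one x with hx2 | hx2
  · refine h (Sum.inr (⟨x / 2 - 1, by omega⟩, ⟨y / 2 - 1, by omega⟩)) ?_
    simp only [emb, Prod.mk.injEq]
    omega
  · refine h (Sum.inl (⟨x / 2, by omega⟩, ⟨y / 2, by omega⟩)) ?_
    simp only [emb, Prod.mk.injEq]
    omega

theorem total {k l : ℕ} {w : SP n} (hwk : ides w = k) (hwl : des w = l) :
    n = (∑ c : Cell k l, MM w (emb c).1 (emb c).2) +
      ∑ q ∈ (range (2 * n + 2) ×ˢ range (2 * n + 2)).filter (fun q => q.1 = 0 ∨ q.2 = 0),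
        MM w q.1 q.2 := by
  classical
  set I := range (2 * n + 2) ×ˢ range (2 * n + 2) with hI
  have h1 : n = ∑ q ∈ I, MM w q.1 q.2 := by
    have h2 := card_eq_sum_card_fiberwise (s := (univ : Finset (Fin n)))
      (f := fun p => (aa w p, aa (inv w) (w.1 p))) (t := I) (fun p _ => by
        rw [mem_coe, hI, mem_product, mem_range, mem_range]
        exact ⟨aa_bd w p, aa_bd (inv w) (w.1 p)⟩)
    rw [card_univ, Fintype.card_fin] at h2
    conv_lhs => rw [h2]
    refine sum_congr rfl fun q _ => ?_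
    unfold MM
    congr 1
    ext p
    simp only [mem_filter, mem_univ, true_and, Prod.ext_iff]
  have h3 := sum_filter_add_sum_filter_not I (fun q => q.1 = 0 ∨ q.2 = 0)
    (fun q => MM w q.1 q.2)
  have h4 : ∑ q ∈ I.filter (fun q => ¬ (q.1 = 0 ∨ q.2 = 0)), MM w q.1 q.2 =
      ∑ c : Cell k l, MM w (emb c).1 (emb c).2 := by
    rw [← sum_image (s := (univ : Finset (Cell k l))) (g := emb)
      (f := fun q => MM w q.1 q.2) (fun a _ b _ hab => emb_inj hab)]
    symm
    apply sum_subset
    · intro q hq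
      rw [mem_image] at hq
      obtain ⟨c, -, rfl⟩ := hq
      have hl := des_le w
      have hk := des_le (inv w)
      have hk' : des (inv w) = k := hwk
      rcases c with ⟨a, b⟩ | ⟨a, b⟩
      · have := a.2; have := b.2
        rw [mem_filter, hI, mem_product, mem_range, mem_range]
        simp only [emb]
        omega
      · have := a.2; have := b.2
        rw [mem_filter, hI, mem_product, mem_range, mem_range]
        simp only [emb]
        omega
    · intro q hq hq2
      rw [mem_filter] at hq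
      have hq3 := hq.2
      push Not at hq3
      refine MM_rest hwk hwl hq3.1 hq3.2 fun c hc => hq2 ?_
      rw [mem_image]
      exact ⟨c, mem_univ _, hc⟩
  rw [h4] at h3
  omega

theorem upper2 (n k l : ℕ) (hn : 2 ≤ n) :
    (univ.filter fun w : SP n => ides w = k ∧ des w = l).card ≤
      (k + 2) * (l + 2) * (n + (2 * k * l + k + l)).choose (2 * k * l + k + l) := by
  classical
  set S := univ.filter fun w : SP n => ides w = k ∧ des w = l with hS
  set g : SP n → Option (Fin (k + 1)) × Option (Fin (l + 1)) :=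
    fun w => (r0 hn k w, r0 hn l (inv w)) with hg
  set q := 2 * k * l + k + l with hq
  have hcard : Fintype.card (Cell k l) = q + 1 := by
    simp only [Fintype.card_sum, Fintype.card_prod, Fintype.card_fin]
    rw [hq]; ring
  have hfib : ∀ c, (S.filter fun w => g w = c).card ≤ (n + q).choose q := by
    intro c
    rcases (S.filter fun w => g w = c).eq_empty_or_nonempty with he | ⟨w0, hw0⟩
    · rw [he]; simp
    · rw [mem_filter, hS, mem_filter] at hw0
      obtain ⟨⟨-, hk0, hl0⟩, hg0⟩ := hw0
      set m := ∑ c : Cell k l, MM w0 (emb c).1 (emb c).2 with hm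
      have ht0 := total hk0 hl0
      have hmn : m ≤ n := by rw [hm]; omega
      have hle : (S.filter fun w => g w = c).card ≤
          ((univ : Finset (Cell k l)).finsuppAntidiag m).card := by
        refine card_le_card_of_injOn
          (fun w => Finsupp.equivFunOnFinite.symm fun c => MM w (emb c).1 (emb c).2) ?_ ?_
        · intro w hw
          rw [mem_coe, mem_filter, hS, mem_filter] at hw
          obtain ⟨⟨-, hk1, hl1⟩, hg1⟩ := hw
          rw [mem_coe, mem_finsuppAntidiag]
          refine ⟨?_, subset_univ _⟩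
          have hgg : g w = g w0 := hg1.trans hg0.symm
          simp only [hg, Prod.mk.injEq] at hgg
          have hr := row_eq hn hk1 hk0 hgg.1
          have hc := col_eq hn hl1 hl0 hgg.2
          have ht := total hk1 hl1
          have hsame : ∑ q ∈ (range (2 * n + 2) ×ˢ range (2 * n + 2)).filter
              (fun q => q.1 = 0 ∨ q.2 = 0), MM w q.1 q.2 =
              ∑ q ∈ (range (2 * n + 2) ×ˢ range (2 * n + 2)).filter
              (fun q => q.1 = 0 ∨ q.2 = 0), MM w0 q.1 q.2 := by
            refine sum_congr rfl fun q hq => ?_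
            rw [mem_filter] at hq
            rcases hq.2 with h | h
            · rw [h]; exact hr _
            · rw [h]; exact hc _
          have : (∑ c : Cell k l, MM w (emb c).1 (emb c).2) = m := by omega
          simpa using this
        · intro w hw v hv hwv
          rw [mem_coe, mem_filter, hS, mem_filter] at hw hv
          obtain ⟨⟨-, hk1, hl1⟩, hg1⟩ := hw
          obtain ⟨⟨-, hk2, hl2⟩, hg2⟩ := hv
          have hgg : g w = g v := hg1.trans hg2.symm
          simp only [hg, Prod.mk.injEq] at hgg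
          have hr := row_eq hn hk1 hk2 hgg.1
          have hc := col_eq hn hl1 hl2 hgg.2
          have hF : (fun c : Cell k l => MM w (emb c).1 (emb c).2) =
              fun c => MM v (emb c).1 (emb c).2 := Finsupp.equivFunOnFinite.symm.injective hwv
          refine MM_inj hn fun x y => ?_
          by_cases hx0 : x = 0
          · rw [hx0]; exact hr y
          by_cases hy0 : y = 0
          · rw [hy0]; exact hc x
          by_cases hex : ∃ c : Cell k l, emb c = (x, y)
          · obtain ⟨c, hc⟩ := hex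
            have h5 := congrFun hF c
            simp only [hc] at h5
            exact h5
          · push Not at hex
            rw [MM_rest hk1 hl1 hx0 hy0 hex, MM_rest hk2 hl2 hx0 hy0 hex]
      refine hle.trans ?_
      rw [card_finsuppAntidiag_nat_eq_choose, card_univ, hcard]
      have e1 : q + 1 + m - 1 = m + q := by omega
      rw [e1, Nat.choose_symm_add]
      exact Nat.choose_le_choose q (by omega)
  calc S.card = ∑ c ∈ (univ : Finset (Option (Fin (k + 1)) × Option (Fin (l + 1)))),
        (S.filter fun w => g w = c).card :=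
        card_eq_sum_card_fiberwise fun w _ => mem_coe.2 (mem_univ _)
    _ ≤ ∑ _c ∈ (univ : Finset (Option (Fin (k + 1)) × Option (Fin (l + 1)))),
        (n + q).choose q := sum_le_sum fun c _ => hfib c
    _ = (k + 2) * (l + 2) * (n + q).choose q := by
        rw [sum_const, card_univ]
        simp only [Fintype.card_prod, Fintype.card_option, Fintype.card_fin, smul_eq_mul]

end

end Pool.Agent.TSDG.Up2
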