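import Mathlib
import Pool.Agent.Lib.MP_a0e11f_co.EvUp2
import Pool.Agent.Lib.MP_a0e11f_co.EvLow2
import Pool.Agent.Lib.MP_a0e11f_co.EvFin2

set_option autoImplicit false

open Finset

namespace Pool.Agent.TSDG

/-- the upper bound over all signed permutations gives the one over `DD n r` -/
theorem ev2_card_le (n r k l B : ℕ)
    (h : (univ.filter fun w : SP n => ides w = k ∧ des w = l).card ≤ B) :
    ((DD n r).filter fun w => ides w = k ∧ des w = l).card ≤ B :=
  (card_le_card (filter_subset_filter _ (subset_univ _))).trans h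

theorem final2 (i j r n : ℕ) (hi : 1 ≤ i) (hr : r < 2) (hn : (4 * (i + j + 1)) ^ 8 ≤ n)
    (γ : ℕ → ℕ → ℤ)
    (hγ : ∀ i j, 2 * i + j ≤ n → (NN n r i (i + j) : ℤ) ≤ γ i j +
      ∑ a ∈ range (i + 1), ∑ b ∈ range (i + 1), if 1 ≤ a + b ∧ a + b ≤ i then
        (4 * (j + 2 * a + 1) ^ a * (n + 1) ^ b * NN n r (i - a - b) (i + j + a - b) : ℤ) else 0) :
    0 < γ i j :=
  ev2_final_of (fun n r k l hn => ev2_card_le n r k l _ (Up2.upper2 n k l hn))
    (fun i l r n hi hl hr hn => lower2 i l r n hi hl hr hn) i j r n hi hr hn γ hγ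

end Pool.Agent.TSDG
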