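import Mathlib
import Pool.Agent.Lib.MP_a0e11f_co.EvDefs

/-!
# The gamma coefficients and the numbers `N(k,l)` (typed by helper95)
-/

set_option autoImplicit false

open Finset

namespace Pool.Agent.TSDG

noncomputable section

theorem dickB (j : ℕ) : ∃ c : ℕ → ℤ, c 0 = 1 ∧ (∀ a, |c a| ≤ 2 * (j + 1) ^ a) ∧
    ∀ (R : Type) [CommRing R] (x y : R), AA j x y =
      ∑ a ∈ range (j / 2 + 1), (c a : R) * ((x * y) ^ a * (x + y) ^ (j - 2 * a)) := by
  induction j using Nat.strong_induction_on with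
  | _ j ih =>
    have hpow : ∀ (j a : ℕ), (1 : ℤ) ≤ ((j : ℤ) + 1) ^ a := fun j a =>
      one_le_pow₀ (by omega)
    rcases Nat.lt_or_ge j 3 with hj | hj
    · interval_cases j
      · refine ⟨fun _ => 1, rfl, fun a => ?_, fun R _ x y => by simp [AA]⟩
        have := hpow 0 a
        rw [abs_one]; push_cast at *; linarith
      · refine ⟨fun _ => 1, rfl, fun a => ?_, fun R _ x y => by simp [AA]⟩
        have := hpow 1 a
        rw [abs_one]; push_cast at *; linarith
      · refine ⟨fun a => if a = 0 then 1 else -2, rfl, fun a => ?_, fun R _ x y => ?_⟩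
        · have := hpow 2 a
          have h2 : |(if a = 0 then 1 else -2 : ℤ)| ≤ 2 := by split_ifs <;> norm_num
          push_cast at *; linarith
        · simp [AA, sum_range_succ]
          ring
    · obtain ⟨c, c0, c1, hc⟩ := ih (j - 1) (by omega)
      obtain ⟨d, d0, d1, hd⟩ := ih (j - 2) (by omega)
      refine ⟨fun a => (if a ≤ (j - 1) / 2 then c a else 0) - (if a = 0 then 0 else d (a - 1)),
        by simp [c0], ?_, ?_⟩
      · intro a
        have hj1 : (((j - 1 : ℕ) : ℤ) + 1) = j := by omega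
        have hj2 : (((j - 2 : ℕ) : ℤ) + 1) = (j : ℤ) - 1 := by omega
        have hj3 : (3 : ℤ) ≤ j := by omega
        have b1 : |(if a ≤ (j - 1) / 2 then c a else 0 : ℤ)| ≤ 2 * (j : ℤ) ^ a := by
          split_ifs
          · have := c1 a; rwa [hj1] at this
          · rw [abs_zero]; positivity
        rcases Nat.eq_zero_or_pos a with rfl | ha
        · simp only [if_true, sub_zero]
          refine b1.trans ?_
          simp
        · obtain ⟨e, rfl⟩ : ∃ e, a = e + 1 := ⟨a - 1, by omega⟩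
          change |(if e + 1 ≤ (j - 1) / 2 then c (e + 1) else 0) -
            (if e + 1 = 0 then 0 else d (e + 1 - 1))| ≤ _
          rw [if_neg (Nat.succ_ne_zero e)]
          have b2 : |d (e + 1 - 1)| ≤ 2 * ((j : ℤ) - 1) ^ e := by
            have := d1 e; rw [hj2] at this; simpa using this
          refine (abs_sub _ _).trans ((add_le_add b1 b2).trans ?_)
          have b3 : (j : ℤ) ^ e ≤ ((j : ℤ) + 1) ^ e := pow_le_pow_left₀ (by omega) (by omega) e
          have b4 : ((j : ℤ) - 1) ^ e ≤ ((j : ℤ) + 1) ^ e :=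
            pow_le_pow_left₀ (by omega) (by omega) e
          rw [pow_succ, pow_succ]
          nlinarith
      · intro R _ x y
        have e1 : AA j x y = (x + y) * AA (j - 1) x y - x * y * AA (j - 2) x y := by
          obtain ⟨m, rfl⟩ : ∃ m, j = m + 3 := ⟨j - 3, by omega⟩
          simp only [AA]
          rw [if_neg (by omega), if_neg (by omega), if_neg (by omega)]
          have h1 : m + 3 - 1 = m + 2 := rfl
          have h2 : m + 3 - 2 = m + 1 := rfl
          rw [h1, h2]; ring
        rw [e1, hc, hd]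
        have e2 : (x + y) * ∑ a ∈ range ((j - 1) / 2 + 1),
            (c a : R) * ((x * y) ^ a * (x + y) ^ (j - 1 - 2 * a)) =
            ∑ a ∈ range (j / 2 + 1), ((if a ≤ (j - 1) / 2 then c a else 0 : ℤ) : R) *
              ((x * y) ^ a * (x + y) ^ (j - 2 * a)) := by
          rw [mul_sum]
          have hsub : range ((j - 1) / 2 + 1) ⊆ range (j / 2 + 1) :=
            range_subset_range.2 (by omega)
          rw [← sum_subset hsub]
          · refine sum_congr rfl fun a ha => ?_
            have ha' : a ≤ (j - 1) / 2 := by have := mem_range.1 ha; omega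
            rw [if_pos ha']
            have h3 : j - 2 * a = (j - 1 - 2 * a) + 1 := by omega
            rw [h3, pow_succ]; ring
          · intro a _ ha
            have ha' : ¬ a ≤ (j - 1) / 2 := by
              intro h; exact ha (mem_range.2 (by omega))
            rw [if_neg ha']; simp
        have e3 : x * y * ∑ a ∈ range ((j - 2) / 2 + 1),
            (d a : R) * ((x * y) ^ a * (x + y) ^ (j - 2 - 2 * a)) =
            ∑ a ∈ range (j / 2 + 1), ((if a = 0 then 0 else d (a - 1) : ℤ) : R) *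
              ((x * y) ^ a * (x + y) ^ (j - 2 * a)) := by
          have h4 : j / 2 + 1 = ((j - 2) / 2 + 1) + 1 := by omega
          rw [h4, sum_range_succ' _ ((j - 2) / 2 + 1)]
          simp only [if_true, Int.cast_zero, zero_mul, add_zero, Nat.succ_ne_zero, if_false,
            Nat.add_sub_cancel]
          rw [mul_sum]
          refine sum_congr rfl fun a ha => ?_
          have h5 : j - 2 * (a + 1) = j - 2 - 2 * a := by omega
          rw [h5, pow_succ]; ring
        rw [e2, e3, ← sum_sub_distrib]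
        refine sum_congr rfl fun a _ => ?_
        push_cast; ring

variable {R : Type} [CommRing R] {n : ℕ} {s t : R}

theorem gsum_sum {ι : Type} (A : Finset ι) (c : ι → ℕ → ℕ → ℤ) :
    gsum n (fun i j => ∑ a ∈ A, c a i j) s t = ∑ a ∈ A, gsum n (c a) s t := by
  unfold gsum
  conv_rhs => rw [sum_comm]
  refine sum_congr rfl fun i _ => ?_
  conv_rhs => rw [sum_comm]
  refine sum_congr rfl fun j _ => ?_
  split_ifs
  · push_cast; rw [sum_mul]
  · simp

theorem gsum_smul (z : ℤ) (c : ℕ → ℕ → ℤ) :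
    gsum n (fun i j => z * c i j) s t = (z : R) * gsum n c s t := by
  unfold gsum
  rw [mul_sum]
  refine sum_congr rfl fun i _ => ?_
  rw [mul_sum]
  refine sum_congr rfl fun j _ => ?_
  split_ifs
  · push_cast; ring
  · simp

theorem gsum_mono {i j : ℕ} (h : 2 * i + j ≤ n) :
    gsum n (fun a b => if i = a ∧ b = j then 1 else 0) s t = mono n i j s t := by
  unfold gsum
  rw [sum_eq_single_of_mem i (mem_range.2 (by omega))]
  · rw [sum_eq_single_of_mem j (mem_range.2 (by omega))]
    · simp [h]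
    · intro b _ hb
      simp [hb]
  · intro a _ ha
    apply sum_eq_zero
    intro b _
    simp [Ne.symm ha]

/-- the coefficients of one orbit -/
def orb (C : ℕ → ℕ → ℤ) (n k l i j : ℕ) : ℤ :=
  ∑ a ∈ range ((l - k) / 2 + 1) ×ˢ range ((n - k - l) / 2 + 1),
    C (l - k) a.1 * C (n - k - l) a.2 * (if k + a.1 + a.2 = i ∧ j = l - k - 2 * a.1 then 1 else 0)

theorem orbit_gsum {C : ℕ → ℕ → ℤ}
    (hC : ∀ (j : ℕ) (R : Type) [CommRing R] (x y : R), AA j x y =
      ∑ a ∈ range (j / 2 + 1), (C j a : R) * ((x * y) ^ a * (x + y) ^ (j - 2 * a)))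
    {k l : ℕ} (hkl : k ≤ l) (h : k + l ≤ n) :
    (s * t) ^ k * AA (l - k) s t * AA (n - k - l) 1 (s * t) = gsum n (orb C n k l) s t := by
  have h1 : gsum n (orb C n k l) s t =
      ∑ a ∈ range ((l - k) / 2 + 1) ×ˢ range ((n - k - l) / 2 + 1),
        (((C (l - k) a.1 * C (n - k - l) a.2 : ℤ) : R) *
          mono n (k + a.1 + a.2) (l - k - 2 * a.1) s t) := by
    unfold orb
    rw [gsum_sum]
    refine sum_congr rfl fun a ha => ?_
    rw [mem_product, mem_range, mem_range] at ha
    rw [gsum_smul, gsum_mono (by omega)]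
  rw [h1, hC, hC, sum_product, mul_assoc, sum_mul_sum, mul_sum]
  refine sum_congr rfl fun a ha => ?_
  rw [mul_sum]
  refine sum_congr rfl fun b hb => ?_
  rw [mem_range] at ha hb
  unfold mono
  have h5 : n - 2 * (k + a + b) - (l - k - 2 * a) = n - k - l - 2 * b := by omega
  rw [h5]
  push_cast
  rw [pow_add, pow_add]
  ring

theorem orb_ge {C : ℕ → ℕ → ℤ} (C0 : ∀ j, C j 0 = 1)
    (CB : ∀ j a : ℕ, |C j a| ≤ 2 * ((j : ℤ) + 1) ^ a)
    {k l : ℕ} (hkl : k ≤ l) (h : k + l ≤ n) (i j : ℕ) :
    (if k = i ∧ l = i + j then 1 else 0 : ℤ) ≤ orb C n k l i j +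
      ∑ a ∈ range (i + 1), ∑ b ∈ range (i + 1), if 1 ≤ a + b ∧ a + b ≤ i then
        (4 * (j + 2 * a + 1) ^ a * (n + 1) ^ b *
          (if k = i - a - b ∧ l = i + j + a - b then 1 else 0) : ℤ) else 0 := by
  classical
  set S := range ((l - k) / 2 + 1) ×ˢ range ((n - k - l) / 2 + 1) with hS
  set f : ℕ × ℕ → ℤ := fun a => C (l - k) a.1 * C (n - k - l) a.2 *
    (if k + a.1 + a.2 = i ∧ j = l - k - 2 * a.1 then 1 else 0) with hf
  set g : ℕ × ℕ → ℤ := fun a => if 1 ≤ a.1 + a.2 ∧ a.1 + a.2 ≤ i then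
        (4 * (j + 2 * a.1 + 1) ^ a.1 * (n + 1) ^ a.2 *
          (if k = i - a.1 - a.2 ∧ l = i + j + a.1 - a.2 then 1 else 0) : ℤ) else 0 with hg
  have hg0 : ∀ a, 0 ≤ g a := by
    intro a
    simp only [hg]
    split_ifs <;> positivity
  have e1 : (∑ a ∈ range (i + 1), ∑ b ∈ range (i + 1), if 1 ≤ a + b ∧ a + b ≤ i then
        (4 * (j + 2 * a + 1) ^ a * (n + 1) ^ b *
          (if k = i - a - b ∧ l = i + j + a - b then 1 else 0) : ℤ) else 0) =
      ∑ a ∈ range (i + 1) ×ˢ range (i + 1), g a := by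
    rw [sum_product]
  have e2 : orb C n k l i j = ∑ a ∈ S, f a := rfl
  have h00 : ((0, 0) : ℕ × ℕ) ∈ S := by simp [hS]
  have e3 : ∑ a ∈ S, f a = f (0, 0) + ∑ a ∈ S.erase (0, 0), f a := (add_sum_erase _ _ h00).symm
  have e4 : f (0, 0) = if k = i ∧ l = i + j then 1 else 0 := by
    simp only [hf, C0, one_mul, add_zero, mul_zero, Nat.sub_zero]
    by_cases hh : k = i ∧ l = i + j
    · rw [if_pos hh, if_pos (by omega)]
    · rw [if_neg hh, if_neg (by omega)]
  have e5 : ∀ a ∈ S.erase (0, 0), |f a| ≤ if a ∈ range (i + 1) ×ˢ range (i + 1) then g a else 0 := by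
    rintro ⟨a, b⟩ hab
    rw [mem_erase, hS, mem_product, mem_range, mem_range] at hab
    obtain ⟨hne, ha, hb⟩ := hab
    simp only at ha hb
    have hne' : 1 ≤ a + b := by
      by_contra hc
      apply hne
      have : a = 0 ∧ b = 0 := by omega
      rw [this.1, this.2]
    by_cases hh : k + a + b = i ∧ j = l - k - 2 * a
    · have hmem : ((a, b) : ℕ × ℕ) ∈ range (i + 1) ×ˢ range (i + 1) := by
        rw [mem_product, mem_range, mem_range]; constructor <;> simp only <;> omega
      rw [if_pos hmem]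
      simp only [hf, hg]
      rw [if_pos hh, if_pos (by omega), if_pos (by omega), mul_one, mul_one, abs_mul]
      have b1 := CB (l - k) a
      have b2 := CB (n - k - l) b
      have c1 : (((l - k : ℕ) : ℤ) + 1) = j + 2 * a + 1 := by omega
      have c2 : (((n - k - l : ℕ) : ℤ) + 1) ^ b ≤ ((n : ℤ) + 1) ^ b :=
        pow_le_pow_left₀ (by omega) (by omega) b
      rw [c1] at b1
      calc |C (l - k) a| * |C (n - k - l) b|
          ≤ (2 * ((j : ℤ) + 2 * a + 1) ^ a) * (2 * ((n : ℤ) + 1) ^ b) :=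
            mul_le_mul b1 (b2.trans (by linarith)) (abs_nonneg _) (by positivity)
        _ = 4 * ((j : ℤ) + 2 * a + 1) ^ a * ((n : ℤ) + 1) ^ b := by ring
    · have : f (a, b) = 0 := by
        simp only [hf]; rw [if_neg hh, mul_zero]
      rw [this, abs_zero]
      split_ifs
      · exact hg0 _
      · exact le_rfl
  have e6 : ∑ a ∈ S.erase (0, 0), |f a| ≤ ∑ a ∈ range (i + 1) ×ˢ range (i + 1), g a := by
    refine (sum_le_sum e5).trans ?_
    rw [← sum_filter]
    refine sum_le_sum_of_subset_of_nonneg ?_ fun a _ _ => hg0 a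
    intro a ha
    exact (mem_filter.1 ha).2
  have e7 : -∑ a ∈ S.erase (0, 0), |f a| ≤ ∑ a ∈ S.erase (0, 0), f a := by
    rw [← sum_neg_distrib]
    exact sum_le_sum fun a _ => neg_abs_le _
  rw [e1, e2, e3, e4]
  linarith

theorem gamma_ge (n r : ℕ) (hn : 2 ≤ n) : ∃ γ : ℕ → ℕ → ℤ,
    (TSD n r (MvPolynomial.X 0) (MvPolynomial.X 1) : MvPolynomial (Fin 2) ℝ) =
      gexp n (fun i j => MvPolynomial.C ((γ i j : ℤ) : ℝ)) (MvPolynomial.X 0) (MvPolynomial.X 1) ∧
    ∀ i j, 2 * i + j ≤ n → (NN n r i (i + j) : ℤ) ≤ γ i j +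
      ∑ a ∈ range (i + 1), ∑ b ∈ range (i + 1), if 1 ≤ a + b ∧ a + b ≤ i then
        (4 * (j + 2 * a + 1) ^ a * (n + 1) ^ b * NN n r (i - a - b) (i + j + a - b) : ℤ) else 0 := by
  classical
  obtain ⟨m, rfl⟩ : ∃ m, n = m + 2 := ⟨n - 2, by omega⟩
  choose C C0 CB hC using dickB
  set D' := (DD (m + 2) r).filter (fun w => ides w ≤ des w ∧ ides w + des w ≤ m + 2) with hD'
  have h0 := fold2 (DD (m + 2) r) inv phi ides des (m + 2) (fun w hw => inv_mem hw)
    (fun w hw => phi_mem hw) inv_inv phi_phi (fun w => by unfold ides; rw [inv_inv])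
    (fun w => rfl) ides_phi des_phi (fun w => des_le _) des_le
    (MvPolynomial.X 0 : MvPolynomial (Fin 2) ℝ) (MvPolynomial.X 1)
  refine ⟨fun i j => ∑ w ∈ D', orb C (m + 2) (ides w) (des w) i j, ?_, ?_⟩
  · have h1 : (TSD (m + 2) r (MvPolynomial.X 0) (MvPolynomial.X 1) : MvPolynomial (Fin 2) ℝ) =
        gsum (m + 2) (fun i j => ∑ w ∈ D', orb C (m + 2) (ides w) (des w) i j)
          (MvPolynomial.X 0) (MvPolynomial.X 1) := by
      rw [gsum_sum]
      refine h0.trans (sum_congr rfl fun w hw => ?_)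
      rw [hD', mem_filter] at hw
      exact orbit_gsum hC hw.2.1 hw.2.2
    rw [h1]
    unfold gsum gexp mono
    refine sum_congr rfl fun i _ => sum_congr rfl fun j _ => ?_
    simp only [map_intCast]
  · intro i j hij
    have h1 : (NN (m + 2) r i (i + j) : ℤ) =
        ∑ w ∈ D', (if ides w = i ∧ des w = i + j then 1 else 0 : ℤ) := by
      unfold NN
      rw [← sum_filter, sum_const, nsmul_eq_mul, mul_one, hD', filter_filter]
      congr 2
      apply filter_congr
      intro w _
      constructor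
      · intro h; exact ⟨⟨by omega, by omega⟩, h⟩
      · intro h; exact h.2
    have h2 : ∀ k l, ∑ w ∈ D', (if ides w = k ∧ des w = l then 1 else 0 : ℤ) ≤ NN (m + 2) r k l := by
      intro k l
      unfold NN
      rw [← sum_filter, sum_const, nsmul_eq_mul, mul_one]
      norm_cast
      apply card_le_card
      intro w hw
      rw [mem_filter, hD', mem_filter] at hw
      exact mem_filter.2 ⟨hw.1.1, hw.2⟩
    rw [h1]
    have h3 : ∀ w ∈ D', _ := fun w hw => orb_ge C0 CB (n := m + 2)
      ((mem_filter.1 hw).2.1) ((mem_filter.1 hw).2.2) i j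
    refine (sum_le_sum h3).trans ?_
    rw [sum_add_distrib]
    refine add_le_add le_rfl ?_
    rw [sum_comm]
    refine sum_le_sum fun a _ => ?_
    rw [sum_comm]
    refine sum_le_sum fun b _ => ?_
    split_ifs with hab
    · rw [← mul_sum]
      exact mul_le_mul_of_nonneg_left (h2 _ _) (by positivity)
    · simp

end

end Pool.Agent.TSDG
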