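import Mathlib
import Pool.Agent.Lib.MP_a0e11f_co.EvDefs
import Pool.Agent.Lib.MP_a0e11f_co.EvUpper
import Pool.Agent.Lib.MP_a0e11f_co.EvLower
import Pool.Agent.Lib.MP_a0e11f_co.EvGamma

/-!
# Positivity for large n
-/

set_option autoImplicit false

open Finset

namespace Pool.Agent.TSDG

theorem ev_expo (k a b j : ℕ) (hab : 1 ≤ a + b) :
    ((k + 2 * a + j + 1) * (k + 1) + (k + 2 * a + j) * k) + b + 1 ≤
      2 * (k + a + b) * ((k + a + b) + j) + (k + a + b) + ((k + a + b) + j) := by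
  have h : 1 * 1 ≤ (a + b) * (a + b) := Nat.mul_le_mul hab hab
  nlinarith [Nat.zero_le (b * k), Nat.zero_le (j * (a + b))]

/-- the terms with `1 ≤ a + b ≤ i` are of lower order -/
theorem ev_term {NN : ℕ → ℕ → ℕ → ℕ → ℕ}
    (hU : ∀ n r k l : ℕ, 2 ≤ n → NN n r k l ≤
      2 ^ (k + l + 2) * (n + 1) ^ ((l + 1) * (k + 1) + l * k))
    (n i j r a b : ℕ) (hn : 2 ≤ n) (h1 : 1 ≤ a + b) (h2 : a + b ≤ i) :
    4 * (j + 2 * a + 1) ^ a * (n + 1) ^ b * NN n r (i - a - b) (i + j + a - b) ≤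
      (4 * (j + 2 * a + 1) ^ a * 2 ^ (2 * i + 2 * j + a + 2)) *
        (n + 1) ^ (2 * i * (i + j) + i + (i + j) - 1) := by
  obtain ⟨k, rfl⟩ : ∃ k, i = k + a + b := ⟨i - a - b, by omega⟩
  have e1 : k + a + b - a - b = k := by omega
  have e2 : k + a + b + j + a - b = k + 2 * a + j := by omega
  rw [e1, e2]
  have h3 := hU n r k (k + 2 * a + j) hn
  have h4 := ev_expo k a b j h1
  calc 4 * (j + 2 * a + 1) ^ a * (n + 1) ^ b * NN n r k (k + 2 * a + j)
      ≤ 4 * (j + 2 * a + 1) ^ a * (n + 1) ^ b * (2 ^ (k + (k + 2 * a + j) + 2) *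
        (n + 1) ^ ((k + 2 * a + j + 1) * (k + 1) + (k + 2 * a + j) * k)) :=
        Nat.mul_le_mul_left _ h3
    _ = (4 * (j + 2 * a + 1) ^ a * 2 ^ (k + (k + 2 * a + j) + 2)) *
        (n + 1) ^ (((k + 2 * a + j + 1) * (k + 1) + (k + 2 * a + j) * k) + b) := by
        rw [pow_add (n + 1) ((k + 2 * a + j + 1) * (k + 1) + (k + 2 * a + j) * k) b]; ring
    _ ≤ _ := by
        refine Nat.mul_le_mul (Nat.mul_le_mul_left _ ?_) ?_
        · exact Nat.pow_le_pow_right (by norm_num) (by omega)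
        · exact Nat.pow_le_pow_right (by omega) (by omega)

/-- the exponent -/
def EE (i j : ℕ) : ℕ := 2 * i * (i + j) + i + (i + j)

theorem ev_const (i j : ℕ) (hi : 1 ≤ i) :
    (∑ a ∈ range (i + 1), ∑ _b ∈ range (i + 1),
      4 * (j + 2 * a + 1) ^ a * 2 ^ (2 * i + 2 * j + a + 2)) ≤ (16 * EE i j) ^ EE i j := by
  have hE : 4 * i + 3 * j ≤ EE i j := by unfold EE; nlinarith
  set E := EE i j with hEE
  have h1 : (∑ a ∈ range (i + 1), ∑ _b ∈ range (i + 1),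
      4 * (j + 2 * a + 1) ^ a * 2 ^ (2 * i + 2 * j + a + 2)) ≤
      ∑ _a ∈ range (i + 1), ∑ _b ∈ range (i + 1),
        4 * (j + 2 * i + 1) ^ i * 2 ^ (3 * i + 2 * j + 2) := by
    refine sum_le_sum fun a ha => sum_le_sum fun b _ => ?_
    rw [mem_range] at ha
    refine Nat.mul_le_mul (Nat.mul_le_mul_left _ ?_) (Nat.pow_le_pow_right (by norm_num) (by omega))
    calc (j + 2 * a + 1) ^ a ≤ (j + 2 * i + 1) ^ a := Nat.pow_le_pow_left (by omega) _
      _ ≤ (j + 2 * i + 1) ^ i := Nat.pow_le_pow_right (by omega) (by omega)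
  refine h1.trans ?_
  rw [sum_const, sum_const, card_range, smul_eq_mul, smul_eq_mul]
  have h2 : (i + 1) * ((i + 1) * (4 * (j + 2 * i + 1) ^ i * 2 ^ (3 * i + 2 * j + 2))) =
      ((i + 1) * (i + 1) * (j + 2 * i + 1) ^ i) * 2 ^ (3 * i + 2 * j + 4) := by
    rw [pow_add 2 (3 * i + 2 * j) 4, pow_add 2 (3 * i + 2 * j) 2]; ring
  have h3 : (16 * E) ^ E = E ^ E * 2 ^ (4 * E) := by
    rw [mul_pow, pow_mul]; norm_num; ring
  rw [h2, h3]
  refine Nat.mul_le_mul ?_ (Nat.pow_le_pow_right (by norm_num) (by omega))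
  calc (i + 1) * (i + 1) * (j + 2 * i + 1) ^ i ≤ E * E * E ^ i :=
        Nat.mul_le_mul (Nat.mul_le_mul (by omega) (by omega)) (Nat.pow_le_pow_left (by omega) _)
    _ = E ^ (i + 2) := by rw [pow_add]; ring
    _ ≤ E ^ E := Nat.pow_le_pow_right (by omega) (by omega)

/-- final step of the positivity for large `n`, from an upper bound and a lower bound -/
theorem ev_final_of {NN : ℕ → ℕ → ℕ → ℕ → ℕ}
    (hU : ∀ n r k l : ℕ, 2 ≤ n → NN n r k l ≤
      2 ^ (k + l + 2) * (n + 1) ^ ((l + 1) * (k + 1) + l * k))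
    (hL : ∀ i l r : ℕ, 1 ≤ i → 1 ≤ l → r < 2 → ∀ n, 16 * (2 * i * l + i + l) ≤ n →
      n ^ (2 * i * l + i + l) ≤ (8 * (2 * i * l + i + l)) ^ (2 * i * l + i + l) * NN n r i l)
    (i j r : ℕ) (hi : 1 ≤ i) (hr : r < 2) (n : ℕ) (hn : (16 * EE i j) ^ (2 * EE i j) ≤ n)
    (γ : ℕ → ℕ → ℤ)
    (hγ : ∀ i j, 2 * i + j ≤ n → (NN n r i (i + j) : ℤ) ≤ γ i j +
      ∑ a ∈ range (i + 1), ∑ b ∈ range (i + 1), if 1 ≤ a + b ∧ a + b ≤ i then
        (4 * (j + 2 * a + 1) ^ a * (n + 1) ^ b * NN n r (i - a - b) (i + j + a - b) : ℤ) else 0) :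
    0 < γ i j := by
  have hlow := hL i (i + j) r hi (by omega) hr
  have hc := ev_const i j hi
  have hEb : 4 * i + 3 * j ≤ EE i j := by unfold EE; nlinarith
  have hEd : 2 * i * (i + j) + i + (i + j) = EE i j := rfl
  rw [hEd] at hlow
  set E : ℕ := EE i j with hE
  have hE1 : 1 ≤ E := by omega
  set C : ℕ := ∑ a ∈ range (i + 1), ∑ _b ∈ range (i + 1),
    4 * (j + 2 * a + 1) ^ a * 2 ^ (2 * i + 2 * j + a + 2) with hC
  set K : ℕ := (8 * E) ^ E with hK
  -- the size of n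
  have hbig : 16 * E ≤ n := by
    calc 16 * E = (16 * E) ^ 1 := (pow_one _).symm
      _ ≤ (16 * E) ^ (2 * E) := Nat.pow_le_pow_right (by omega) (by omega)
      _ ≤ n := hn
  have hKC : K * C * 2 ^ (E - 1) < n := by
    have e1 : K * 2 ^ (E - 1) * 2 = (16 * E) ^ E := by
      rw [hK, mul_assoc, ← pow_succ, Nat.sub_add_cancel hE1, ← mul_pow]
      congr 1; ring
    have e2 : K * C * 2 ^ (E - 1) * 2 = (16 * E) ^ E * C := by
      rw [← e1]; ring
    have e3 : (16 * E) ^ E * C ≤ (16 * E) ^ (2 * E) := by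
      rw [two_mul, pow_add]
      exact Nat.mul_le_mul_left _ hc
    have e4 : 0 < (16 * E) ^ (2 * E) := Nat.pow_pos (by omega)
    omega
  have h1 := hγ i j (by omega)
  have hsum : (∑ a ∈ range (i + 1), ∑ b ∈ range (i + 1), if 1 ≤ a + b ∧ a + b ≤ i then
        (4 * (j + 2 * a + 1) ^ a * (n + 1) ^ b * NN n r (i - a - b) (i + j + a - b) : ℤ) else 0) ≤
      ((C * (n + 1) ^ (E - 1) : ℕ) : ℤ) := by
    rw [hC, Finset.sum_mul, Nat.cast_sum]
    refine Finset.sum_le_sum fun a _ => ?_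
    rw [Finset.sum_mul, Nat.cast_sum]
    refine Finset.sum_le_sum fun b _ => ?_
    split_ifs with h
    · have := ev_term hU n i j r a b (by omega) h.1 h.2
      exact_mod_cast this
    · exact Int.natCast_nonneg _
  have h2 := hlow n hbig
  have h3 : (n + 1) ^ (E - 1) ≤ 2 ^ (E - 1) * n ^ (E - 1) := by
    rw [← mul_pow]
    exact Nat.pow_le_pow_left (by omega) _
  have h4 : n ^ E = n * n ^ (E - 1) := by
    rw [← pow_succ']
    congr 1
    omega
  have hn1 : 0 < n ^ (E - 1) := Nat.pow_pos (by omega)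
  have h5 : K * (C * (n + 1) ^ (E - 1)) < n ^ E := by
    calc K * (C * (n + 1) ^ (E - 1)) ≤ K * (C * (2 ^ (E - 1) * n ^ (E - 1))) :=
          Nat.mul_le_mul_left _ (Nat.mul_le_mul_left _ h3)
      _ = (K * C * 2 ^ (E - 1)) * n ^ (E - 1) := by ring
      _ < n * n ^ (E - 1) := Nat.mul_lt_mul_of_pos_right hKC hn1
      _ = n ^ E := h4.symm
  have h6 : C * (n + 1) ^ (E - 1) < NN n r i (i + j) := by
    by_contra hcon
    push Not at hcon
    have := Nat.mul_le_mul_left K hcon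
    omega
  have h7 : ((C * (n + 1) ^ (E - 1) : ℕ) : ℤ) < (NN n r i (i + j) : ℤ) := by exact_mod_cast h6
  linarith

/-- the upper bound over all signed permutations gives the one over `DD n r` -/
theorem ev_card_le (n r k l B : ℕ)
    (h : (univ.filter fun w : SP n => ides w = k ∧ des w = l).card ≤ B) :
    ((DD n r).filter fun w => ides w = k ∧ des w = l).card ≤ B :=
  (card_le_card (filter_subset_filter _ (subset_univ _))).trans h

theorem final (i j r : ℕ) (hi : 1 ≤ i) (hr : r < 2) (n : ℕ)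
    (hn : (16 * EE i j) ^ (2 * EE i j) ≤ n) (γ : ℕ → ℕ → ℤ)
    (hγ : ∀ i j, 2 * i + j ≤ n → (NN n r i (i + j) : ℤ) ≤ γ i j +
      ∑ a ∈ range (i + 1), ∑ b ∈ range (i + 1), if 1 ≤ a + b ∧ a + b ≤ i then
        (4 * (j + 2 * a + 1) ^ a * (n + 1) ^ b * NN n r (i - a - b) (i + j + a - b) : ℤ) else 0) :
    0 < γ i j :=
  ev_final_of (fun n r k l hn => ev_card_le n r k l _ (upper n k l hn))
    (fun i l r hi hl hr n hn => lowerX i l r hi hl hr n hn) i j r hi hr n hn γ hγ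

end Pool.Agent.TSDG
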